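import Mathlib

/-!
# The asymptotic norms of admissible functions: definitions
-/

open scoped NNReal ENNReal

namespace Pool.Agent.H70.AdmNorm

/-- The conditions 1-4 of the problem, together with continuity and associativity. -/
structure Admissible (K : ℝ≥0 → ℝ≥0 → ℝ≥0) : Prop where
  zero_right : ∀ a, K a 0 = a
  symm : ∀ a b, K a b = K b a
  mono : ∀ a b c, a ≤ b → K a c ≤ K b c
  subadd : ∀ a b c d, K (a + c) (b + d) ≤ K a b + K c d
  cont : Continuous (fun x : ℝ≥0 × ℝ≥0 => K x.1 x.2)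
  assoc : ∀ a b c, K (K a b) c = K a (K b c)

/-- `K_p (a, b) = (a ^ p + b ^ p) ^ (1 / p)` for `p < ∞` and `Max` for `p = ∞`. -/
noncomputable def Nm (p : ℝ≥0∞) (a b : ℝ≥0) : ℝ≥0 :=
  if p = ⊤ then max a b else (a ^ p.toReal + b ^ p.toReal) ^ (1 / p.toReal)

/-- `p0` and `pinf` are the exponents of `K` at zero and at infinity. -/
structure HasExponents (K : ℝ≥0 → ℝ≥0 → ℝ≥0) (p0 pinf : ℝ≥0∞) : Prop where
  lower : ∀ a b, Nm pinf a b ≤ K a b
  upper : ∀ a b, K a b ≤ Nm p0 a b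
  infinity : ∀ c : ℝ≥0, 1 < c → ∃ R, ∀ a b, R ≤ a + b → K a b ≤ c * Nm pinf a b
  zero : ∀ c : ℝ≥0, 1 < c → ∃ r, 0 < r ∧ ∀ a b, a + b ≤ r → Nm p0 a b ≤ c * K a b

end Pool.Agent.H70.AdmNorm
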