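import Pool.Agent.H70.AdmDefs

/-!
# The asymptotic norms of admissible functions

Every admissible function `K` is asymptotic to the norm of `ℓ^p`, for a unique `p = pinf` in `[1, ∞]`, at
infinity, and to the norm of `ℓ^p`, for a unique `p = p0 ≤ pinf`, at zero, and it lies between these two norms.
All pairs `1 ≤ p0 ≤ pinf ≤ ∞` occur.  If `K (a, b) = e⁻¹ (e a + e b)`, then the generator `e` varies regularly
at zero with index `p0` and at infinity with index `pinf` (rapidly if `pinf = ∞`).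
-/

open scoped NNReal ENNReal Topology
open Set Filter

namespace Pool.Agent.H70.AdmNorm

/-! ### Basic facts -/

lemma tendsto_div_top (s : ℝ≥0) : Tendsto (fun t : ℝ≥0 => s / t) atTop (𝓝 0) := by
  rw [← NNReal.tendsto_coe]
  have h1 : Tendsto (fun t : ℝ≥0 => (s : ℝ) / (t : ℝ)) atTop (𝓝 0) :=
    tendsto_const_nhds.div_atTop (NNReal.tendsto_coe_atTop.2 tendsto_id)
  simpa using h1

/-- The conditions 1-4. -/
structure Pre (K : ℝ≥0 → ℝ≥0 → ℝ≥0) : Prop where
  zero_right : ∀ a, K a 0 = a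
  symm : ∀ a b, K a b = K b a
  mono : ∀ a b c, a ≤ b → K a c ≤ K b c
  subadd : ∀ a b c d, K (a + c) (b + d) ≤ K a b + K c d

lemma Admissible.pre {K : ℝ≥0 → ℝ≥0 → ℝ≥0} (h : Admissible K) : Pre K :=
  ⟨h.zero_right, h.symm, h.mono, h.subadd⟩

namespace Pre

variable {K : ℝ≥0 → ℝ≥0 → ℝ≥0} (h : Pre K)
include h

lemma zero_left (b : ℝ≥0) : K 0 b = b := by rw [h.symm, h.zero_right]

lemma mono2 {a b c d : ℝ≥0} (h1 : a ≤ b) (h2 : c ≤ d) : K a c ≤ K b d :=
  (h.mono _ _ _ h1).trans (by rw [h.symm b c, h.symm b d]; exact h.mono _ _ _ h2)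

lemma le_add (a b : ℝ≥0) : K a b ≤ a + b := by
  calc K a b = K (a + 0) (0 + b) := by simp
    _ ≤ K a 0 + K 0 b := h.subadd _ _ _ _
    _ = a + b := by rw [h.zero_right, h.zero_left]

lemma le_left (a b : ℝ≥0) : a ≤ K a b := by
  calc a = K a 0 := (h.zero_right a).symm
    _ ≤ K a b := h.mono2 le_rfl zero_le

lemma le_right (a b : ℝ≥0) : b ≤ K a b := by
  rw [h.symm]; exact h.le_left _ _

lemma add_left (a b s : ℝ≥0) : K (a + s) b ≤ K a b + s := by
  calc K (a + s) b = K (a + s) (b + 0) := by simp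
    _ ≤ K a b + K s 0 := h.subadd _ _ _ _
    _ = _ := by rw [h.zero_right]

lemma lip (y : ℝ≥0) : LipschitzWith 1 (fun x => K x y) := by
  apply LipschitzWith.of_dist_le_mul
  intro a b
  rw [NNReal.coe_one, one_mul]
  have key : ∀ a b : ℝ≥0, a ≤ b → dist (K a y) (K b y) ≤ dist a b := by
    intro a b hab
    have h1 : (a : ℝ) ≤ b := by exact_mod_cast hab
    have h2 : (K a y : ℝ) ≤ K b y := by exact_mod_cast h.mono _ _ y hab
    have h3 : (K b y : ℝ) ≤ K a y + (b - a) := by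
      have := h.add_left a y (b - a)
      rw [add_tsub_cancel_of_le hab] at this
      have h4 : (K b y : ℝ) ≤ ((K a y + (b - a) : ℝ≥0) : ℝ) := by exact_mod_cast this
      rwa [NNReal.coe_add, NNReal.coe_sub hab] at h4
    rw [NNReal.dist_eq, NNReal.dist_eq, abs_sub_comm, abs_sub_comm (a : ℝ), abs_of_nonneg (by linarith),
      abs_of_nonneg (by linarith)]
    linarith
  rcases le_total a b with h | h
  · exact key a b h
  · rw [dist_comm, dist_comm a b]; exact key b a h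

lemma cont : Continuous (fun x : ℝ≥0 × ℝ≥0 => K x.1 x.2) := by
  have h1 : LipschitzWith (1 + 1) (Function.uncurry K) := by
    apply LipschitzWith.uncurry
    · exact fun y => h.lip y
    · intro x
      have h' := h.lip x
      have e : K x = fun y => K y x := funext fun y => h.symm _ _
      rw [e]
      exact h'
  exact h1.continuous

lemma nsmul_le (n : ℕ) (a b : ℝ≥0) : K (n * a) (n * b) ≤ n * K a b := by
  induction n with
  | zero => simp [h.zero_right]
  | succ n ih =>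
    push_cast
    rw [add_mul, add_mul, add_mul, one_mul, one_mul, one_mul]
    exact (h.subadd _ _ _ _).trans (by gcongr)

/-- The basic scaling inequality. -/
lemma scale {s t : ℝ≥0} (hs : 0 < s) (ht : 0 < t) (a b : ℝ≥0) :
    K (t * a) (t * b) / t ≤ (1 + s / t) * (K (s * a) (s * b) / s) := by
  obtain ⟨n, hn⟩ : ∃ n : ℕ, n = ⌈t / s⌉₊ := ⟨_, rfl⟩
  have h1 : t / s ≤ n := by rw [hn]; exact Nat.le_ceil _
  have h2 : (n : ℝ≥0) ≤ t / s + 1 := by rw [hn]; exact (Nat.ceil_lt_add_one zero_le).le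
  have h3 : t ≤ n * s := by rwa [div_le_iff₀ hs] at h1
  have h4 : K (t * a) (t * b) ≤ n * K (s * a) (s * b) := by
    refine le_trans ?_ (h.nsmul_le n _ _)
    apply h.mono2
    · rw [← mul_assoc]; gcongr
    · rw [← mul_assoc]; gcongr
  have h5 : K (t * a) (t * b) ≤ (t / s + 1) * K (s * a) (s * b) := h4.trans (by gcongr)
  calc K (t * a) (t * b) / t ≤ ((t / s + 1) * K (s * a) (s * b)) / t := by gcongr
    _ = _ := by field_simp

lemma ratio_le {t : ℝ≥0} (ht : 0 < t) (a b : ℝ≥0) : K (t * a) (t * b) / t ≤ a + b := by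
  rw [div_le_iff₀ ht]
  refine (h.le_add _ _).trans (le_of_eq ?_)
  ring

/-- The limit at infinity. -/
lemma exists_top (a b : ℝ≥0) : ∃ L, Tendsto (fun t => K (t * a) (t * b) / t) atTop (𝓝 L) ∧
    ∀ t, 0 < t → L ≤ K (t * a) (t * b) / t := by
  set S : Set ℝ≥0 := (fun t => K (t * a) (t * b) / t) '' Ioi 0 with hS
  have hne : S.Nonempty := ⟨_, 1, by simp, rfl⟩
  have hle : ∀ t, 0 < t → sInf S ≤ K (t * a) (t * b) / t := fun t ht =>
    csInf_le (OrderBot.bddBelow _) ⟨t, ht, rfl⟩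
  refine ⟨sInf S, ?_, hle⟩
  rw [tendsto_order]
  constructor
  · intro c hc
    filter_upwards [eventually_gt_atTop 0] with t ht
    exact hc.trans_le (hle t ht)
  · intro c hc
    obtain ⟨_, ⟨s, hs, rfl⟩, h1⟩ := exists_lt_of_csInf_lt hne hc
    have h2 : Tendsto (fun t : ℝ≥0 => (1 + s / t) * (K (s * a) (s * b) / s)) atTop
        (𝓝 ((1 + 0) * (K (s * a) (s * b) / s))) := by
      apply Tendsto.mul_const
      apply Tendsto.const_add
      exact tendsto_div_top s
    rw [add_zero, one_mul] at h2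
    filter_upwards [eventually_gt_atTop 0, h2.eventually_lt_const h1] with t ht h3
    exact (h.scale hs ht a b).trans_lt h3

/-- The limit at zero. -/
lemma exists_zero (a b : ℝ≥0) : ∃ L, Tendsto (fun t => K (t * a) (t * b) / t) (𝓝[>] 0) (𝓝 L) ∧
    ∀ t, 0 < t → K (t * a) (t * b) / t ≤ L := by
  set S : Set ℝ≥0 := (fun t => K (t * a) (t * b) / t) '' Ioi 0 with hS
  have hne : S.Nonempty := ⟨_, 1, by simp, rfl⟩
  have hbdd : BddAbove S := ⟨a + b, by rintro _ ⟨t, ht, rfl⟩; exact h.ratio_le ht a b⟩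
  have hle : ∀ t, 0 < t → K (t * a) (t * b) / t ≤ sSup S := fun t ht => le_csSup hbdd ⟨t, ht, rfl⟩
  refine ⟨sSup S, ?_, hle⟩
  rw [tendsto_order]
  constructor
  · intro c hc
    obtain ⟨_, ⟨t, ht, rfl⟩, h1⟩ := exists_lt_of_lt_csSup hne hc
    have ht' : (0 : ℝ≥0) < t := ht
    have h2 : Tendsto (fun s : ℝ≥0 => (1 + s / t) * c) (𝓝[>] 0) (𝓝 ((1 + 0 / t) * c)) := by
      apply tendsto_nhdsWithin_of_tendsto_nhds
      have : Continuous (fun s : ℝ≥0 => (1 + s / t) * c) := by fun_prop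
      exact this.tendsto 0
    rw [zero_div, add_zero, one_mul] at h2
    filter_upwards [self_mem_nhdsWithin, h2.eventually_lt_const h1] with s hs h3
    have hs' : (0 : ℝ≥0) < s := hs
    have h4 := h3.trans_le (h.scale hs' ht' a b)
    exact lt_of_mul_lt_mul_left h4 zero_le
  · intro c hc
    filter_upwards [self_mem_nhdsWithin] with t ht
    exact (hle t ht).trans_lt hc

end Pre

/-! ### The limit along a filter -/

/-- `L` is the limit of the rescalings of `K` along `l`. -/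
def Asym (K : ℝ≥0 → ℝ≥0 → ℝ≥0) (l : Filter ℝ≥0) (L : ℝ≥0 → ℝ≥0 → ℝ≥0) : Prop :=
  ∀ a b, Tendsto (fun t => K (t * a) (t * b) / t) l (𝓝 (L a b))

lemma Asym.pre {K L : ℝ≥0 → ℝ≥0 → ℝ≥0} {l : Filter ℝ≥0} [l.NeBot] (hl : ∀ᶠ t in l, 0 < t)
    (h : Asym K l L) (hK : Pre K) : Pre L where
  zero_right a := by
    refine tendsto_nhds_unique_of_eventuallyEq (h a 0) (tendsto_const_nhds (x := a)) ?_
    filter_upwards [hl] with t ht
    rw [mul_zero, hK.zero_right]
    field_simp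
  symm a b := by
    refine tendsto_nhds_unique (h a b) ?_
    have := h b a
    simpa only [hK.symm] using (this.congr fun t => by rw [hK.symm])
  mono a b c hab := by
    refine le_of_tendsto_of_tendsto (h a c) (h b c) ?_
    filter_upwards with t
    gcongr
    exact hK.mono _ _ _ (by gcongr)
  subadd a b c d := by
    refine le_of_tendsto_of_tendsto (h (a + c) (b + d)) ((h a b).add (h c d)) ?_
    filter_upwards with t
    rw [← add_div, mul_add, mul_add]
    gcongr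
    exact hK.subadd _ _ _ _

/-- convergence with a moving first argument -/
lemma Asym.moving {K L : ℝ≥0 → ℝ≥0 → ℝ≥0} {l : Filter ℝ≥0} (hl : ∀ᶠ t in l, 0 < t)
    (h : Asym K l L) (hK : Pre K) {f : ℝ≥0 → ℝ≥0} {x : ℝ≥0} (hf : Tendsto (fun t => f t / t) l (𝓝 x)) (c : ℝ≥0) :
    Tendsto (fun t => K (f t) (t * c) / t) l (𝓝 (L x c)) := by
  have h1 := h x c
  rw [tendsto_iff_dist_tendsto_zero] at h1 hf ⊢
  refine squeeze_zero' (Eventually.of_forall fun _ => dist_nonneg) ?_ (by simpa using hf.add h1)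
  filter_upwards [hl] with t ht
  refine (dist_triangle _ (K (t * x) (t * c) / t) _).trans (add_le_add_left ?_ _)
  have ht' : (0 : ℝ) < t := ht
  have h2 : dist (K (f t) (t * c)) (K (t * x) (t * c)) ≤ dist (f t) (t * x) := by
    simpa using (hK.lip (t * c)).dist_le_mul (f t) (t * x)
  rw [NNReal.dist_eq] at h2 ⊢
  rw [NNReal.dist_eq] at h2 ⊢
  push_cast at h2 ⊢
  have e1 : ((K (f t) (t * c) : ℝ) / t - K (t * x) (t * c) / t) = ((K (f t) (t * c) : ℝ) - K (t * x) (t * c)) / t := by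
    ring
  have e2 : ((f t : ℝ) / t - x) = (f t - t * x) / t := by field_simp
  rw [e1, e2, abs_div, abs_div]
  gcongr

lemma Asym.assoc {K L : ℝ≥0 → ℝ≥0 → ℝ≥0} {l : Filter ℝ≥0} [l.NeBot] (hl : ∀ᶠ t in l, 0 < t)
    (h : Asym K l L) (hK : Admissible K) (a b c : ℝ≥0) : L (L a b) c = L a (L b c) := by
  have h1 : Tendsto (fun t => K (K (t * a) (t * b)) (t * c) / t) l (𝓝 (L (L a b) c)) :=
    h.moving hl hK.pre (h a b) c
  have h2 : Tendsto (fun t => K (K (t * b) (t * c)) (t * a) / t) l (𝓝 (L a (L b c))) := by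
    rw [(h.pre hl hK.pre).symm a]
    exact h.moving hl hK.pre (h b c) a
  refine tendsto_nhds_unique h1 (h2.congr fun t => ?_)
  rw [hK.assoc (t * a) (t * b) (t * c), hK.symm (t * a)]

lemma Asym.homog {K L : ℝ≥0 → ℝ≥0 → ℝ≥0} {l : Filter ℝ≥0} [l.NeBot]
    (h : Asym K l L) (hL : Pre L) (hs : ∀ c : ℝ≥0, 0 < c → Tendsto (fun t => t * c) l l) (c a b : ℝ≥0) :
    L (c * a) (c * b) = c * L a b := by
  rcases eq_zero_or_pos c with rfl | hc
  · simp [hL.zero_right]
  have h1 := (h a b).comp (hs c hc)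
  have h2 := h1.const_mul c
  refine tendsto_nhds_unique (h (c * a) (c * b)) (h2.congr fun t => ?_)
  simp only [Function.comp_apply]
  rw [← mul_assoc t c a, ← mul_assoc t c b]
  field_simp

/-! ### Homogeneous admissible functions -/

section homogeneous

variable {L : ℝ≥0 → ℝ≥0 → ℝ≥0}

/-- the multiples of one -/
noncomputable def lam (L : ℝ≥0 → ℝ≥0 → ℝ≥0) : ℕ → ℝ≥0
  | 0 => 0
  | n + 1 => L (lam L n) 1

lemma lam_add (hp : Pre L) (ha : ∀ a b c, L (L a b) c = L a (L b c)) (m n : ℕ) :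
    L (lam L m) (lam L n) = lam L (m + n) := by
  induction n with
  | zero => simp [lam, hp.zero_right]
  | succ n ih => rw [← add_assoc, lam, lam, ← ha, ih]

lemma lam_mul (hp : Pre L) (ha : ∀ a b c, L (L a b) c = L a (L b c))
    (hh : ∀ c a b, L (c * a) (c * b) = c * L a b) (m n : ℕ) :
    lam L (m * n) = lam L m * lam L n := by
  induction n with
  | zero => simp [lam]
  | succ n ih =>
    rw [mul_add, mul_one, ← lam_add hp ha, ih]
    conv_lhs => rw [show lam L m = lam L m * 1 by ring, mul_assoc, one_mul]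
    rw [hh, lam]

lemma lam_mono (hp : Pre L) : Monotone (lam L) :=
  monotone_nat_of_le_succ fun _ => hp.le_left _ _

lemma lam_one (hp : Pre L) : lam L 1 = 1 := by
  show L 0 1 = 1
  rw [hp.zero_left]

lemma lam_pos (hp : Pre L) {n : ℕ} (hn : 0 < n) : 1 ≤ lam L n := by
  rw [← lam_one hp]; exact lam_mono hp hn

lemma lam_pow (hp : Pre L) (ha : ∀ a b c, L (L a b) c = L a (L b c))
    (hh : ∀ c a b, L (c * a) (c * b) = c * L a b) (m k : ℕ) :
    lam L (m ^ k) = lam L m ^ k := by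
  induction k with
  | zero => simp [lam_one hp]
  | succ k ih => rw [pow_succ, pow_succ, lam_mul hp ha hh, ih]

/-- a monotone completely multiplicative function is a power -/
lemma lam_eq (hp : Pre L) (ha : ∀ a b c, L (L a b) c = L a (L b c))
    (hh : ∀ c a b, L (c * a) (c * b) = c * L a b) {n : ℕ} (hn : 0 < n) :
    Real.log (lam L n) = Real.logb 2 (lam L 2) * Real.log n := by
  have h2 : (1 : ℝ) ≤ lam L 2 := by exact_mod_cast lam_pos hp (by norm_num)
  have h2' : 0 ≤ Real.log (lam L 2) := Real.log_nonneg h2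
  have hl2 : 0 < Real.log 2 := Real.log_pos (by norm_num)
  have hn1 : (1 : ℝ) ≤ lam L n := by exact_mod_cast lam_pos hp hn
  -- the main estimate
  have key : ∀ k : ℕ, |(k : ℝ) * (Real.log (lam L n) - Real.logb 2 (lam L 2) * Real.log n)| ≤
      Real.log (lam L 2) := by
    intro k
    have hnk : n ^ k ≠ 0 := by positivity
    obtain ⟨j, hj⟩ : ∃ j, j = Nat.log 2 (n ^ k) := ⟨_, rfl⟩
    have h3 : 2 ^ j ≤ n ^ k := by rw [hj]; exact Nat.pow_log_le_self 2 hnk
    have h4 : n ^ k < 2 ^ (j + 1) := by rw [hj]; exact Nat.lt_pow_succ_log_self (by norm_num) _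
    have h5 := lam_mono hp h3
    have h6 := lam_mono hp h4.le
    rw [lam_pow hp ha hh, lam_pow hp ha hh] at h5 h6
    have h5' : ((lam L 2 : ℝ)) ^ j ≤ (lam L n : ℝ) ^ k := by exact_mod_cast h5
    have h6' : ((lam L n : ℝ)) ^ k ≤ (lam L 2 : ℝ) ^ (j + 1) := by exact_mod_cast h6
    have h3' : (2 : ℝ) ^ j ≤ (n : ℝ) ^ k := by exact_mod_cast h3
    have h4' : (n : ℝ) ^ k ≤ (2 : ℝ) ^ (j + 1) := by exact_mod_cast h4.le
    have hn0 : (0 : ℝ) < n := by exact_mod_cast hn
    have l5 := Real.log_le_log (by positivity) h5'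
    have l6 := Real.log_le_log (by positivity) h6'
    have l3 := Real.log_le_log (by positivity) h3'
    have l4 := Real.log_le_log (by positivity) h4'
    rw [Real.log_pow, Real.log_pow] at l3 l4 l5 l6
    push_cast at l4 l6
    -- rescale by `θ`
    have hθ : 0 ≤ Real.logb 2 (lam L 2) := div_nonneg h2' hl2.le
    have e2 : Real.logb 2 (lam L 2) * Real.log 2 = Real.log (lam L 2) := by
      rw [Real.logb]; field_simp
    have m3 := mul_le_mul_of_nonneg_left l3 hθ
    have m4 := mul_le_mul_of_nonneg_left l4 hθ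
    have e3 : Real.logb 2 (lam L 2) * (j * Real.log 2) = j * Real.log (lam L 2) := by
      rw [← e2]; ring
    have e4 : Real.logb 2 (lam L 2) * ((j + 1) * Real.log 2) = (j + 1) * Real.log (lam L 2) := by
      rw [← e2]; ring
    rw [e3] at m3
    rw [e4] at m4
    rw [abs_le]
    constructor <;> nlinarith
  by_contra hne
  have hpos : 0 < |Real.log (lam L n) - Real.logb 2 (lam L 2) * Real.log n| := by
    rw [abs_pos]; exact sub_ne_zero.2 hne
  obtain ⟨k, hk⟩ := exists_nat_gt (Real.log (lam L 2) / |Real.log (lam L n) - Real.logb 2 (lam L 2) * Real.log n|)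
  rw [div_lt_iff₀ hpos] at hk
  have := key k
  rw [abs_mul, Nat.abs_cast] at this
  linarith

lemma exists_frac (x : ℚ) : ∃ m n : ℕ, 0 < n ∧ (n : ℝ≥0) * Real.toNNReal (x : ℝ) = (m : ℝ≥0) := by
  rcases le_or_gt x 0 with h | h
  · refine ⟨0, 1, one_pos, ?_⟩
    rw [Real.toNNReal_of_nonpos (by exact_mod_cast h)]
    simp
  · refine ⟨x.num.toNat, x.den, x.den_pos, ?_⟩
    apply NNReal.eq
    have h0 : (0 : ℝ) ≤ (x : ℝ) := by exact_mod_cast h.le
    rw [NNReal.coe_mul, Real.coe_toNNReal _ h0]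
    have h1 : 0 < x.num := Rat.num_pos.2 h
    have h2 : ((x.num.toNat : ℕ) : ℤ) = x.num := Int.toNat_of_nonneg h1.le
    have h3 : ((x.num.toNat : ℕ) : ℝ) = (x.num : ℝ) := by exact_mod_cast h2
    have h4 : (x.den : ℚ) * x = x.num := by
      rw [mul_comm]; exact Rat.mul_den_eq_num x
    rw [NNReal.coe_natCast, NNReal.coe_natCast, h3]
    exact_mod_cast h4

lemma dense_frac : DenseRange (fun x : ℚ => Real.toNNReal (x : ℝ)) := by
  have h1 : Function.Surjective Real.toNNReal := fun x => ⟨x, Real.toNNReal_coe⟩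
  exact h1.denseRange.comp Rat.denseRange_cast continuous_real_toNNReal

lemma lam_two (hp : Pre L) : lam L 2 = L 1 1 := by
  show L (L 0 1) 1 = L 1 1
  rw [hp.zero_left]

lemma homog_classify (hp : Pre L) (ha : ∀ a b c, L (L a b) c = L a (L b c))
    (hh : ∀ c a b, L (c * a) (c * b) = c * L a b) : ∃ p : ℝ≥0∞, 1 ≤ p ∧ ∀ a b, L a b = Nm p a b := by
  have h2 : (1 : ℝ) ≤ lam L 2 := by exact_mod_cast lam_pos hp (by norm_num)
  have hl2 : 0 < Real.log 2 := Real.log_pos (by norm_num)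
  obtain ⟨θ, hθ⟩ : ∃ θ, θ = Real.logb 2 (lam L 2) := ⟨_, rfl⟩
  have hθ0 : 0 ≤ θ := by rw [hθ]; exact div_nonneg (Real.log_nonneg h2) hl2.le
  have hle2 : (lam L 2 : ℝ) ≤ 2 := by
    have : lam L 2 ≤ 2 := by
      rw [lam_two hp]
      exact (hp.le_add 1 1).trans (by norm_num)
    exact_mod_cast this
  have hθ1 : θ ≤ 1 := by
    rw [hθ, Real.logb, div_le_one hl2]
    exact Real.log_le_log (by linarith) hle2
  have hlam : ∀ n : ℕ, 0 < n → (lam L n : ℝ) = (n : ℝ) ^ θ := by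
    intro n hn
    have h1 : (1 : ℝ) ≤ lam L n := by exact_mod_cast lam_pos hp hn
    have hn0 : (0 : ℝ) < n := by exact_mod_cast hn
    have h3 := lam_eq hp ha hh hn
    rw [← hθ] at h3
    rw [← Real.exp_log (by linarith : (0 : ℝ) < lam L n), h3, Real.rpow_def_of_pos hn0, mul_comm]
  rcases hθ0.eq_or_lt with h0 | hpos
  · -- the maximum
    refine ⟨⊤, le_top, fun a b => ?_⟩
    have h1 : L 1 1 = 1 := by
      have := hlam 2 (by norm_num)
      rw [← h0, Real.rpow_zero, lam_two hp] at this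
      exact_mod_cast this
    rw [Nm, if_pos rfl]
    apply le_antisymm
    · calc L a b ≤ L (max a b) (max a b) := hp.mono2 (le_max_left _ _) (le_max_right _ _)
        _ = L (max a b * 1) (max a b * 1) := by rw [mul_one]
        _ = max a b := by rw [hh, h1, mul_one]
    · exact max_le (hp.le_left _ _) (hp.le_right _ _)
  · have hq : (ENNReal.ofReal (1 / θ)).toReal = 1 / θ := ENNReal.toReal_ofReal (by positivity)
    have hlam' : ∀ n : ℕ, lam L n = (n : ℝ≥0) ^ θ := by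
      intro n
      rcases Nat.eq_zero_or_pos n with rfl | hn
      · rw [Nat.cast_zero, NNReal.zero_rpow hpos.ne']
        rfl
      · apply NNReal.eq
        rw [hlam n hn, NNReal.coe_rpow]
        simp
    -- the equation on rational numbers
    have key : (fun x : ℝ≥0 => L (x ^ θ) 1) = fun x => (x + 1) ^ θ := by
      apply dense_frac.equalizer
      · have h1 := hp.cont
        have h3 : Continuous (fun x : ℝ≥0 => (x ^ θ, (1 : ℝ≥0))) :=
          (NNReal.continuous_rpow_const hθ0).prodMk continuous_const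
        exact h1.comp h3
      · exact (NNReal.continuous_rpow_const hθ0).comp (continuous_id.add continuous_const)
      · funext x
        simp only [Function.comp_apply]
        obtain ⟨m, n, hn0, hx⟩ := exists_frac x
        have hn : (0 : ℝ≥0) < (n : ℝ≥0) := by exact_mod_cast hn0
        have h1 : (n : ℝ≥0) ^ θ * L (Real.toNNReal (x : ℝ) ^ θ) 1 =
            (n : ℝ≥0) ^ θ * (Real.toNNReal (x : ℝ) + 1) ^ θ := by
          rw [← hh, ← NNReal.mul_rpow, ← NNReal.mul_rpow, mul_add, hx, mul_one, mul_one, ← hlam', ← hlam',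
            lam_add hp ha, hlam']
          push_cast
          rfl
        exact mul_left_cancel₀ (NNReal.rpow_pos hn).ne' h1
    refine ⟨ENNReal.ofReal (1 / θ), ?_, fun a b => ?_⟩
    · rw [ENNReal.one_le_ofReal]
      exact (one_le_div hpos).2 hθ1
    · rw [Nm, if_neg ENNReal.ofReal_ne_top, hq]
      rcases eq_zero_or_pos b with rfl | hb
      · rw [hp.zero_right, NNReal.zero_rpow (by positivity), add_zero, ← NNReal.rpow_mul]
        field_simp
        exact (NNReal.rpow_one a).symm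
      · have e1 : a = b * ((a / b) ^ (1 / θ)) ^ θ := by
          rw [← NNReal.rpow_mul]
          have : 1 / θ * θ = 1 := by field_simp
          rw [this, NNReal.rpow_one]
          field_simp
        have e2 : L (((a / b) ^ (1 / θ)) ^ θ) 1 = ((a / b) ^ (1 / θ) + 1) ^ θ := congrFun key _
        have e3 : L a b = b * ((a / b) ^ (1 / θ) + 1) ^ θ := by
          rw [← e2, ← hh, mul_one, ← e1]
        rw [e3]
        have e4 : b = (b ^ (1 / θ)) ^ θ := by
          rw [← NNReal.rpow_mul]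
          have : 1 / θ * θ = 1 := by field_simp
          rw [this, NNReal.rpow_one]
        have e5 : (1 / (1 / θ)) = θ := by field_simp
        rw [e5]
        conv_lhs => rw [e4]
        rw [← NNReal.mul_rpow]
        congr 1
        rw [mul_add, mul_one, ← e4, NNReal.div_rpow]
        have hb' : b ^ (1 / θ) ≠ 0 := (NNReal.rpow_pos hb).ne'
        field_simp

end homogeneous

/-! ### Facts on the norms -/

lemma Nm_top (a b : ℝ≥0) : Nm ⊤ a b = max a b := if_pos rfl

lemma toReal_ge {p : ℝ≥0∞} (hp : 1 ≤ p) (ht : p ≠ ⊤) : 1 ≤ p.toReal := by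
  rw [← ENNReal.toReal_one]
  exact ENNReal.toReal_mono ht hp

lemma Nm_homog {p : ℝ≥0∞} (hp : 1 ≤ p) (c a b : ℝ≥0) : Nm p (c * a) (c * b) = c * Nm p a b := by
  unfold Nm
  split_ifs with ht
  · exact (mul_max _ _ _).symm
  · have h1 : p.toReal ≠ 0 := by have := toReal_ge hp ht; linarith
    rw [NNReal.mul_rpow, NNReal.mul_rpow, ← mul_add, NNReal.mul_rpow, ← NNReal.rpow_mul]
    field_simp
    rw [NNReal.rpow_one, mul_comm]

lemma Nm_one (p : ℝ≥0∞) : Nm p 1 1 = 2 ^ (1 / p.toReal) := by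
  unfold Nm
  split_ifs with ht
  · rw [ht]; simp
  · rw [NNReal.one_rpow]; norm_num

lemma Nm_one_eq {p : ℝ≥0∞} {q : ℝ} (h : (Nm p 1 1) ^ q = 2) : p = ENNReal.ofReal q := by
  rw [Nm_one, ← NNReal.rpow_mul] at h
  have h1 : (2 : ℝ≥0) ^ (1 / p.toReal * q) = 2 ^ (1 : ℝ) := by rw [h, NNReal.rpow_one]
  have h2 : 1 / p.toReal * q = 1 := by
    have h3 := congrArg (fun x : ℝ≥0 => Real.logb 2 (x : ℝ)) h1
    simp only [NNReal.coe_rpow, NNReal.coe_ofNat] at h3
    rwa [Real.logb_rpow (by norm_num) (by norm_num), Real.logb_rpow (by norm_num) (by norm_num)] at h3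
  have h4 : p.toReal ≠ 0 := by
    intro h0
    rw [h0] at h2
    simp at h2
  have h5 : p.toReal = q := by
    field_simp at h2
    exact h2.symm
  rw [← h5, ENNReal.ofReal_toReal]
  intro h6
  rw [h6] at h4
  simp at h4

lemma le_of_Nm_le {p q : ℝ≥0∞} (hp : 1 ≤ p) (hq : 1 ≤ q) (h : Nm p 1 1 ≤ Nm q 1 1) : q ≤ p := by
  rcases eq_or_ne p ⊤ with rfl | hpt
  · exact le_top
  have hp1 := toReal_ge hp hpt
  rw [Nm_one, Nm_one] at h
  have h1 : 1 / p.toReal ≤ 1 / q.toReal := by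
    by_contra hlt
    rw [not_le] at hlt
    exact absurd (NNReal.rpow_lt_rpow_of_exponent_lt (by norm_num : (1 : ℝ≥0) < 2) hlt) (not_lt.2 h)
  rcases eq_or_ne q ⊤ with rfl | hqt
  · exfalso
    rw [ENNReal.toReal_top, div_zero] at h1
    have : 0 < 1 / p.toReal := by positivity
    linarith
  have hq1 := toReal_ge hq hqt
  rw [one_div_le_one_div (by linarith) (by linarith)] at h1
  exact (ENNReal.toReal_le_toReal hqt hpt).1 h1

lemma Nm_inj {p q : ℝ≥0∞} (hp : 1 ≤ p) (hq : 1 ≤ q) (h : Nm p 1 1 = Nm q 1 1) : p = q :=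
  le_antisymm (le_of_Nm_le hq hp h.ge) (le_of_Nm_le hp hq h.le)

/-! ### Uniform estimates -/

lemma unif_core {P Q : ℝ≥0 → ℝ≥0 → ℝ≥0} (hP : Pre P) (hQ : Pre Q) {n : ℕ} (hn : 0 < n) {a b : ℝ≥0}
    (h0 : 0 < a + b)
    (h : ∀ i ∈ Finset.range (n + 1), P ((a + b) * (i / n)) ((a + b) * ((n - i : ℕ) / n)) ≤
      Q ((a + b) * (i / n)) ((a + b) * ((n - i : ℕ) / n)) + (a + b) / n) :
    P a b ≤ (1 + 6 / n) * Q a b := by
  obtain ⟨t, ht⟩ : ∃ t, t = a + b := ⟨_, rfl⟩
  rw [← ht] at h h0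
  have hn' : (0 : ℝ≥0) < n := by exact_mod_cast hn
  obtain ⟨i, hi⟩ : ∃ i, i = ⌊n * a / t⌋₊ := ⟨_, rfl⟩
  have h1 : (i : ℝ≥0) ≤ n * a / t := by rw [hi]; exact Nat.floor_le zero_le
  have h2 : n * a / t < i + 1 := by rw [hi]; exact Nat.lt_floor_add_one _
  have hat : a ≤ t := by rw [ht]; exact le_self_add
  have hin : i ≤ n := by
    have : (i : ℝ≥0) ≤ n := h1.trans (by rw [div_le_iff₀ h0]; gcongr)
    exact_mod_cast this
  obtain ⟨j, hj⟩ : ∃ j, j = n - i := ⟨_, rfl⟩
  have hij : (i : ℝ≥0) + j = n := by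
    have : i + j = n := by omega
    exact_mod_cast this
  have h3 := h i (Finset.mem_range.2 (by omega))
  rw [← hj] at h3
  -- comparison of the coordinates
  have c1 : t * (i / n) ≤ a := by
    rw [le_div_iff₀ h0] at h1
    rw [mul_div_assoc', div_le_iff₀ hn', mul_comm t, mul_comm a]
    exact h1
  have c2 : a ≤ t * (i / n) + t / n := by
    rw [div_lt_iff₀ h0] at h2
    have : a * n ≤ t * i + t := by
      calc a * n = n * a := mul_comm _ _
        _ ≤ (i + 1) * t := h2.le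
        _ = t * i + t := by ring
    calc a = a * n / n := by field_simp
      _ ≤ (t * i + t) / n := by gcongr
      _ = _ := by ring
  have e1 : t * (i / n) + t * (j / n) = a + b := by
    rw [← mul_add, ← add_div, hij, div_self hn'.ne', mul_one, ht]
  have c3 : b ≤ t * (j / n) := by
    have h4 : a + b ≤ a + t * (j / n) := by rw [← e1]; gcongr
    exact le_of_add_le_add_left h4
  have c4 : t * (j / n) ≤ b + t / n := by
    have h4 : t * (i / n) + t * (j / n) ≤ t * (i / n) + (b + t / n) := by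
      rw [e1]
      calc a + b ≤ t * (i / n) + t / n + b := by gcongr
        _ = _ := by ring
    exact le_of_add_le_add_left h4
  have d1 : P a b ≤ P (t * (i / n)) (t * (j / n)) + t / n :=
    (hP.mono2 c2 c3).trans (hP.add_left _ _ _)
  have d2 : Q (t * (i / n)) (t * (j / n)) ≤ Q a b + t / n := by
    calc Q (t * (i / n)) (t * (j / n)) ≤ Q a (b + t / n) := hQ.mono2 c1 c4
      _ = Q (b + t / n) a := hQ.symm _ _
      _ ≤ Q b a + t / n := hQ.add_left _ _ _
      _ = _ := by rw [hQ.symm]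
  have d3 : t ≤ 2 * Q a b := by
    rw [ht, two_mul]
    exact add_le_add (hQ.le_left _ _) (hQ.le_right _ _)
  calc P a b ≤ P (t * (i / n)) (t * (j / n)) + t / n := d1
    _ ≤ (Q (t * (i / n)) (t * (j / n)) + t / n) + t / n := by gcongr
    _ ≤ ((Q a b + t / n) + t / n) + t / n := by gcongr
    _ = Q a b + 3 * t / n := by ring
    _ ≤ Q a b + 3 * (2 * Q a b) / n := by gcongr
    _ = _ := by ring

lemma exists_six {c : ℝ≥0} (hc : 1 < c) : ∃ n : ℕ, 0 < n ∧ (1 : ℝ≥0) + 6 / n ≤ c := by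
  have hpos : 0 < c - 1 := tsub_pos_of_lt hc
  obtain ⟨n, hn⟩ := exists_nat_gt (6 / (c - 1))
  have hn0 : (0 : ℝ≥0) < n := lt_of_le_of_lt zero_le hn
  refine ⟨n, by exact_mod_cast hn0, ?_⟩
  have h1 : 6 / (n : ℝ≥0) ≤ c - 1 := by
    rw [div_lt_iff₀ hpos] at hn
    rw [div_le_iff₀ hn0, mul_comm]
    exact hn.le
  calc (1 : ℝ≥0) + 6 / n ≤ 1 + (c - 1) := by gcongr
    _ = c := add_tsub_cancel_of_le hc.le

lemma unif_top {K N : ℝ≥0 → ℝ≥0 → ℝ≥0} (hK : Pre K) (hN : Pre N)
    (hh : ∀ c a b, N (c * a) (c * b) = c * N a b) (h : Asym K atTop N) {c : ℝ≥0} (hc : 1 < c) :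
    ∃ R, ∀ a b, R ≤ a + b → K a b ≤ c * N a b := by
  obtain ⟨n, hn, hnc⟩ := exists_six hc
  have hn' : (0 : ℝ≥0) < n := by exact_mod_cast hn
  have h1 : ∀ᶠ t : ℝ≥0 in atTop, ∀ i ∈ Finset.range (n + 1),
      K (t * (i / n)) (t * ((n - i : ℕ) / n)) / t < N (i / n) ((n - i : ℕ) / n) + 1 / n := by
    rw [Filter.eventually_all_finset]
    intro i _
    exact (h _ _).eventually_lt_const (lt_add_of_pos_right _ (by positivity))
  obtain ⟨R, hR⟩ := eventually_atTop.1 h1
  refine ⟨max R 1, fun a b hab => ?_⟩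
  have hpos : 0 < a + b := lt_of_lt_of_le one_pos ((le_max_right _ _).trans hab)
  refine (unif_core hK hN hn hpos ?_).trans (by gcongr)
  intro i hi
  have h2 := (hR (a + b) ((le_max_left _ _).trans hab) i hi).le
  rw [div_le_iff₀ hpos] at h2
  rw [hh]
  refine h2.trans (le_of_eq ?_)
  ring

lemma unif_zero {K N : ℝ≥0 → ℝ≥0 → ℝ≥0} (hK : Pre K) (hN : Pre N)
    (hh : ∀ c a b, N (c * a) (c * b) = c * N a b) (h : Asym K (𝓝[>] 0) N) {c : ℝ≥0} (hc : 1 < c) :
    ∃ r, 0 < r ∧ ∀ a b, a + b ≤ r → N a b ≤ c * K a b := by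
  obtain ⟨n, hn, hnc⟩ := exists_six hc
  have hn' : (0 : ℝ≥0) < n := by exact_mod_cast hn
  have h1 : ∀ᶠ t : ℝ≥0 in 𝓝[>] 0, ∀ i ∈ Finset.range (n + 1),
      N (i / n) ((n - i : ℕ) / n) < K (t * (i / n)) (t * ((n - i : ℕ) / n)) / t + 1 / n := by
    rw [Filter.eventually_all_finset]
    intro i _
    exact ((h _ _).add_const (1 / (n : ℝ≥0))).eventually_const_lt (lt_add_of_pos_right _ (by positivity))
  obtain ⟨r, hr, hR⟩ := mem_nhdsGT_iff_exists_Ioc_subset.1 h1
  refine ⟨r, hr, fun a b hab => ?_⟩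
  rcases eq_zero_or_pos (a + b) with h0 | hpos
  · have ha : a = 0 := le_antisymm (by rw [← h0]; exact le_self_add) zero_le
    have hb : b = 0 := le_antisymm (by rw [← h0]; exact le_add_self) zero_le
    rw [ha, hb, hN.zero_right]
    exact zero_le
  refine (unif_core hN hK hn hpos ?_).trans (by gcongr)
  intro i hi
  have h2 : N (i / n) ((n - i : ℕ) / n) <
      K ((a + b) * (i / n)) ((a + b) * ((n - i : ℕ) / n)) / (a + b) + 1 / n := hR ⟨hpos, hab⟩ i hi
  rw [hh]
  calc (a + b) * N (i / n) ((n - i : ℕ) / n)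
      ≤ (a + b) * (K ((a + b) * (i / n)) ((a + b) * ((n - i : ℕ) / n)) / (a + b) + 1 / n) := by gcongr
    _ = _ := by field_simp

/-! ### The exponents -/

lemma ev_zero : ∀ᶠ t : ℝ≥0 in 𝓝[>] 0, 0 < t := self_mem_nhdsWithin

lemma mul_top {c : ℝ≥0} (hc : 0 < c) : Tendsto (fun t : ℝ≥0 => t * c) atTop atTop :=
  tendsto_id.atTop_mul_const hc

lemma mul_zero' {c : ℝ≥0} (hc : 0 < c) : Tendsto (fun t : ℝ≥0 => t * c) (𝓝[>] 0) (𝓝[>] 0) := by
  rw [tendsto_nhdsWithin_iff]
  constructor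
  · apply tendsto_nhdsWithin_of_tendsto_nhds
    have : Continuous (fun t : ℝ≥0 => t * c) := by fun_prop
    simpa using this.tendsto 0
  · filter_upwards [self_mem_nhdsWithin] with t ht
    exact mul_pos ht hc

lemma exists_gt_one {x c : ℝ≥0} (h : x < c) : ∃ y : ℝ≥0, 1 < y ∧ y * x < c := by
  rcases eq_zero_or_pos x with rfl | hx
  · exact ⟨2, by norm_num, by simpa using h⟩
  · obtain ⟨y, hy1, hy2⟩ := exists_between ((one_lt_div hx).2 h)
    exact ⟨y, hy1, (lt_div_iff₀ hx).1 hy2⟩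

lemma HasExponents.asym_top {K : ℝ≥0 → ℝ≥0 → ℝ≥0} {p0 pinf : ℝ≥0∞} (h : HasExponents K p0 pinf)
    (hK : Pre K) (hp : 1 ≤ pinf) : Asym K atTop (Nm pinf) := by
  intro a b
  rcases eq_zero_or_pos (a + b) with h0 | hpos
  · have ha : a = 0 := le_antisymm (by rw [← h0]; exact le_self_add) zero_le
    have hb : b = 0 := le_antisymm (by rw [← h0]; exact le_add_self) zero_le
    have h1 : Nm pinf 0 0 = 0 := by simpa using Nm_homog hp 0 0 0
    rw [ha, hb, h1]
    simp [hK.zero_right]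
  rw [tendsto_order]
  constructor
  · intro c hc
    filter_upwards [eventually_gt_atTop 0] with t ht
    refine hc.trans_le ?_
    rw [le_div_iff₀ ht, mul_comm, ← Nm_homog hp]
    exact h.lower _ _
  · intro c hc
    obtain ⟨y, hy, hyc⟩ := exists_gt_one hc
    obtain ⟨R, hR⟩ := h.infinity y hy
    filter_upwards [eventually_gt_atTop 0, (mul_top hpos).eventually_ge_atTop R] with t ht htR
    refine lt_of_le_of_lt ?_ hyc
    rw [div_le_iff₀ ht]
    rw [mul_add] at htR
    refine (hR _ _ htR).trans (le_of_eq ?_)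
    rw [Nm_homog hp]
    ring

lemma HasExponents.asym_zero {K : ℝ≥0 → ℝ≥0 → ℝ≥0} {p0 pinf : ℝ≥0∞} (h : HasExponents K p0 pinf)
    (hp : 1 ≤ p0) : Asym K (𝓝[>] 0) (Nm p0) := by
  intro a b
  rw [tendsto_order]
  constructor
  · intro c hc
    obtain ⟨y, hy, hyc⟩ := exists_gt_one hc
    obtain ⟨r, hr, hR⟩ := h.zero y hy
    have h1 : ∀ᶠ t : ℝ≥0 in 𝓝[>] 0, t * (a + b) < r := by
      have h2 : Tendsto (fun t : ℝ≥0 => t * (a + b)) (𝓝[>] 0) (𝓝 0) := by
        apply tendsto_nhdsWithin_of_tendsto_nhds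
        have : Continuous (fun t : ℝ≥0 => t * (a + b)) := by fun_prop
        simpa using this.tendsto 0
      exact h2.eventually_lt_const hr
    filter_upwards [ev_zero, h1] with t ht htr
    rw [mul_add] at htr
    have h3 := hR _ _ htr.le
    rw [Nm_homog hp] at h3
    rw [lt_div_iff₀ ht]
    have h4 : t * (y * c) < y * K (t * a) (t * b) := by
      refine lt_of_lt_of_le ?_ h3
      gcongr
    have h5 : y * (c * t) < y * K (t * a) (t * b) := by
      refine lt_of_le_of_lt (le_of_eq ?_) h4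
      ring
    exact lt_of_mul_lt_mul_left h5 zero_le
  · intro c hc
    filter_upwards [ev_zero] with t ht
    refine lt_of_le_of_lt ?_ hc
    rw [div_le_iff₀ ht, mul_comm (Nm p0 a b), ← Nm_homog hp]
    exact h.upper _ _

/-- Existence of the exponents. -/
theorem exists_exponents {K : ℝ≥0 → ℝ≥0 → ℝ≥0} (hK : Admissible K) :
    ∃ p0 pinf : ℝ≥0∞, 1 ≤ p0 ∧ p0 ≤ pinf ∧ HasExponents K p0 pinf := by
  choose T hT1 hT2 using hK.pre.exists_top
  choose Z hZ1 hZ2 using hK.pre.exists_zero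
  have hT : Asym K atTop T := hT1
  have hZ : Asym K (𝓝[>] 0) Z := hZ1
  have hTp := hT.pre (eventually_gt_atTop 0) hK.pre
  have hZp := hZ.pre ev_zero hK.pre
  obtain ⟨p, hp, hp'⟩ := homog_classify hTp (hT.assoc (eventually_gt_atTop 0) hK)
    (hT.homog hTp fun c hc => mul_top hc)
  obtain ⟨q, hq, hq'⟩ := homog_classify hZp (hZ.assoc ev_zero hK)
    (hZ.homog hZp fun c hc => mul_zero' hc)
  have eT : T = Nm p := funext₂ hp'
  have eZ : Z = Nm q := funext₂ hq'
  rw [eT] at hT hTp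
  rw [eZ] at hZ hZp
  have hlow : ∀ a b, Nm p a b ≤ K a b := by
    intro a b
    have := hT2 a b 1 one_pos
    rw [one_mul, one_mul, div_one, eT] at this
    exact this
  have hup : ∀ a b, K a b ≤ Nm q a b := by
    intro a b
    have := hZ2 a b 1 one_pos
    rw [one_mul, one_mul, div_one, eZ] at this
    exact this
  refine ⟨q, p, hq, le_of_Nm_le hp hq ((hlow 1 1).trans (hup 1 1)), hlow, hup, ?_, ?_⟩
  · intro c hc
    exact unif_top hK.pre hTp (Nm_homog hp) hT hc
  · intro c hc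
    exact unif_zero hK.pre hZp (Nm_homog hq) hZ hc

lemma exponents_unique {K : ℝ≥0 → ℝ≥0 → ℝ≥0} (hK : Pre K) {p0 pinf q0 qinf : ℝ≥0∞} (h1 : 1 ≤ p0) (h2 : p0 ≤ pinf)
    (h : HasExponents K p0 pinf) (h1' : 1 ≤ q0) (h2' : q0 ≤ qinf) (h' : HasExponents K q0 qinf) :
    p0 = q0 ∧ pinf = qinf := by
  constructor
  · exact Nm_inj h1 h1' (tendsto_nhds_unique (h.asym_zero h1 1 1) (h'.asym_zero h1' 1 1))
  · exact Nm_inj (h1.trans h2) (h1'.trans h2')
      (tendsto_nhds_unique (h.asym_top hK (h1.trans h2) 1 1) (h'.asym_top hK (h1'.trans h2') 1 1))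

/-! ### Generators -/

/-- The function with generator `e`. -/
noncomputable def gen (e : ℝ≥0 ≃o ℝ≥0) (a b : ℝ≥0) : ℝ≥0 := e.symm (e a + e b)

lemma e_zero (e : ℝ≥0 ≃o ℝ≥0) : e 0 = 0 := by
  have := e.map_bot
  simpa [bot_eq_zero] using this

lemma gen_apply (e : ℝ≥0 ≃o ℝ≥0) (a b : ℝ≥0) : e (gen e a b) = e a + e b := e.apply_symm_apply _

lemma gen_pre (e : ℝ≥0 ≃o ℝ≥0) (h : ∀ a b c d, gen e (a + c) (b + d) ≤ gen e a b + gen e c d) : Pre (gen e) where
  zero_right a := by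
    apply e.injective
    rw [gen_apply, e_zero, add_zero]
  symm a b := by
    apply e.injective
    rw [gen_apply, gen_apply, add_comm]
  mono a b c hab := by
    rw [← e.le_iff_le, gen_apply, gen_apply]
    gcongr
  subadd := h

lemma gen_admissible (e : ℝ≥0 ≃o ℝ≥0) (h : ∀ a b c d, gen e (a + c) (b + d) ≤ gen e a b + gen e c d) :
    Admissible (gen e) where
  zero_right := (gen_pre e h).zero_right
  symm := (gen_pre e h).symm
  mono := (gen_pre e h).mono
  subadd := h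
  cont := (gen_pre e h).cont
  assoc a b c := by
    apply e.injective
    rw [gen_apply, gen_apply, gen_apply, gen_apply, add_assoc]

/-- Mulholland's sufficient condition. -/
lemma mulholland (e : ℝ≥0 ≃o ℝ≥0) (hc : ∀ x y s t : ℝ≥0, s + t = 1 → e (s * x + t * y) ≤ s * e x + t * e y)
    (hM : ∀ x s S : ℝ≥0, x ≤ 1 → s ≤ S → e (S * x) * e s ≤ e (s * x) * e S) (a b c d : ℝ≥0) :
    gen e (a + c) (b + d) ≤ gen e a b + gen e c d := by
  have hpos : ∀ {x : ℝ≥0}, 0 < x → 0 < e x := by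
    intro x hx
    have := e.strictMono hx
    rwa [e_zero] at this
  obtain ⟨A, hA⟩ : ∃ A, A = gen e a b := ⟨_, rfl⟩
  obtain ⟨B, hB⟩ : ∃ B, B = gen e c d := ⟨_, rfl⟩
  have hA' : e A = e a + e b := by rw [hA, gen_apply]
  have hB' : e B = e c + e d := by rw [hB, gen_apply]
  have haA : a ≤ A := by rw [← e.le_iff_le, hA']; exact le_self_add
  have hbA : b ≤ A := by rw [← e.le_iff_le, hA']; exact le_add_self
  have hcB : c ≤ B := by rw [← e.le_iff_le, hB']; exact le_self_add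
  have hdB : d ≤ B := by rw [← e.le_iff_le, hB']; exact le_add_self
  rw [← hA, ← hB, ← e.le_iff_le, gen_apply]
  rcases eq_zero_or_pos A with h0 | hA0
  · have ha : a = 0 := le_antisymm (by rw [← h0]; exact haA) zero_le
    have hb : b = 0 := le_antisymm (by rw [← h0]; exact hbA) zero_le
    rw [ha, hb, h0, zero_add, zero_add, zero_add, hB']
  rcases eq_zero_or_pos B with h0 | hB0
  · have ha : c = 0 := le_antisymm (by rw [← h0]; exact hcB) zero_le
    have hb : d = 0 := le_antisymm (by rw [← h0]; exact hdB) zero_le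
    rw [ha, hb, h0, add_zero, add_zero, add_zero, hA']
  obtain ⟨S, hS⟩ : ∃ S, S = A + B := ⟨_, rfl⟩
  rw [← hS]
  have hS0 : 0 < S := by rw [hS]; exact add_pos hA0 hB0
  have hAS : A ≤ S := by rw [hS]; exact le_self_add
  have hBS : B ≤ S := by rw [hS]; exact le_add_self
  have hsum : A / S + B / S = 1 := by rw [← add_div, ← hS, div_self hS0.ne']
  -- the estimate for one pair of coordinates
  have key : ∀ x y : ℝ≥0, x ≤ A → y ≤ B →
      e (x + y) ≤ (A / S) * (e x * e S / e A) + (B / S) * (e y * e S / e B) := by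
    intro x y hx hy
    have h1 : x + y = (A / S) * (S * (x / A)) + (B / S) * (S * (y / B)) := by
      field_simp
    have h2 : e (S * (x / A)) ≤ e x * e S / e A := by
      rw [le_div_iff₀ (hpos hA0)]
      have := hM (x / A) A S (by rw [div_le_one hA0]; exact hx) hAS
      rwa [mul_div_cancel₀ x hA0.ne'] at this
    have h3 : e (S * (y / B)) ≤ e y * e S / e B := by
      rw [le_div_iff₀ (hpos hB0)]
      have := hM (y / B) B S (by rw [div_le_one hB0]; exact hy) hBS
      rwa [mul_div_cancel₀ y hB0.ne'] at this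
    calc e (x + y) = e ((A / S) * (S * (x / A)) + (B / S) * (S * (y / B))) := by rw [← h1]
      _ ≤ (A / S) * e (S * (x / A)) + (B / S) * e (S * (y / B)) := hc _ _ _ _ hsum
      _ ≤ _ := by gcongr
  have k1 := key a c haA hcB
  have k2 := key b d hbA hdB
  have hA1 : (e A) ≠ 0 := (hpos hA0).ne'
  have hB1 : (e B) ≠ 0 := (hpos hB0).ne'
  calc e (a + c) + e (b + d)
      ≤ ((A / S) * (e a * e S / e A) + (B / S) * (e c * e S / e B)) +
        ((A / S) * (e b * e S / e A) + (B / S) * (e d * e S / e B)) := add_le_add k1 k2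
    _ = (A / S) * ((e a + e b) * e S / e A) + (B / S) * ((e c + e d) * e S / e B) := by ring
    _ = (A / S) * e S + (B / S) * e S := by
        rw [← hA', ← hB']
        field_simp
    _ = e S := by rw [← add_mul, hsum, one_mul]

lemma surj_of {φ : ℝ≥0 → ℝ≥0} (hc : Continuous φ) (h0 : φ 0 = 0) (h1 : ∀ y, 1 ≤ y → y ≤ φ y) :
    Function.Surjective φ := by
  intro y
  have h2 : y ≤ φ (y + 1) := le_self_add.trans (h1 (y + 1) le_add_self)
  have h3 := intermediate_value_Icc (zero_le : (0 : ℝ≥0) ≤ y + 1) hc.continuousOn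
  rw [h0] at h3
  obtain ⟨x, _, hx⟩ := h3 ⟨zero_le, h2⟩
  exact ⟨x, hx⟩

/-- The generator `x ^ p + x ^ q`. -/
lemma exists_pq {p q : ℝ} (hp : 1 ≤ p) (hq : 1 ≤ q) : ∃ e : ℝ≥0 ≃o ℝ≥0, ∀ x, e x = x ^ p + x ^ q := by
  have hs : StrictMono (fun x : ℝ≥0 => x ^ p + x ^ q) := fun x y hxy =>
    add_lt_add (NNReal.rpow_lt_rpow hxy (by linarith)) (NNReal.rpow_lt_rpow hxy (by linarith))
  have hc : Continuous (fun x : ℝ≥0 => x ^ p + x ^ q) :=
    (NNReal.continuous_rpow_const (by linarith)).add (NNReal.continuous_rpow_const (by linarith))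
  refine ⟨StrictMono.orderIsoOfSurjective _ hs (surj_of hc ?_ ?_), fun x => rfl⟩
  · rw [NNReal.zero_rpow (by linarith), NNReal.zero_rpow (by linarith), add_zero]
  · intro y hy
    calc y = y ^ (1 : ℝ) := (NNReal.rpow_one y).symm
      _ ≤ y ^ p := NNReal.rpow_le_rpow_of_exponent_le hy hp
      _ ≤ _ := le_self_add

/-- The generator `x ^ p * exp x`. -/
lemma exists_pexp {p : ℝ} (hp : 1 ≤ p) :
    ∃ e : ℝ≥0 ≃o ℝ≥0, ∀ x, e x = x ^ p * Real.toNNReal (Real.exp x) := by
  have hE : ∀ x : ℝ≥0, 1 ≤ Real.toNNReal (Real.exp x) := fun x => by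
    rw [Real.one_le_toNNReal]
    exact Real.one_le_exp x.2
  have hs : StrictMono (fun x : ℝ≥0 => x ^ p * Real.toNNReal (Real.exp x)) := fun x y hxy => by
    have h1 : Real.toNNReal (Real.exp x) < Real.toNNReal (Real.exp y) := by
      rw [Real.toNNReal_lt_toNNReal_iff (Real.exp_pos _)]
      exact Real.exp_lt_exp.2 hxy
    have h2 : x ^ p < y ^ p := NNReal.rpow_lt_rpow hxy (by linarith)
    exact mul_lt_mul'' h2 h1 zero_le zero_le
  have hc : Continuous (fun x : ℝ≥0 => x ^ p * Real.toNNReal (Real.exp x)) :=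
    (NNReal.continuous_rpow_const (by linarith)).mul
      (continuous_real_toNNReal.comp (Real.continuous_exp.comp NNReal.continuous_coe))
  refine ⟨StrictMono.orderIsoOfSurjective _ hs (surj_of hc ?_ ?_), fun x => rfl⟩
  · rw [NNReal.zero_rpow (by linarith), zero_mul]
  · intro y hy
    calc y = y ^ (1 : ℝ) := (NNReal.rpow_one y).symm
      _ ≤ y ^ p := NNReal.rpow_le_rpow_of_exponent_le hy hp
      _ = y ^ p * 1 := (mul_one _).symm
      _ ≤ _ := by gcongr; exact hE y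

lemma rearr {a a' b b' : ℝ≥0} (h1 : a ≤ a') (h2 : b ≤ b') : a * b' + a' * b ≤ a * b + a' * b' := by
  have h1' : (a : ℝ) ≤ a' := h1
  have h2' : (b : ℝ) ≤ b' := h2
  have h3 : (a : ℝ) * b' + a' * b ≤ a * b + a' * b' := by nlinarith
  exact_mod_cast h3

lemma mulholland_pq {p q : ℝ} (hp : 1 ≤ p) (hpq : p ≤ q) {e : ℝ≥0 ≃o ℝ≥0} (he : ∀ x, e x = x ^ p + x ^ q)
    (a b c d : ℝ≥0) : gen e (a + c) (b + d) ≤ gen e a b + gen e c d := by
  apply mulholland
  · intro x y s t hst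
    rw [he, he, he]
    calc (s * x + t * y) ^ p + (s * x + t * y) ^ q
        ≤ (s * x ^ p + t * y ^ p) + (s * x ^ q + t * y ^ q) :=
          add_le_add (NNReal.rpow_arith_mean_le_arith_mean2_rpow _ _ _ _ hst hp)
            (NNReal.rpow_arith_mean_le_arith_mean2_rpow _ _ _ _ hst (hp.trans hpq))
      _ = _ := by ring
  · intro x s S hx hs
    rw [he, he, he, he, NNReal.mul_rpow, NNReal.mul_rpow, NNReal.mul_rpow, NNReal.mul_rpow]
    have h1 : x ^ q ≤ x ^ p := by
      rcases eq_zero_or_pos x with rfl | hx0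
      · rw [NNReal.zero_rpow (by linarith), NNReal.zero_rpow (by linarith)]
      · exact NNReal.rpow_le_rpow_of_exponent_ge hx0 hx hpq
    have h2 : S ^ p * s ^ q ≤ s ^ p * S ^ q := by
      have e1 : ∀ z : ℝ≥0, z ^ q = z ^ p * z ^ (q - p) := by
        intro z
        rcases eq_zero_or_pos z with rfl | hz
        · rw [NNReal.zero_rpow (by linarith), NNReal.zero_rpow (by linarith), zero_mul]
        · rw [← NNReal.rpow_add hz.ne']
          congr 1
          ring
      rw [e1 s, e1 S]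
      calc S ^ p * (s ^ p * s ^ (q - p)) = (S ^ p * s ^ p) * s ^ (q - p) := by ring
        _ ≤ (S ^ p * s ^ p) * S ^ (q - p) := by
          gcongr
        _ = _ := by ring
    have h3 := rearr h1 h2
    calc (S ^ p * x ^ p + S ^ q * x ^ q) * (s ^ p + s ^ q)
        = (S ^ p * s ^ p * x ^ p + S ^ q * s ^ q * x ^ q) + (x ^ q * (s ^ p * S ^ q) + x ^ p * (S ^ p * s ^ q)) := by ring
      _ ≤ (S ^ p * s ^ p * x ^ p + S ^ q * s ^ q * x ^ q) + (x ^ q * (S ^ p * s ^ q) + x ^ p * (s ^ p * S ^ q)) := by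
        gcongr
      _ = _ := by ring

lemma mulholland_pexp {p : ℝ} (hp : 1 ≤ p) {e : ℝ≥0 ≃o ℝ≥0}
    (he : ∀ x, e x = x ^ p * Real.toNNReal (Real.exp x)) (a b c d : ℝ≥0) :
    gen e (a + c) (b + d) ≤ gen e a b + gen e c d := by
  have hadd : ∀ x y : ℝ≥0, Real.toNNReal (Real.exp (x + y : ℝ)) =
      Real.toNNReal (Real.exp x) * Real.toNNReal (Real.exp y) := by
    intro x y
    rw [Real.exp_add, Real.toNNReal_mul (Real.exp_pos _).le]
  apply mulholland
  · intro x y s t hst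
    rw [he, he, he]
    have h1 : (s * x + t * y) ^ p ≤ s * x ^ p + t * y ^ p :=
      NNReal.rpow_arith_mean_le_arith_mean2_rpow _ _ _ _ hst hp
    have h2 : Real.toNNReal (Real.exp ((s * x + t * y : ℝ≥0) : ℝ)) ≤
        s * Real.toNNReal (Real.exp x) + t * Real.toNNReal (Real.exp y) := by
      rw [← NNReal.coe_le_coe]
      push_cast
      rw [Real.coe_toNNReal _ (Real.exp_pos _).le, Real.coe_toNNReal _ (Real.exp_pos _).le,
        Real.coe_toNNReal _ (Real.exp_pos _).le]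
      have hst' : (s : ℝ) + t = 1 := by
        have := congrArg NNReal.toReal hst
        rwa [NNReal.coe_add, NNReal.coe_one] at this
      have h5 := convexOn_exp.2 (mem_univ (x : ℝ)) (mem_univ (y : ℝ)) (NNReal.coe_nonneg s) (NNReal.coe_nonneg t) hst'
      simp only [smul_eq_mul] at h5
      exact h5
    obtain ⟨X, hX⟩ : ∃ X, X = Real.toNNReal (Real.exp x) := ⟨_, rfl⟩
    obtain ⟨Y, hY⟩ : ∃ Y, Y = Real.toNNReal (Real.exp y) := ⟨_, rfl⟩
    rw [← hX, ← hY] at h2
    rw [← hX, ← hY]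
    have h3 : x ^ p * Y + y ^ p * X ≤ x ^ p * X + y ^ p * Y := by
      rcases le_total x y with hxy | hxy
      · apply rearr (NNReal.rpow_le_rpow hxy (by linarith))
        rw [hX, hY]
        exact Real.toNNReal_le_toNNReal (Real.exp_le_exp.2 hxy)
      · have := rearr (NNReal.rpow_le_rpow hxy (by linarith : 0 ≤ p))
          (show Y ≤ X by
            rw [hX, hY]
            exact Real.toNNReal_le_toNNReal (Real.exp_le_exp.2 hxy))
        rw [add_comm (x ^ p * Y), add_comm (x ^ p * X)]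
        exact this
    calc (s * x + t * y) ^ p * Real.toNNReal (Real.exp ((s * x + t * y : ℝ≥0) : ℝ))
        ≤ (s * x ^ p + t * y ^ p) * (s * X + t * Y) := by gcongr
      _ = s * s * (x ^ p * X) + t * t * (y ^ p * Y) + s * t * (x ^ p * Y + y ^ p * X) := by ring
      _ ≤ s * s * (x ^ p * X) + t * t * (y ^ p * Y) + s * t * (x ^ p * X + y ^ p * Y) := by gcongr
      _ = (s + t) * (s * (x ^ p * X) + t * (y ^ p * Y)) := by ring
      _ = _ := by rw [hst, one_mul]
  · intro x s S hx hs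
    rw [he, he, he, he, NNReal.mul_rpow, NNReal.mul_rpow]
    have h1 : Real.toNNReal (Real.exp ((S * x : ℝ≥0) : ℝ)) * Real.toNNReal (Real.exp s) ≤
        Real.toNNReal (Real.exp ((s * x : ℝ≥0) : ℝ)) * Real.toNNReal (Real.exp S) := by
      rw [← hadd, ← hadd]
      apply Real.toNNReal_le_toNNReal
      rw [Real.exp_le_exp]
      push_cast
      have hx' : (x : ℝ) ≤ 1 := hx
      have hs' : (s : ℝ) ≤ S := hs
      nlinarith
    calc S ^ p * x ^ p * Real.toNNReal (Real.exp ((S * x : ℝ≥0) : ℝ)) * (s ^ p * Real.toNNReal (Real.exp s))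
        = (S ^ p * x ^ p * s ^ p) * (Real.toNNReal (Real.exp ((S * x : ℝ≥0) : ℝ)) * Real.toNNReal (Real.exp s)) := by
          ring
      _ ≤ (S ^ p * x ^ p * s ^ p) * (Real.toNNReal (Real.exp ((s * x : ℝ≥0) : ℝ)) * Real.toNNReal (Real.exp S)) := by
          gcongr
      _ = _ := by ring

/-! ### The exponents of the examples -/

lemma rpow_tendsto {f : ℝ≥0 → ℝ≥0} {l : Filter ℝ≥0} {x : ℝ≥0} (h : Tendsto f l (𝓝 x)) {q : ℝ} (hq : 0 ≤ q) :
    Tendsto (fun t => f t ^ q) l (𝓝 (x ^ q)) :=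
  ((NNReal.continuous_rpow_const hq).tendsto x).comp h

lemma tendsto_neg_pow {r : ℝ} (hr : 0 < r) : Tendsto (fun t : ℝ≥0 => t ^ (-r)) atTop (𝓝 0) := by
  rw [← NNReal.tendsto_coe]
  have h1 := (tendsto_rpow_neg_atTop hr).comp (NNReal.tendsto_coe_atTop.2 (tendsto_id (α := ℝ≥0) (x := atTop)))
  simpa [Function.comp_def] using h1

lemma tendsto_pow_zero {r : ℝ} (hr : 0 < r) : Tendsto (fun t : ℝ≥0 => t ^ r) (𝓝[>] 0) (𝓝 0) := by
  apply tendsto_nhdsWithin_of_tendsto_nhds
  have := (NNReal.continuous_rpow_const hr.le).tendsto 0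
  rwa [NNReal.zero_rpow hr.ne'] at this

lemma gen_diag {e : ℝ≥0 ≃o ℝ≥0} {t : ℝ≥0} (ht : 0 < t) : e (t * (gen e t t / t)) = 2 * e t := by
  rw [mul_div_cancel₀ _ ht.ne', gen_apply, two_mul]

lemma Asym.one {K : ℝ≥0 → ℝ≥0 → ℝ≥0} {l : Filter ℝ≥0} {P : ℝ≥0∞} (h : Asym K l (Nm P)) :
    Tendsto (fun t => K t t / t) l (𝓝 (Nm P 1 1)) := by
  simpa using h 1 1

lemma pq_top {p q : ℝ} (hp : 1 ≤ p) (hpq : p ≤ q) {e : ℝ≥0 ≃o ℝ≥0} (he : ∀ x, e x = x ^ p + x ^ q) {P : ℝ≥0∞}
    (h : Asym (gen e) atTop (Nm P)) : P = ENNReal.ofReal q := by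
  apply Nm_one_eq
  have h1 := h.one
  have e1 : ∀ᶠ t : ℝ≥0 in atTop,
      (gen e t t / t) ^ p * t ^ (p - q) + (gen e t t / t) ^ q = 2 * t ^ (p - q) + 2 := by
    filter_upwards [eventually_gt_atTop 0] with t ht
    have h2 := gen_diag (e := e) ht
    rw [he, he, NNReal.mul_rpow, NNReal.mul_rpow] at h2
    have htq : t ^ q ≠ 0 := (NNReal.rpow_pos ht).ne'
    have h3 : t ^ (p - q) = t ^ p / t ^ q := NNReal.rpow_sub ht.ne' _ _
    rw [h3]
    have h4 : (t ^ p * (gen e t t / t) ^ p + t ^ q * (gen e t t / t) ^ q) / t ^ q = 2 * (t ^ p + t ^ q) / t ^ q := by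
      rw [h2]
    calc (gen e t t / t) ^ p * (t ^ p / t ^ q) + (gen e t t / t) ^ q
        = (t ^ p * (gen e t t / t) ^ p + t ^ q * (gen e t t / t) ^ q) / t ^ q := by
          field_simp
      _ = 2 * (t ^ p + t ^ q) / t ^ q := h4
      _ = _ := by field_simp
  rcases hpq.eq_or_lt with rfl | hlt
  · -- equal exponents
    have e2 : ∀ᶠ t : ℝ≥0 in atTop, (gen e t t / t) ^ p = 2 := by
      filter_upwards [e1] with t ht
      rw [sub_self, NNReal.rpow_zero, mul_one, mul_one, ← two_mul] at ht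
      have h5 : (2 : ℝ≥0) * (gen e t t / t) ^ p = 2 * 2 := by rw [ht]; norm_num
      exact mul_left_cancel₀ (by norm_num) h5
    exact tendsto_nhds_unique_of_eventuallyEq (rpow_tendsto h1 (by linarith)) tendsto_const_nhds e2
  · have hz : Tendsto (fun t : ℝ≥0 => t ^ (p - q)) atTop (𝓝 0) := by
      have := tendsto_neg_pow (r := q - p) (by linarith)
      simpa using this
    have t1 := ((rpow_tendsto h1 (by linarith : 0 ≤ p)).mul hz).add (rpow_tendsto h1 (by linarith : 0 ≤ q))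
    have t2 := (hz.const_mul 2).add_const 2
    have := tendsto_nhds_unique_of_eventuallyEq t1 t2 e1
    simpa using this

lemma pq_zero {p q : ℝ} (hp : 1 ≤ p) (hpq : p ≤ q) {e : ℝ≥0 ≃o ℝ≥0} (he : ∀ x, e x = x ^ p + x ^ q) {P : ℝ≥0∞}
    (h : Asym (gen e) (𝓝[>] 0) (Nm P)) : P = ENNReal.ofReal p := by
  apply Nm_one_eq
  have h1 := h.one
  have e1 : ∀ᶠ t : ℝ≥0 in 𝓝[>] 0,
      (gen e t t / t) ^ p + (gen e t t / t) ^ q * t ^ (q - p) = 2 + 2 * t ^ (q - p) := by
    filter_upwards [ev_zero] with t ht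
    have h2 := gen_diag (e := e) ht
    rw [he, he, NNReal.mul_rpow, NNReal.mul_rpow] at h2
    have htq : t ^ p ≠ 0 := (NNReal.rpow_pos ht).ne'
    have h3 : t ^ (q - p) = t ^ q / t ^ p := NNReal.rpow_sub ht.ne' _ _
    rw [h3]
    calc (gen e t t / t) ^ p + (gen e t t / t) ^ q * (t ^ q / t ^ p)
        = (t ^ p * (gen e t t / t) ^ p + t ^ q * (gen e t t / t) ^ q) / t ^ p := by
          field_simp
      _ = 2 * (t ^ p + t ^ q) / t ^ p := by rw [h2]
      _ = _ := by field_simp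
  rcases hpq.eq_or_lt with rfl | hlt
  · have e2 : ∀ᶠ t : ℝ≥0 in 𝓝[>] 0, (gen e t t / t) ^ p = 2 := by
      filter_upwards [e1] with t ht
      rw [sub_self, NNReal.rpow_zero, mul_one, mul_one, ← two_mul] at ht
      have h5 : (2 : ℝ≥0) * (gen e t t / t) ^ p = 2 * 2 := by rw [ht]; norm_num
      exact mul_left_cancel₀ (by norm_num) h5
    exact tendsto_nhds_unique_of_eventuallyEq (rpow_tendsto h1 (by linarith)) tendsto_const_nhds e2
  · have hz : Tendsto (fun t : ℝ≥0 => t ^ (q - p)) (𝓝[>] 0) (𝓝 0) := tendsto_pow_zero (by linarith)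
    have t1 := (rpow_tendsto h1 (by linarith : 0 ≤ p)).add ((rpow_tendsto h1 (by linarith : 0 ≤ q)).mul hz)
    have t2 := (hz.const_mul 2).const_add 2
    have := tendsto_nhds_unique_of_eventuallyEq t1 t2 e1
    simpa using this

lemma pexp_eq {p : ℝ} {e : ℝ≥0 ≃o ℝ≥0} (he : ∀ x, e x = x ^ p * Real.toNNReal (Real.exp x)) {t : ℝ≥0}
    (ht : 0 < t) : (gen e t t / t) ^ p * Real.toNNReal (Real.exp ((t * (gen e t t / t) : ℝ≥0) : ℝ)) =
      2 * Real.toNNReal (Real.exp t) := by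
  have h2 := gen_diag (e := e) ht
  rw [he, he, NNReal.mul_rpow] at h2
  have htq : t ^ p ≠ 0 := (NNReal.rpow_pos ht).ne'
  apply mul_left_cancel₀ htq
  rw [← mul_assoc, h2]
  ring

lemma pexp_top {p : ℝ} (hp : 1 ≤ p) {e : ℝ≥0 ≃o ℝ≥0} (he : ∀ x, e x = x ^ p * Real.toNNReal (Real.exp x)) {P : ℝ≥0∞}
    (hP : 1 ≤ P) (h : Asym (gen e) atTop (Nm P)) : P = ⊤ := by
  have hK := gen_pre e (mulholland_pexp hp he)
  have h1 := h.one
  have h2 : Nm P 1 1 ≤ 1 := by
    have t2 : Tendsto (fun t : ℝ≥0 => 1 + 2 / t) atTop (𝓝 (1 + 0)) := (tendsto_div_top 2).const_add 1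
    rw [add_zero] at t2
    refine le_of_tendsto_of_tendsto h1 t2 ?_
    filter_upwards [eventually_gt_atTop 0] with t ht
    have h3 := pexp_eq he ht
    have h4 : 1 ≤ gen e t t / t := by
      rw [one_le_div ht]
      exact hK.le_left _ _
    have h5 : (1 : ℝ≥0) ≤ (gen e t t / t) ^ p := NNReal.one_le_rpow h4 (by linarith)
    have h6 : Real.toNNReal (Real.exp ((t * (gen e t t / t) : ℝ≥0) : ℝ)) ≤ 2 * Real.toNNReal (Real.exp t) := by
      rw [← h3]
      exact le_mul_of_one_le_left zero_le h5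
    rw [mul_div_cancel₀ _ ht.ne'] at h6
    have h7 : Real.exp (gen e t t) ≤ 2 * Real.exp t := by
      have := NNReal.coe_le_coe.2 h6
      push_cast at this
      rwa [Real.coe_toNNReal _ (Real.exp_pos _).le, Real.coe_toNNReal _ (Real.exp_pos _).le] at this
    have h8 : (2 : ℝ) ≤ Real.exp 2 := by
      have := Real.add_one_le_exp (2 : ℝ)
      linarith
    have h9 : Real.exp (gen e t t) ≤ Real.exp (t + 2) := by
      rw [Real.exp_add]
      calc Real.exp (gen e t t) ≤ 2 * Real.exp t := h7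
        _ ≤ Real.exp 2 * Real.exp t := by gcongr
        _ = _ := by ring
    have h10 : (gen e t t : ℝ) ≤ t + 2 := Real.exp_le_exp.1 h9
    have h11 : gen e t t ≤ t + 2 := by exact_mod_cast h10
    rw [div_le_iff₀ ht, add_mul, one_mul, div_mul_cancel₀ _ ht.ne']
    exact h11
  have h3 : Nm P 1 1 ≤ Nm ⊤ 1 1 := by
    rw [Nm_top, max_self]; exact h2
  exact top_le_iff.1 (le_of_Nm_le hP le_top h3)

lemma pexp_zero {p : ℝ} (hp : 1 ≤ p) {e : ℝ≥0 ≃o ℝ≥0} (he : ∀ x, e x = x ^ p * Real.toNNReal (Real.exp x)) {P : ℝ≥0∞}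
    (h : Asym (gen e) (𝓝[>] 0) (Nm P)) : P = ENNReal.ofReal p := by
  apply Nm_one_eq
  have h1 := h.one
  have hid : Tendsto (fun t : ℝ≥0 => t) (𝓝[>] 0) (𝓝 0) := tendsto_nhdsWithin_of_tendsto_nhds tendsto_id
  have hE : Continuous (fun x : ℝ≥0 => Real.toNNReal (Real.exp x)) :=
    continuous_real_toNNReal.comp (Real.continuous_exp.comp NNReal.continuous_coe)
  have hE0 : Real.toNNReal (Real.exp ((0 : ℝ≥0) : ℝ)) = 1 := by simp
  have h2 : Tendsto (fun t : ℝ≥0 => Real.toNNReal (Real.exp ((t * (gen e t t / t) : ℝ≥0) : ℝ))) (𝓝[>] 0) (𝓝 1) := by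
    have h3 := hid.mul h1
    rw [zero_mul] at h3
    have h4 := (hE.tendsto 0).comp h3
    rw [hE0] at h4
    exact h4
  have h3 : Tendsto (fun t : ℝ≥0 => 2 * Real.toNNReal (Real.exp t)) (𝓝[>] 0) (𝓝 (2 * 1)) := by
    apply Tendsto.const_mul
    have h4 := (hE.tendsto 0).comp hid
    rw [hE0] at h4
    exact h4
  have h4 := (rpow_tendsto h1 (by linarith : 0 ≤ p)).mul h2
  have h5 : ∀ᶠ t : ℝ≥0 in 𝓝[>] 0,
      (gen e t t / t) ^ p * Real.toNNReal (Real.exp ((t * (gen e t t / t) : ℝ≥0) : ℝ)) =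
      2 * Real.toNNReal (Real.exp t) := by
    filter_upwards [ev_zero] with t ht
    exact pexp_eq he ht
  have := tendsto_nhds_unique_of_eventuallyEq h4 h3 h5
  simpa using this

lemma max_admissible : Admissible (fun a b : ℝ≥0 => max a b) where
  zero_right a := by simp
  symm a b := max_comm _ _
  mono a b c h := max_le_max_right _ h
  subadd a b c d := max_le (add_le_add (le_max_left _ _) (le_max_left _ _))
    (add_le_add (le_max_right _ _) (le_max_right _ _))
  cont := continuous_fst.max continuous_snd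
  assoc a b c := max_assoc _ _ _

lemma max_exponents : HasExponents (fun a b : ℝ≥0 => max a b) ⊤ ⊤ where
  lower a b := by rw [Nm_top]
  upper a b := by rw [Nm_top]
  infinity c hc := ⟨0, fun a b _ => by rw [Nm_top]; exact le_mul_of_one_le_left zero_le hc.le⟩
  zero c hc := ⟨1, one_pos, fun a b _ => by rw [Nm_top]; exact le_mul_of_one_le_left zero_le hc.le⟩

/-- All pairs of exponents occur. -/
theorem exists_with_exponents {p0 pinf : ℝ≥0∞} (h1 : 1 ≤ p0) (h2 : p0 ≤ pinf) :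
    ∃ K, Admissible K ∧ HasExponents K p0 pinf := by
  rcases eq_or_ne p0 ⊤ with rfl | h0
  · obtain rfl : pinf = ⊤ := top_le_iff.1 h2
    exact ⟨_, max_admissible, max_exponents⟩
  have hp := toReal_ge h1 h0
  have ep : ENNReal.ofReal p0.toReal = p0 := ENNReal.ofReal_toReal h0
  rcases eq_or_ne pinf ⊤ with rfl | hi
  · obtain ⟨e, he⟩ := exists_pexp hp
    have hK := gen_admissible e (mulholland_pexp hp he)
    refine ⟨_, hK, ?_⟩
    obtain ⟨q0, qi, hq1, hq2, hq⟩ := exists_exponents hK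
    have e1 := pexp_zero hp he (hq.asym_zero hq1)
    have e2 := pexp_top hp he (hq1.trans hq2) (hq.asym_top hK.pre (hq1.trans hq2))
    rw [ep] at e1
    rw [e1, e2] at hq
    exact hq
  · have hpq : p0.toReal ≤ pinf.toReal := ENNReal.toReal_mono hi h2
    have eq : ENNReal.ofReal pinf.toReal = pinf := ENNReal.ofReal_toReal hi
    obtain ⟨e, he⟩ := exists_pq hp (hp.trans hpq)
    have hK := gen_admissible e (mulholland_pq hp hpq he)
    refine ⟨_, hK, ?_⟩
    obtain ⟨q0, qi, hq1, hq2, hq⟩ := exists_exponents hK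
    have e1 := pq_zero hp hpq he (hq.asym_zero hq1)
    have e2 := pq_top hp hpq he (hq.asym_top hK.pre (hq1.trans hq2))
    rw [ep] at e1
    rw [eq] at e2
    rw [e1, e2] at hq
    exact hq

/-! ### Regular variation of the generators -/

/-- the multiples -/
noncomputable def mult (e : ℝ≥0 ≃o ℝ≥0) (n : ℕ) (t : ℝ≥0) : ℝ≥0 := e.symm (n * e t)

lemma mult_succ (e : ℝ≥0 ≃o ℝ≥0) (n : ℕ) (t : ℝ≥0) : mult e (n + 1) t = gen e (mult e n t) t := by
  unfold mult gen
  rw [e.apply_symm_apply]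
  push_cast
  rw [add_mul, one_mul]

lemma mult_tendsto {e : ℝ≥0 ≃o ℝ≥0} (hK : Pre (gen e)) {l : Filter ℝ≥0} (hl : ∀ᶠ t in l, 0 < t)
    {L : ℝ≥0 → ℝ≥0 → ℝ≥0} (h : Asym (gen e) l L) (n : ℕ) :
    Tendsto (fun t => mult e n t / t) l (𝓝 (lam L n)) := by
  induction n with
  | zero =>
    have h0 : ∀ t, mult e 0 t = 0 := by
      intro t
      unfold mult
      rw [Nat.cast_zero, zero_mul]
      exact e_zero e.symm
    simp only [h0, zero_div]
    exact tendsto_const_nhds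
  | succ n ih =>
    have h1 := h.moving hl hK ih 1
    simp only [mul_one, ← mult_succ] at h1
    exact h1

lemma lam_Nm {P : ℝ≥0∞} (hP : 1 ≤ P) (ht : P ≠ ⊤) (n : ℕ) : lam (Nm P) n = (n : ℝ≥0) ^ (1 / P.toReal) := by
  have h1 := toReal_ge hP ht
  induction n with
  | zero =>
    rw [Nat.cast_zero, NNReal.zero_rpow (by positivity)]
    rfl
  | succ n ih =>
    rw [lam, ih, Nm, if_neg ht, ← NNReal.rpow_mul, NNReal.one_rpow]
    have : 1 / P.toReal * P.toReal = 1 := by field_simp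
    rw [this, NNReal.rpow_one]
    push_cast
    rfl

lemma lam_Nm_top (n : ℕ) : lam (Nm ⊤) (n + 1) = 1 := by
  induction n with
  | zero =>
    show Nm ⊤ 0 1 = 1
    rw [Nm_top]; simp
  | succ n ih => rw [lam, ih, Nm_top, max_self]

lemma ratio_tendsto {e : ℝ≥0 ≃o ℝ≥0} (hK : Pre (gen e)) {l : Filter ℝ≥0} (hl : ∀ᶠ t in l, 0 < t)
    {L : ℝ≥0 → ℝ≥0 → ℝ≥0} (hL : Pre L) (h : Asym (gen e) l L) {m n : ℕ} (hn : 0 < n)
    (hs : Tendsto (fun t => e.symm (((m : ℝ≥0) / n) * e t)) l l) :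
    Tendsto (fun t => e.symm (((m : ℝ≥0) / n) * e t) / t) l (𝓝 (lam L m / lam L n)) := by
  have hn' : (n : ℝ≥0) ≠ 0 := by exact_mod_cast hn.ne'
  have h1 := mult_tendsto hK hl h m
  have h2 := (mult_tendsto hK hl h n).comp hs
  have h3 : lam L n ≠ 0 := (lt_of_lt_of_le one_pos (lam_pos hL hn)).ne'
  refine (h1.div h2 h3).congr' ?_
  have hs0 : ∀ᶠ t in l, 0 < e.symm (((m : ℝ≥0) / n) * e t) := hs.eventually hl
  have hm0 : ∀ᶠ t in l, mult e n (e.symm (((m : ℝ≥0) / n) * e t)) / e.symm (((m : ℝ≥0) / n) * e t) ≠ 0 :=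
    h2.eventually_ne h3
  filter_upwards [hl, hs0, hm0] with t ht hst hmt
  have e1 : mult e n (e.symm (((m : ℝ≥0) / n) * e t)) = mult e m t := by
    unfold mult
    rw [e.apply_symm_apply]
    congr 1
    field_simp
  simp only [Pi.div_apply, Function.comp_apply]
  rw [e1] at hmt ⊢
  have h4 : mult e m t ≠ 0 := by
    intro h0
    rw [h0, zero_div] at hmt
    exact hmt rfl
  field_simp

lemma scale_top (e : ℝ≥0 ≃o ℝ≥0) {c : ℝ≥0} (hc : 0 < c) : Tendsto (fun t => e.symm (c * e t)) atTop atTop :=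
  e.symm.tendsto_atTop.comp (Tendsto.const_mul_atTop hc e.tendsto_atTop)

lemma iso_zero (e : ℝ≥0 ≃o ℝ≥0) : Tendsto e (𝓝[>] 0) (𝓝[>] 0) := by
  rw [tendsto_nhdsWithin_iff]
  constructor
  · apply tendsto_nhdsWithin_of_tendsto_nhds
    have := e.continuous.tendsto 0
    rwa [e_zero] at this
  · filter_upwards [ev_zero] with t ht
    have := e.strictMono ht
    rwa [e_zero] at this

lemma scale_zero (e : ℝ≥0 ≃o ℝ≥0) {c : ℝ≥0} (hc : 0 < c) :
    Tendsto (fun t => e.symm (c * e t)) (𝓝[>] 0) (𝓝[>] 0) := by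
  have h1 := (mul_zero' hc).comp (iso_zero e)
  refine ((iso_zero e.symm).comp h1).congr fun t => ?_
  simp only [Function.comp_apply]
  rw [mul_comm]

lemma e_pos (e : ℝ≥0 ≃o ℝ≥0) {x : ℝ≥0} (hx : 0 < x) : 0 < e x := by
  have := e.strictMono hx
  rwa [e_zero] at this

lemma exists_frac_between {x y : ℝ≥0} (h : x < y) : ∃ m n : ℕ, 0 < m ∧ 0 < n ∧ x < (m : ℝ≥0) / n ∧ (m : ℝ≥0) / n < y := by
  obtain ⟨q, hq1, hq2⟩ := NNReal.lt_iff_exists_rat_btwn x y |>.1 h
  obtain ⟨hq2, hq3⟩ := hq2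
  have hq0 : 0 < q := by
    have h1 : 0 < Real.toNNReal q := lt_of_le_of_lt zero_le hq2
    rw [Real.toNNReal_pos] at h1
    exact_mod_cast h1
  refine ⟨q.num.toNat, q.den, ?_, q.den_pos, ?_⟩
  · have := Rat.num_pos.2 hq0
    omega
  · have h2 : ((q.num.toNat : ℕ) : ℤ) = q.num := Int.toNat_of_nonneg (Rat.num_pos.2 hq0).le
    have h3 : ((q.num.toNat : ℕ) : ℝ) = (q.num : ℝ) := by exact_mod_cast h2
    have h4 : ((q.num.toNat : ℕ) : ℝ≥0) / (q.den : ℕ) = Real.toNNReal q := by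
      apply NNReal.eq
      rw [Real.coe_toNNReal _ (by exact_mod_cast hq0.le), NNReal.coe_div, NNReal.coe_natCast, NNReal.coe_natCast, h3]
      exact_mod_cast q.num_div_den
    rw [h4]
    exact ⟨hq2, hq3⟩

lemma regular {e : ℝ≥0 ≃o ℝ≥0} (hK : Pre (gen e)) {l : Filter ℝ≥0} (hl : ∀ᶠ t in l, 0 < t)
    {P : ℝ≥0∞} (hP : 1 ≤ P) (ht : P ≠ ⊤) (hL : Pre (Nm P)) (h : Asym (gen e) l (Nm P))
    (hs : ∀ c : ℝ≥0, 0 < c → Tendsto (fun t => e.symm (c * e t)) l l) (c : ℝ≥0) :
    Tendsto (fun t => e (c * t) / e t) l (𝓝 (c ^ P.toReal)) := by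
  have h1 := toReal_ge hP ht
  have hlim : ∀ m n : ℕ, 0 < m → 0 < n → Tendsto (fun t => e.symm (((m : ℝ≥0) / n) * e t) / t) l
      (𝓝 (((m : ℝ≥0) / n) ^ (1 / P.toReal))) := by
    intro m n hm hn
    have h2 := ratio_tendsto hK hl hL h (m := m) hn (hs _ (by
      have hm' : (0 : ℝ≥0) < m := by exact_mod_cast hm
      have hn' : (0 : ℝ≥0) < n := by exact_mod_cast hn
      positivity))
    rwa [lam_Nm hP ht, lam_Nm hP ht, ← NNReal.div_rpow] at h2
  have hinv : ∀ x : ℝ≥0, (x ^ P.toReal) ^ (1 / P.toReal) = x := by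
    intro x
    rw [← NNReal.rpow_mul]
    have : P.toReal * (1 / P.toReal) = 1 := by field_simp
    rw [this, NNReal.rpow_one]
  rw [tendsto_order]
  constructor
  · intro d hd
    obtain ⟨m, n, hm, hn, hd1, hd2⟩ := exists_frac_between hd
    have h3 : ((m : ℝ≥0) / n) ^ (1 / P.toReal) < c := by
      have := NNReal.rpow_lt_rpow hd2 (by positivity : 0 < 1 / P.toReal)
      rwa [hinv] at this
    filter_upwards [hl, (hlim m n hm hn).eventually_lt_const h3] with t ht0 h4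
    rw [div_lt_iff₀ ht0, ← e.lt_iff_lt, e.apply_symm_apply] at h4
    refine hd1.trans ?_
    rw [lt_div_iff₀ (e_pos e ht0)]
    exact h4
  · intro d hd
    obtain ⟨m, n, hm, hn, hd1, hd2⟩ := exists_frac_between hd
    have h3 : c < ((m : ℝ≥0) / n) ^ (1 / P.toReal) := by
      have := NNReal.rpow_lt_rpow hd1 (by positivity : 0 < 1 / P.toReal)
      rwa [hinv] at this
    filter_upwards [hl, (hlim m n hm hn).eventually_const_lt h3] with t ht0 h4
    rw [lt_div_iff₀ ht0, ← e.lt_iff_lt, e.apply_symm_apply] at h4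
    refine lt_trans ?_ hd2
    rw [div_lt_iff₀ (e_pos e ht0)]
    exact h4

lemma rapid {e : ℝ≥0 ≃o ℝ≥0} (hK : Pre (gen e)) {l : Filter ℝ≥0} (hl : ∀ᶠ t in l, 0 < t)
    (hL : Pre (Nm ⊤)) (h : Asym (gen e) l (Nm ⊤))
    (hs : ∀ c : ℝ≥0, 0 < c → Tendsto (fun t => e.symm (c * e t)) l l) {c : ℝ≥0} (hc : 1 < c) :
    Tendsto (fun t => e (c * t) / e t) l atTop := by
  rw [tendsto_atTop]
  intro b
  obtain ⟨m, hm⟩ := exists_nat_gt b
  have hlim : Tendsto (fun t => e.symm ((((m + 1 : ℕ) : ℝ≥0) / (1 : ℕ)) * e t) / t) l (𝓝 1) := by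
    have h2 := ratio_tendsto hK hl hL h (m := m + 1) one_pos (hs _ (by positivity))
    rwa [lam_Nm_top, show (1 : ℕ) = 0 + 1 from rfl, lam_Nm_top, div_one] at h2
  filter_upwards [hl, hlim.eventually_lt_const hc] with t ht0 h4
  rw [div_lt_iff₀ ht0, ← e.lt_iff_lt, e.apply_symm_apply, Nat.cast_one, div_one] at h4
  rw [le_div_iff₀ (e_pos e ht0)]
  refine le_trans ?_ h4.le
  push_cast
  gcongr
  exact hm.le.trans le_self_add

/-- Generators vary regularly. -/
theorem generator {e : ℝ≥0 ≃o ℝ≥0}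
    (hM : ∀ a b c d, e.symm (e (a + c) + e (b + d)) ≤ e.symm (e a + e b) + e.symm (e c + e d)) :
    ∃ p0 pinf : ℝ≥0∞, 1 ≤ p0 ∧ p0 ≤ pinf ∧ p0 ≠ ⊤ ∧
      (∀ a b, e (Nm pinf a b) ≤ e a + e b ∧ e a + e b ≤ e (Nm p0 a b)) ∧
      (∀ c : ℝ≥0, 0 < c → Tendsto (fun t => e (c * t) / e t) (𝓝[>] 0) (𝓝 (c ^ p0.toReal))) ∧
      (pinf ≠ ⊤ → ∀ c : ℝ≥0, 0 < c → Tendsto (fun t => e (c * t) / e t) atTop (𝓝 (c ^ pinf.toReal))) ∧
      (pinf = ⊤ → ∀ c : ℝ≥0, 1 < c → Tendsto (fun t => e (c * t) / e t) atTop atTop) := by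
  have he : Admissible (gen e) := gen_admissible e hM
  obtain ⟨p0, pinf, h1, h2, h3⟩ := exists_exponents he
  have hz := h3.asym_zero h1
  have ht := h3.asym_top he.pre (h1.trans h2)
  have hzp := hz.pre ev_zero he.pre
  have htp := ht.pre (eventually_gt_atTop 0) he.pre
  have h0 : p0 ≠ ⊤ := by
    rintro rfl
    have h4 := h3.upper 1 1
    rw [Nm_top, max_self, ← e.le_iff_le, gen_apply] at h4
    have h5 := e_pos e one_pos
    have h6 : e 1 + 0 < e 1 + e 1 := by gcongr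
    rw [add_zero] at h6
    exact absurd h4 (not_le.2 h6)
  refine ⟨p0, pinf, h1, h2, h0, ?_, ?_, ?_, ?_⟩
  · intro a b
    rw [← gen_apply]
    exact ⟨e.monotone (h3.lower a b), e.monotone (h3.upper a b)⟩
  · intro c _
    exact regular he.pre ev_zero h1 h0 hzp hz (fun c hc => scale_zero e hc) c
  · intro hi c _
    exact regular he.pre (eventually_gt_atTop 0) (h1.trans h2) hi htp ht (fun c hc => scale_top e hc) c
  · rintro rfl c hc
    exact rapid he.pre (eventually_gt_atTop 0) htp ht (fun c hc => scale_top e hc) hc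

end Pool.Agent.H70.AdmNorm
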