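import Mathlib

open Complex Metric Set TopologicalSpace Topology Manifold

namespace Pool.Agent.H70.MapDefs

/-- `f` is a local orientation-preserving map at `z` in the topological sense (local degree `+1`):
near `z` one has `f w - f z = (w - z) * exp (L w)` with `L` continuous on a punctured disc. -/
def PosAt (f : ℂ → ℂ) (z : ℂ) : Prop :=
  ∃ r > 0, ∃ L : ℂ → ℂ, ContinuousOn L (ball z r \ {z}) ∧
    ∀ w ∈ ball z r \ {z}, f w - f z = (w - z) * exp (L w)

lemma PosAt.congr {f g : ℂ → ℂ} {z : ℂ} (hf : PosAt f z) (h : g =ᶠ[𝓝 z] f) : PosAt g z := by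
  obtain ⟨r, hr, L, hL, hfL⟩ := hf
  obtain ⟨s, hs, hs'⟩ := Metric.eventually_nhds_iff_ball.1 h
  refine ⟨min r s, lt_min hr hs, L, hL.mono ?_, ?_⟩
  · exact sdiff_subset_sdiff_left (ball_subset_ball (min_le_left _ _))
  · intro w hw
    rw [hs' w (ball_subset_ball (min_le_right _ _) hw.1), hs' z (mem_ball_self hs)]
    exact hfL w ⟨ball_subset_ball (min_le_left _ _) hw.1, hw.2⟩

lemma PosAt.id (z : ℂ) : PosAt (fun w => w) z :=
  ⟨1, one_pos, fun _ => 0, continuousOn_const, fun w _ => by simp⟩

lemma PosAt.comp {f g : ℂ → ℂ} {z : ℂ} (hg : PosAt g (f z)) (hf : PosAt f z)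
    (hc : ∀ᶠ w in 𝓝 z, ContinuousAt f w) : PosAt (fun w => g (f w)) z := by
  obtain ⟨r, hr, L, hL, hfL⟩ := hf
  obtain ⟨s, hs, M, hM, hgM⟩ := hg
  have hcz : ContinuousAt f z := hc.self_of_nhds
  have h1 : ∀ᶠ w in 𝓝 z, f w ∈ ball (f z) s := hcz (ball_mem_nhds _ hs)
  obtain ⟨t, ht, ht'⟩ := Metric.eventually_nhds_iff_ball.1 (h1.and hc)
  have key : ∀ w ∈ ball z (min r t) \ {z}, f w ∈ ball (f z) s \ {f z} := by
    intro w hw
    refine ⟨(ht' w (ball_subset_ball (min_le_right _ _) hw.1)).1, ?_⟩
    intro h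
    have h2 := hfL w ⟨ball_subset_ball (min_le_left _ _) hw.1, hw.2⟩
    rw [mem_singleton_iff] at h
    rw [h, sub_self] at h2
    rcases mul_eq_zero.1 h2.symm with h3 | h3
    · exact hw.2 (sub_eq_zero.1 h3)
    · exact exp_ne_zero _ h3
  refine ⟨min r t, lt_min hr ht, fun w => L w + M (f w), ?_, ?_⟩
  · refine (hL.mono (sdiff_subset_sdiff_left (ball_subset_ball (min_le_left _ _)))).add ?_
    refine hM.comp ?_ key
    intro w hw
    exact (ht' w (ball_subset_ball (min_le_right _ _) hw.1)).2.continuousWithinAt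
  · intro w hw
    rw [hgM (f w) (key w hw), hfL w ⟨ball_subset_ball (min_le_left _ _) hw.1, hw.2⟩, exp_add]
    ring

lemma PosAt.inv {f g : ℂ → ℂ} {z : ℂ} (hf : PosAt f z) (hgf : ∀ᶠ w in 𝓝 (f z), f (g w) = w)
    (hg : g (f z) = z) (hgc : ∀ᶠ w in 𝓝 (f z), ContinuousAt g w) : PosAt g (f z) := by
  obtain ⟨r, hr, L, hL, hfL⟩ := hf
  have hcz : ContinuousAt g (f z) := hgc.self_of_nhds
  have h1 : ∀ᶠ w in 𝓝 (f z), g w ∈ ball z r := by
    have := hcz (ball_mem_nhds (g (f z)) hr)
    rwa [hg] at this
  obtain ⟨t, ht, ht'⟩ := Metric.eventually_nhds_iff_ball.1 ((h1.and hgf).and hgc)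
  have key : ∀ w ∈ ball (f z) t \ {f z}, g w ∈ ball z r \ {z} := by
    intro w hw
    refine ⟨(ht' w hw.1).1.1, ?_⟩
    intro h
    rw [mem_singleton_iff] at h
    have := (ht' w hw.1).1.2
    rw [h] at this
    exact hw.2 this.symm
  refine ⟨t, ht, fun w => - L (g w), ?_, ?_⟩
  · refine (hL.comp ?_ key).neg
    intro w hw
    exact (ht' w hw.1).2.continuousWithinAt
  · intro w hw
    have h2 := hfL (g w) (key w hw)
    rw [(ht' w hw.1).1.2] at h2
    rw [h2, hg, exp_neg]
    field_simp [exp_ne_zero]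

/-- The pregroupoid of topologically orientation-preserving maps between open subsets of `ℂ`. -/
def orientPregroupoid : Pregroupoid ℂ where
  property f u := ContinuousOn f u ∧ ∀ z ∈ u, PosAt f z
  comp := by
    intro f g u v hf hg hu hv huv
    refine ⟨hg.1.comp (hf.1.mono inter_subset_left) (fun x hx => hx.2), ?_⟩
    intro z hz
    refine PosAt.comp (f := f) (g := g) (hg.2 _ hz.2) (hf.2 z hz.1) ?_
    filter_upwards [hu.mem_nhds hz.1] with w hw using hf.1.continuousAt (hu.mem_nhds hw)
  id_mem := ⟨continuousOn_id, fun z _ => PosAt.id z⟩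
  locality := by
    intro f u hu h
    refine ⟨?_, ?_⟩
    · intro x hx
      obtain ⟨v, hv, hxv, h'⟩ := h x hx
      exact (h'.1.continuousAt ((hu.inter hv).mem_nhds ⟨hx, hxv⟩)).continuousWithinAt
    · intro x hx
      obtain ⟨v, hv, hxv, h'⟩ := h x hx
      exact h'.2 x ⟨hx, hxv⟩
  congr := by
    intro f g u hu hfg hf
    refine ⟨hf.1.congr hfg, ?_⟩
    intro z hz
    refine (hf.2 z hz).congr ?_
    filter_upwards [hu.mem_nhds hz] with w hw using hfg w hw

/-- The structure groupoid of orientation-preserving local homeomorphisms of `ℂ`. -/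
noncomputable def orientGroupoid : StructureGroupoid ℂ := orientPregroupoid.groupoid

instance : ClosedUnderRestriction orientGroupoid where
  closedUnderRestriction := by
    intro e he s hs
    have h1 := he.1
    have h2 := he.2
    refine ⟨⟨?_, ?_⟩, ⟨?_, ?_⟩⟩
    · exact h1.1.mono (e.restr_source' s hs ▸ inter_subset_left)
    · intro z hz
      rw [e.restr_source' s hs] at hz
      exact h1.2 z hz.1
    · refine h2.1.mono ?_
      rw [OpenPartialHomeomorph.restr_target]
      exact inter_subset_left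
    · intro z hz
      rw [OpenPartialHomeomorph.restr_target] at hz
      exact h2.2 z hz.1

section

variable (S : Type) [TopologicalSpace S] [ChartedSpace ℂ S]

/-- `Homeo⁺(S)`: the group of homeomorphisms of the oriented surface `S` (oriented by its atlas)
which are orientation preserving in all charts. -/
def HomeoPos [HasGroupoid S orientGroupoid] : Subgroup (S ≃ₜ S) where
  carrier := {h | ∀ c c' : OpenPartialHomeomorph S ℂ, c ∈ atlas ℂ S → c' ∈ atlas ℂ S →
    c.symm ≫ₕ h.toOpenPartialHomeomorph ≫ₕ c' ∈ orientGroupoid}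
  mul_mem' := by
    intro a b ha hb
    exact (Structomorph.trans (G := orientGroupoid) ⟨b, hb⟩ ⟨a, ha⟩).mem_groupoid
  one_mem' := (Structomorph.refl (G := orientGroupoid) S).mem_groupoid
  inv_mem' := by
    intro a ha
    exact (Structomorph.symm (G := orientGroupoid) ⟨a, ha⟩).mem_groupoid

variable {S} in
/-- `h` is isotopic to the identity: there is a continuous `H : [0,1] × S → S` with `H(0, ·) = id`,
`H(1, ·) = h` and each `H(t, ·)` a homeomorphism. -/
def IsotopicToId (h : S ≃ₜ S) : Prop :=
  ∃ H : unitInterval × S → S, Continuous H ∧ (∀ t, ∃ k : S ≃ₜ S, ∀ x, H (t, x) = k x) ∧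
    (∀ x, H (0, x) = x) ∧ ∀ x, H (1, x) = h x

/-- `Homeo₀(S)`: the subgroup of homeomorphisms isotopic to the identity. -/
def Homeo0 [HasGroupoid S orientGroupoid] : Subgroup (HomeoPos S) where
  carrier := {h | IsotopicToId (h : S ≃ₜ S)}
  mul_mem' := by
    rintro a b ⟨H, hH, hH', h0, h1⟩ ⟨K, hK, hK', k0, k1⟩
    refine ⟨fun p => H (p.1, K p), ?_, ?_, ?_, ?_⟩
    · exact hH.comp (continuous_fst.prodMk hK)
    · intro t
      obtain ⟨h, hh⟩ := hH' t
      obtain ⟨k, hk⟩ := hK' t
      refine ⟨h * k, fun x => ?_⟩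
      show H (t, K (t, x)) = h (k x)
      rw [hk, hh]
    · intro x
      show H (0, K (0, x)) = x
      rw [k0, h0]
    · intro x
      show H (1, K (1, x)) = _
      rw [k1, h1]
      rfl
  one_mem' := ⟨fun p => p.2, continuous_snd, fun t => ⟨1, fun x => rfl⟩, fun x => rfl,
    fun x => rfl⟩
  inv_mem' := by
    rintro a ⟨H, hH, hH', h0, h1⟩
    refine ⟨fun p => H (unitInterval.symm p.1, (a : S ≃ₜ S).symm p.2), ?_, ?_, ?_, ?_⟩
    · exact hH.comp ((unitInterval.continuous_symm.comp continuous_fst).prodMk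
        ((a : S ≃ₜ S).symm.continuous.comp continuous_snd))
    · intro t
      obtain ⟨h, hh⟩ := hH' (unitInterval.symm t)
      refine ⟨h * (a : S ≃ₜ S).symm, fun x => ?_⟩
      show H (unitInterval.symm t, (a : S ≃ₜ S).symm x) = h ((a : S ≃ₜ S).symm x)
      rw [hh]
    · intro x
      show H (unitInterval.symm 0, (a : S ≃ₜ S).symm x) = x
      rw [unitInterval.symm_zero, h1]
      exact (a : S ≃ₜ S).apply_symm_apply x
    · intro x
      show H (unitInterval.symm 1, (a : S ≃ₜ S).symm x) = _
      rw [unitInterval.symm_one, h0]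
      rfl

instance [HasGroupoid S orientGroupoid] : (Homeo0 S).Normal where
  conj_mem := by
    rintro a ⟨H, hH, hH', h0, h1⟩ g
    refine ⟨fun p => (g : S ≃ₜ S) (H (p.1, (g : S ≃ₜ S).symm p.2)), ?_, ?_, ?_, ?_⟩
    · exact (g : S ≃ₜ S).continuous.comp (hH.comp (continuous_fst.prodMk
        ((g : S ≃ₜ S).symm.continuous.comp continuous_snd)))
    · intro t
      obtain ⟨h, hh⟩ := hH' t
      refine ⟨(g : S ≃ₜ S) * h * (g : S ≃ₜ S).symm, fun x => ?_⟩
      show (g : S ≃ₜ S) (H (t, (g : S ≃ₜ S).symm x)) = (g : S ≃ₜ S) (h ((g : S ≃ₜ S).symm x))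
      rw [hh]
    · intro x
      show (g : S ≃ₜ S) (H (0, (g : S ≃ₜ S).symm x)) = x
      rw [h0]
      exact (g : S ≃ₜ S).apply_symm_apply x
    · intro x
      show (g : S ≃ₜ S) (H (1, (g : S ≃ₜ S).symm x)) = _
      rw [h1]
      rfl

end

/-- An oriented surface: a connected Hausdorff second countable topological 2-manifold without
boundary, with an atlas of charts in `ℂ` whose transition maps are orientation preserving. -/
structure OrientedSurface where
  /-- the underlying space -/
  carrier : Type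
  [topology : TopologicalSpace carrier]
  [t2 : T2Space carrier]
  [secondCountable : SecondCountableTopology carrier]
  [connected : ConnectedSpace carrier]
  [charted : ChartedSpace ℂ carrier]
  [oriented : HasGroupoid carrier orientGroupoid]

attribute [instance] OrientedSurface.topology OrientedSurface.t2 OrientedSurface.secondCountable
  OrientedSurface.connected OrientedSurface.charted OrientedSurface.oriented

/-- A surface is of infinite type if its fundamental group is not finitely generated. -/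
def IsInfiniteType (S : OrientedSurface) : Prop :=
  ∀ x : S.carrier, ¬ Group.FG (FundamentalGroup S.carrier x)

/-- The mapping class group `Map(S) = Homeo⁺(S) / Homeo₀(S)`. -/
def Map (S : OrientedSurface) : Type := HomeoPos S.carrier ⧸ Homeo0 S.carrier

instance Map.group (S : OrientedSurface) : Group (Map S) :=
  QuotientGroup.Quotient.group (Homeo0 S.carrier)

/-- The mapping class of an orientation-preserving homeomorphism. -/
def Map.mk {S : OrientedSurface} (h : HomeoPos S.carrier) : Map S :=
  QuotientGroup.mk (s := Homeo0 S.carrier) h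

/-- The homeomorphism `h` is the identity outside a compact set. -/
def IdOffCompact {X : Type} [TopologicalSpace X] (h : X ≃ₜ X) : Prop :=
  ∃ K : Set X, IsCompact K ∧ ∀ x, x ∉ K → h x = x

/-- A mapping class is compactly supported if it has a representative that is the identity outside
a compact subset of `S`. -/
def IsCompactlySupported {S : OrientedSurface} (g : Map S) : Prop :=
  ∃ h : HomeoPos S.carrier, Map.mk h = g ∧ IdOffCompact h.1

lemma Map.mk_eq_mk {S : OrientedSurface} {a b : HomeoPos S.carrier} (h : Map.mk a = Map.mk b) :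
    IsotopicToId ((a⁻¹ * b : HomeoPos S.carrier) : S.carrier ≃ₜ S.carrier) :=
  QuotientGroup.eq.1 h

end Pool.Agent.H70.MapDefs
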