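import Mathlib
import Pool.Agent.H70.MapDefs

open Complex Metric Set TopologicalSpace Topology Manifold
open Pool.Agent.H70.MapDefs

namespace Pool.Agent.H70.Dev

/-- Two maps which differ by elements of a uniformly discrete group near a point differ by a
constant near that point. -/
lemma eventually_eq_add {Γ : AddSubgroup ℂ} (hΓ : ∀ γ ∈ Γ, ‖γ‖ < 1 → γ = 0) {F g : ℂ → ℂ} {w : ℂ}
    (hF : ContinuousAt F w) (hg : ContinuousAt g w) (h : ∀ᶠ x in 𝓝 w, F x - g x ∈ Γ) :
    F =ᶠ[𝓝 w] fun x => g x + (F w - g w) := by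
  have h1 : ∀ᶠ x in 𝓝 w, (F x - g x) ∈ ball (F w - g w) 1 :=
    (hF.sub hg) (ball_mem_nhds _ one_pos)
  filter_upwards [h1, h] with x hx hx'
  have h2 : (F x - g x) - (F w - g w) = 0 := by
    apply hΓ _ (Γ.sub_mem hx' h.self_of_nhds)
    rwa [mem_ball, dist_eq_norm] at hx
  linear_combination h2

lemma posAt_add_const {g : ℂ → ℂ} {z : ℂ} (c : ℂ) (hg : PosAt g z) :
    PosAt (fun w => g w + c) z := by
  obtain ⟨r, hr, L, hL, hgL⟩ := hg
  exact ⟨r, hr, L, hL, fun w hw => by rw [← hgL w hw]; ring⟩

lemma posAt_comp_add {g : ℂ → ℂ} {z : ℂ} (c : ℂ) (hg : PosAt g (z + c)) :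
    PosAt (fun w => g (w + c)) z := by
  obtain ⟨r, hr, L, hL, hgL⟩ := hg
  have key : ∀ w ∈ ball z r \ {z}, w + c ∈ ball (z + c) r \ {z + c} := by
    rintro w ⟨hw1, hw2⟩
    refine ⟨?_, ?_⟩
    · rw [mem_ball, dist_eq_norm] at hw1 ⊢
      rwa [add_sub_add_right_eq_sub]
    · simpa using hw2
  refine ⟨r, hr, fun w => L (w + c), hL.comp (by fun_prop) key, fun w hw => ?_⟩
  rw [hgL _ (key w hw)]
  ring

/-- `X` is a surface whose charts are local inverses of a map `π : ℂ → Y`, composed with an open
embedding `j : X → Y`. -/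
structure IsDev (X : Type) [TopologicalSpace X] [ChartedSpace ℂ X] {Y : Type} [TopologicalSpace Y]
    (j : X → Y) (π : ℂ → Y) (Γ : AddSubgroup ℂ) : Prop where
  chart : ∀ c ∈ atlas ℂ X, ∀ x ∈ c.source, π (c x) = j x
  sub_mem : ∀ z w, π z = π w ↔ z - w ∈ Γ
  discr : ∀ γ ∈ Γ, ‖γ‖ < 1 → γ = 0
  emb : IsOpenEmbedding j
  cont : Continuous π

variable {X : Type} [TopologicalSpace X] [ChartedSpace ℂ X] {Y : Type} [TopologicalSpace Y]
  {j : X → Y} {π : ℂ → Y} {Γ : AddSubgroup ℂ}

lemma mem_orientGroupoid {F : OpenPartialHomeomorph ℂ ℂ} (h : ∀ z ∈ F.source, PosAt F z) :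
    F ∈ orientGroupoid := by
  refine ⟨⟨F.continuousOn, h⟩, ⟨F.continuousOn_symm, ?_⟩⟩
  intro w hw
  have h1 := h _ (F.map_target hw)
  have h2 : F (F.symm w) = w := F.right_inv hw
  have h3 : PosAt F.symm (F (F.symm w)) := by
    refine h1.inv ?_ ?_ ?_
    · rw [h2]
      filter_upwards [F.open_target.mem_nhds hw] with y hy using F.right_inv hy
    · rw [h2]
    · rw [h2]
      filter_upwards [F.open_target.mem_nhds hw] with y hy using
        F.continuousOn_symm.continuousAt (F.open_target.mem_nhds hy)
  rwa [h2] at h3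

lemma IsDev.hasGroupoid (D : IsDev X j π Γ) : HasGroupoid X orientGroupoid where
  compatible := by
    intro c c' hc hc'
    apply mem_orientGroupoid
    intro z hz
    have hF : ContinuousAt (c.symm ≫ₕ c') z :=
      (c.symm ≫ₕ c').continuousOn.continuousAt ((c.symm ≫ₕ c').open_source.mem_nhds hz)
    have h : ∀ᶠ x in 𝓝 z, (c.symm ≫ₕ c') x - x ∈ Γ := by
      filter_upwards [(c.symm ≫ₕ c').open_source.mem_nhds hz] with x hx
      rw [OpenPartialHomeomorph.trans_source] at hx
      rw [← D.sub_mem]
      have h1 : π (c' (c.symm x)) = j (c.symm x) := D.chart c' hc' _ hx.2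
      have h2 : π (c (c.symm x)) = j (c.symm x) := D.chart c hc _ (c.map_target hx.1)
      rw [c.right_inv hx.1] at h2
      rw [h2]
      exact h1
    have := eventually_eq_add D.discr hF continuousAt_id h
    exact (posAt_add_const _ (PosAt.id z)).congr this

lemma IsDev.mem_homeoPos [HasGroupoid X orientGroupoid] (D : IsDev X j π Γ) (h : X ≃ₜ X)
    (g : ℂ → ℂ) (hg : ∀ z x, π z = j x → ContinuousAt g z)
    (hl : ∀ z x, π z = j x → π (g z) = j (h x)) :
    h ∈ HomeoPos X ↔ ∀ z x, π z = j x → PosAt g z := by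
  have hU : IsOpen (π ⁻¹' range j) := D.emb.isOpen_range.preimage D.cont
  constructor
  · intro hh z x hzx
    set c := chartAt ℂ x with hc
    set c' := chartAt ℂ (h x) with hc'
    have hcx : π (c x) = j x := D.chart c (chart_mem_atlas ℂ x) x (mem_chart_source ℂ x)
    have hF := (hh c c' (chart_mem_atlas ℂ x) (chart_mem_atlas ℂ (h x))).1
    set F := c.symm ≫ₕ h.toOpenPartialHomeomorph ≫ₕ c' with hFdef
    have hsrc : c x ∈ F.source := by
      simp [hFdef, OpenPartialHomeomorph.trans_source, c.left_inv (mem_chart_source ℂ x),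
        c.map_source (mem_chart_source ℂ x), hc', hc]
    have hFx : PosAt F (c x) := hF.2 _ hsrc
    have hFc : ContinuousAt F (c x) :=
      F.continuousOn.continuousAt (F.open_source.mem_nhds hsrc)
    have hγ : c x - z ∈ Γ := by
      rw [← D.sub_mem, hcx, hzx]
    -- `F w - g (w - γ) ∈ Γ` near `c x`
    have hper : ∀ w, π (w - (c x - z)) = π w := by
      intro w
      rw [D.sub_mem]
      simpa using Γ.neg_mem hγ
    have hpos : ∀ᶠ w in 𝓝 (c x), F w - g (w - (c x - z)) ∈ Γ := by
      filter_upwards [F.open_source.mem_nhds hsrc] with w hw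
      have hw' := hw
      simp only [hFdef, OpenPartialHomeomorph.trans_source, Homeomorph.toOpenPartialHomeomorph_source,
        preimage_univ, inter_univ, univ_inter, OpenPartialHomeomorph.symm_source, mem_inter_iff,
        mem_preimage] at hw'
      have hwt : w ∈ c.target := hw'.1
      have h1 : π w = j (c.symm w) := by
        have := D.chart c (chart_mem_atlas ℂ x) _ (c.map_target hwt)
        rwa [c.right_inv hwt] at this
      have h2 : π (g (w - (c x - z))) = j (h (c.symm w)) := hl _ _ (by rw [hper, h1])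
      have h3 : π (F w) = j (h (c.symm w)) :=
        D.chart c' (chart_mem_atlas ℂ (h x)) _ hw'.2
      rw [← D.sub_mem, h2, h3]
    have hgc : ContinuousAt (fun w => g (w - (c x - z))) (c x) := by
      refine ContinuousAt.comp (f := fun w => w - (c x - z)) ?_ (by fun_prop)
      have : c x - (c x - z) = z := by ring
      rw [this]
      exact hg z x hzx
    have hev := eventually_eq_add D.discr hFc hgc hpos
    -- hence `g` agrees near `z` with a translate of `F`
    have h4 : PosAt (fun w => g (w - (c x - z))) (c x) := by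
      have := posAt_add_const (-(F (c x) - g (c x - (c x - z)))) hFx
      refine this.congr ?_
      filter_upwards [hev] with w hw
      rw [hw]
      ring
    have h5 := posAt_comp_add (g := fun w => g (w - (c x - z))) (z := z) (c x - z)
      (by convert h4 using 1; ring)
    simpa using h5
  · intro hpos c c' hc hc'
    apply mem_orientGroupoid
    intro z hz
    set F := c.symm ≫ₕ h.toOpenPartialHomeomorph ≫ₕ c' with hFdef
    have hz' := hz
    simp only [hFdef, OpenPartialHomeomorph.trans_source, Homeomorph.toOpenPartialHomeomorph_source,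
      preimage_univ, inter_univ, univ_inter, OpenPartialHomeomorph.symm_source, mem_inter_iff,
      mem_preimage] at hz'
    have hlift : ∀ w ∈ F.source, π w = j (c.symm w) ∧ π (F w) = j (h (c.symm w)) := by
      intro w hw
      have hw' := hw
      simp only [hFdef, OpenPartialHomeomorph.trans_source,
        Homeomorph.toOpenPartialHomeomorph_source,
        preimage_univ, inter_univ, univ_inter, OpenPartialHomeomorph.symm_source, mem_inter_iff,
        mem_preimage] at hw'
      refine ⟨?_, D.chart c' hc' _ hw'.2⟩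
      have := D.chart c hc _ (c.map_target hw'.1)
      rwa [c.right_inv hw'.1] at this
    have hFc : ContinuousAt F z := F.continuousOn.continuousAt (F.open_source.mem_nhds hz)
    have hev := eventually_eq_add D.discr hFc (hg z _ (hlift z hz).1) (by
      filter_upwards [F.open_source.mem_nhds hz] with w hw
      rw [← D.sub_mem, (hlift w hw).2, hl w _ (hlift w hw).1])
    exact (posAt_add_const _ (hpos z _ (hlift z hz).1)).congr hev

end Pool.Agent.H70.Dev
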