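import Mathlib
import Pool.Agent.H70.MapDefs
import Pool.Agent.H70.Dev

open Complex Metric Set TopologicalSpace Topology Manifold
open Pool.Agent.H70.MapDefs Pool.Agent.H70.Dev

namespace Pool.Agent.H70.Torus

/-- The lattice `ℤ + iℤ`. -/
def Lam : AddSubgroup ℂ where
  carrier := {z | ∃ m n : ℤ, z = m + n * I}
  add_mem' := by
    rintro a b ⟨m, n, rfl⟩ ⟨m', n', rfl⟩
    exact ⟨m + m', n + n', by push_cast; ring⟩
  zero_mem' := ⟨0, 0, by simp⟩
  neg_mem' := by
    rintro a ⟨m, n, rfl⟩
    exact ⟨-m, -n, by push_cast; ring⟩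

lemma mem_Lam {z : ℂ} : z ∈ Lam ↔ ∃ m n : ℤ, z = m + n * I := Iff.rfl

lemma eq_zero_of_norm_lt {z : ℂ} (hz : z ∈ Lam) (h : ‖z‖ < 1) : z = 0 := by
  obtain ⟨m, n, rfl⟩ := hz
  have h1 := (abs_re_le_norm ((m : ℂ) + n * I)).trans_lt h
  have h2 := (abs_im_le_norm ((m : ℂ) + n * I)).trans_lt h
  simp only [add_re, intCast_re, mul_re, I_re, mul_zero, intCast_im, I_im, mul_one, sub_self,
    add_zero] at h1
  simp only [add_im, intCast_im, mul_im, I_re, mul_zero, intCast_re, I_im, mul_one,
    zero_add, add_zero] at h2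
  have h1' : m = 0 := by
    have : |m| < 1 := by exact_mod_cast h1
    exact Int.abs_lt_one_iff.1 this
  have h2' : n = 0 := by
    have : |n| < 1 := by exact_mod_cast h2
    exact Int.abs_lt_one_iff.1 this
  simp [h1', h2']

instance : DiscreteTopology Lam := by
  apply discreteTopology_of_isOpen_singleton_zero
  have : ({0} : Set Lam) = Subtype.val ⁻¹' (ball (0 : ℂ) 1) := by
    ext x
    simp only [mem_singleton_iff, mem_preimage, mem_ball, dist_zero_right]
    constructor
    · rintro rfl
      simp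
    · intro h
      exact Subtype.ext (eq_zero_of_norm_lt x.2 h)
  rw [this]
  exact isOpen_ball.preimage continuous_subtype_val

instance : IsClosed (Lam : Set ℂ) := AddSubgroup.isClosed_of_discrete

instance : Countable Lam := by
  have : (Lam : Set ℂ) ⊆ range (fun p : ℤ × ℤ => (p.1 : ℂ) + p.2 * I) := by
    rintro z ⟨m, n, rfl⟩
    exact ⟨(m, n), rfl⟩
  exact ((countable_range _).mono this).to_subtype

/-- The torus. -/
abbrev T : Type := ℂ ⧸ Lam

/-- The covering projection. -/
def P : ℂ → T := QuotientAddGroup.mk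

lemma P_eq_iff (z w : ℂ) : P z = P w ↔ z - w ∈ Lam := by
  unfold P
  rw [eq_comm, QuotientAddGroup.eq, neg_add_eq_sub]

lemma cov : IsCoveringMap P :=
  (Lam.isAddQuotientCoveringMap_of_comm
    ⟨inferInstanceAs (DiscreteTopology Lam)⟩).isCoveringMap

lemma P_surj : Function.Surjective P := QuotientAddGroup.mk_surjective

lemma P_cont : Continuous P := cov.continuous

lemma P_open : IsOpenMap P := cov.isOpenMap

noncomputable instance : ChartedSpace ℂ T := cov.isLocalHomeomorph.chartedSpace P_surj

lemma chart_T (c : OpenPartialHomeomorph T ℂ) (hc : c ∈ atlas ℂ T) (x : T) (hx : x ∈ c.source) :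
    P (c x) = x := by
  obtain ⟨q, rfl⟩ := hc
  simp only [chartAt_self_eq, OpenPartialHomeomorph.trans_refl] at hx ⊢
  set e := cov.isLocalHomeomorph.localInverseAt
    (P_surj.hasRightInverse.choose q) with he
  have h1 : (e.symm : ℂ → T) = P := cov.isLocalHomeomorph.localInverseAt_symm _
  have h2 := e.left_inv hx
  have h3 : P (e x) = e.symm (e x) := by rw [h1]
  rw [h3, h2]

lemma dev_T : IsDev T (fun x => x) P Lam where
  chart := chart_T
  sub_mem := P_eq_iff
  discr := fun _ h h' => eq_zero_of_norm_lt h h'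
  emb := IsOpenEmbedding.id
  cont := P_cont

noncomputable instance : HasGroupoid T orientGroupoid := dev_T.hasGroupoid

/-- A closed countable set `E` of the torus gives surfaces. -/
lemma dev_opens (U : Opens T) : IsDev U (fun x => (x : T)) P Lam where
  chart := by
    intro c hc x hx
    obtain ⟨y, rfl⟩ := Opens.chart_eq ⟨x⟩ hc
    simp only [OpenPartialHomeomorph.subtypeRestr_coe, domRestrict_apply] at hx ⊢
    apply chart_T _ (chart_mem_atlas ℂ _)
    simpa using hx
  sub_mem := P_eq_iff
  discr := fun _ h h' => eq_zero_of_norm_lt h h'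
  emb := U.isOpenEmbedding'
  cont := P_cont

lemma dev_opens_C (U : Opens ℂ) : IsDev U (fun x => (x : ℂ)) (fun z => z) ⊥ where
  chart := by
    intro c hc x hx
    obtain ⟨y, rfl⟩ := Opens.chart_eq ⟨x⟩ hc
    simp
  sub_mem := by
    intro z w
    rw [AddSubgroup.mem_bot, sub_eq_zero]
  discr := fun _ h _ => by simpa using h
  emb := U.isOpenEmbedding'
  cont := continuous_id

end Pool.Agent.H70.Torus
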