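import Mathlib
import Pool.Agent.H70.Torus

open Complex Metric Set TopologicalSpace Topology Manifold Filter
open Pool.Agent.H70.MapDefs Pool.Agent.H70.Dev Pool.Agent.H70.Torus

namespace Pool.Agent.H70.Surf

/-- The real numbers `1/(n+2)`. -/
noncomputable def ar (n : ℕ) : ℝ := ((n : ℝ) + 2)⁻¹

/-- The punctures in the fundamental domain. -/
noncomputable def a (n : ℕ) : ℂ := ((ar n : ℝ) : ℂ)

lemma ar_pos (n : ℕ) : 0 < ar n := by unfold ar; positivity

lemma ar_le (n : ℕ) : ar n ≤ 1 / 2 := by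
  unfold ar
  rw [one_div]
  apply inv_anti₀ (by norm_num)
  have : (0 : ℝ) ≤ n := Nat.cast_nonneg n
  linarith

lemma ar_inj : Function.Injective ar := by
  intro m n h
  unfold ar at h
  have := inv_injective h
  have h2 : (m : ℝ) = n := by linarith
  exact_mod_cast h2

lemma a_tendsto : Tendsto a atTop (𝓝 0) := by
  have h : Tendsto ar atTop (𝓝 0) := by
    have h1 : Tendsto (fun n : ℕ => (n : ℝ) + 2) atTop atTop :=
      tendsto_atTop_add_const_right _ _ tendsto_natCast_atTop_atTop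
    exact h1.inv_tendsto_atTop
  have := (continuous_ofReal.tendsto 0).comp h
  simpa [a] using! this

/-- `A = {0} ∪ {a n}`. -/
def A : Set ℂ := insert 0 (range a)

/-- `A ∖ {a n}`. -/
def An (n : ℕ) : Set ℂ := insert 0 (range fun m => if m = n then 0 else a m)

lemma isCompact_A : IsCompact A := a_tendsto.isCompact_insert_range

lemma isCompact_An (n : ℕ) : IsCompact (An n) := by
  apply Tendsto.isCompact_insert_range
  refine a_tendsto.congr' ?_
  filter_upwards [eventually_gt_atTop n] with m hm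
  rw [if_neg hm.ne']

lemma A_eq (n : ℕ) : A = insert (a n) (An n) := by
  ext z
  simp only [A, An, mem_insert_iff, mem_range]
  constructor
  · rintro (rfl | ⟨m, rfl⟩)
    · right; left; rfl
    · by_cases h : m = n
      · left; rw [h]
      · right; right; exact ⟨m, by rw [if_neg h]⟩
  · rintro (rfl | rfl | ⟨m, rfl⟩)
    · right; exact ⟨n, rfl⟩
    · left; rfl
    · by_cases h : m = n
      · left; rw [if_pos h]
      · right; exact ⟨m, by rw [if_neg h]⟩

lemma mem_A_real {z : ℂ} (hz : z ∈ A) : ∃ x : ℝ, 0 ≤ x ∧ x ≤ 1 / 2 ∧ z = x := by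
  rcases hz with rfl | ⟨n, rfl⟩
  · exact ⟨0, le_refl _, by norm_num, by simp⟩
  · exact ⟨ar n, (ar_pos n).le, ar_le n, rfl⟩

/-- Distinct points of `A` are not equivalent modulo the lattice. -/
lemma A_inj {z w : ℂ} (hz : z ∈ A) (hw : w ∈ A) (h : z - w ∈ Lam) : z = w := by
  obtain ⟨x, hx0, hx1, rfl⟩ := mem_A_real hz
  obtain ⟨y, hy0, hy1, rfl⟩ := mem_A_real hw
  have h1 : ‖((x : ℂ) - y)‖ < 1 := by
    rw [← ofReal_sub, norm_real, Real.norm_eq_abs, abs_lt]
    constructor <;> linarith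
  exact sub_eq_zero.1 (eq_zero_of_norm_lt h h1)

lemma an_notMem (n : ℕ) : a n ∉ An n := by
  rintro (h | ⟨m, hm⟩)
  · exact (ar_pos n).ne' (ofReal_eq_zero.1 h)
  · simp only at hm
    split_ifs at hm with h
    · exact (ar_pos n).ne' (ofReal_eq_zero.1 hm.symm)
    · exact h (ar_inj (ofReal_injective hm))

lemma An_subset (n : ℕ) : An n ⊆ A := by
  rw [A_eq n]
  exact subset_insert _ _

/-- The closed countable set of ends of the surface `S` in the torus. -/
def E : Set T := P '' A

lemma isClosed_E : IsClosed E := (isCompact_A.image P_cont).isClosed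

lemma isClosed_En (n : ℕ) : IsClosed (P '' An n) := ((isCompact_An n).image P_cont).isClosed

lemma E_diff (n : ℕ) : E \ {P (a n)} = P '' An n := by
  ext x
  constructor
  · rintro ⟨⟨z, hz, rfl⟩, hx⟩
    rw [A_eq n] at hz
    rcases hz with rfl | hz
    · exact absurd rfl hx
    · exact ⟨z, hz, rfl⟩
  · rintro ⟨z, hz, rfl⟩
    refine ⟨⟨z, An_subset n hz, rfl⟩, ?_⟩
    intro h
    rw [mem_singleton_iff, P_eq_iff] at h
    have := A_inj (An_subset n hz) (by rw [A_eq n]; exact mem_insert _ _) h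
    exact an_notMem n (this ▸ hz)

lemma a_mem (n : ℕ) : a n ∈ A := by right; exact ⟨n, rfl⟩

lemma a_ne_zero (n : ℕ) : a n ≠ 0 := by
  intro h
  exact (ar_pos n).ne' (ofReal_eq_zero.1 h)

/-- `P 0` is not isolated in `E`. -/
lemma not_isClosed_E0 : ¬ IsClosed (E \ {P 0}) := by
  intro h
  have h1 : Tendsto (fun n => P (a n)) atTop (𝓝 (P 0)) := (P_cont.tendsto 0).comp a_tendsto
  have h2 : P 0 ∈ E \ {P 0} := by
    refine h.mem_of_tendsto h1 (Eventually.of_forall fun n => ⟨⟨a n, a_mem n, rfl⟩, ?_⟩)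
    intro h'
    rw [mem_singleton_iff, P_eq_iff] at h'
    exact a_ne_zero n (A_inj (a_mem n) (mem_insert _ _) h')
  exact h2.2 rfl

/-- The lifted set of ends. -/
def Et : Set ℂ := P ⁻¹' E

lemma isClosed_Et : IsClosed Et := isClosed_E.preimage P_cont

lemma mem_Et {z : ℂ} : z ∈ Et ↔ ∃ w ∈ A, z - w ∈ Lam := by
  constructor
  · rintro ⟨w, hw, h⟩
    exact ⟨w, hw, by rw [← P_eq_iff, h]⟩
  · rintro ⟨w, hw, h⟩
    exact ⟨w, hw, by rw [eq_comm, P_eq_iff]; exact h⟩

lemma countable_A : A.Countable := (countable_range a).insert 0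

lemma countable_Et : Et.Countable := by
  have : Et ⊆ ⋃ l : Lam, (fun w => w + (l : ℂ)) '' A := by
    intro z hz
    obtain ⟨w, hw, h⟩ := mem_Et.1 hz
    rw [mem_iUnion]
    exact ⟨⟨z - w, h⟩, w, hw, by simp⟩
  exact (countable_iUnion fun l => countable_A.image _).mono this

/-- `a n + l` is an isolated point of `Et`. -/
lemma isolated (n : ℕ) (l : ℂ) (hl : l ∈ Lam) : ∀ᶠ z in 𝓝[≠] (a n + l), z ∉ Et := by
  have h1 : (P ⁻¹' (P '' An n))ᶜ ∈ 𝓝 (a n + l) := by
    apply ((isClosed_En n).preimage P_cont).isOpen_compl.mem_nhds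
    rw [← E_diff n]
    rintro ⟨-, h⟩
    apply h
    rw [mem_singleton_iff, P_eq_iff]
    simpa using hl
  have h2 : ball (a n + l) 1 ∈ 𝓝 (a n + l) := ball_mem_nhds _ one_pos
  filter_upwards [mem_nhdsWithin_of_mem_nhds h1, mem_nhdsWithin_of_mem_nhds h2,
    self_mem_nhdsWithin] with z hz1 hz2 hz3 hz
  have hzE : P z ∈ E \ {P (a n)} := by
    refine ⟨hz, ?_⟩
    intro h
    rw [mem_singleton_iff, P_eq_iff] at h
    have h4 : z - (a n + l) ∈ Lam := by
      have := Lam.sub_mem h hl
      convert this using 1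
      ring
    have h5 := eq_zero_of_norm_lt h4 (by rwa [mem_ball, dist_eq_norm] at hz2)
    exact hz3 (sub_eq_zero.1 h5)
  rw [E_diff n] at hzE
  exact hz1 hzE

/-- The genus one surface of infinite type `S = T ∖ E`. -/
def S : Opens T := ⟨Eᶜ, isClosed_E.isOpen_compl⟩

/-- The planar surface of infinite type `S' = ℂ ∖ P⁻¹(E)`. -/
def S' : Opens ℂ := ⟨Etᶜ, isClosed_Et.isOpen_compl⟩

lemma mem_S {x : T} : x ∈ S ↔ x ∉ E := Iff.rfl

lemma mem_S' {z : ℂ} : z ∈ S' ↔ P z ∈ S := Iff.rfl

lemma dense_Etc : Dense Etᶜ := countable_Et.dense_compl ℝ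

lemma isPathConnected_Etc : IsPathConnected Etᶜ :=
  countable_Et.isPathConnected_compl_of_one_lt_rank (by simp)

instance : PathConnectedSpace S' := isPathConnected_iff_pathConnectedSpace.1 isPathConnected_Etc

/-- The covering `S' → S`. -/
def q (z : S') : S := ⟨P z, z.2⟩

lemma q_surj : Function.Surjective q := by
  rintro ⟨x, hx⟩
  obtain ⟨z, rfl⟩ := P_surj x
  exact ⟨⟨z, hx⟩, rfl⟩

lemma q_cont : Continuous q := (P_cont.comp continuous_subtype_val).subtype_mk _

instance : PathConnectedSpace S := q_surj.pathConnectedSpace q_cont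

lemma dense_S : Dense (S : Set T) := by
  intro x
  obtain ⟨z, rfl⟩ := P_surj x
  have h1 : z ∈ closure Etᶜ := dense_Etc z
  have h2 : P z ∈ closure (P '' Etᶜ) :=
    image_closure_subset_closure_image P_cont ⟨z, h1, rfl⟩
  refine closure_mono ?_ h2
  rintro _ ⟨w, hw, rfl⟩
  exact hw

/-- A disc minus a countable set is connected. -/
lemma isPreconnected_ball_diff (c : ℂ) {r : ℝ} (hr : 0 < r) {C : Set ℂ} (hC : C.Countable) :
    IsPreconnected (ball c r \ C) := by
  set φ := OpenPartialHomeomorph.univBall c r with hφ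
  have h1 : φ.source = univ := OpenPartialHomeomorph.univBall_source c r
  have h2 : φ.target = ball c r := OpenPartialHomeomorph.univBall_target c hr
  have hinj : Function.Injective φ := by
    rw [← injOn_univ, ← h1]
    exact φ.injOn
  have hcont : Continuous φ := OpenPartialHomeomorph.continuous_univBall c r
  have h3 : ball c r \ C = φ '' (φ ⁻¹' C)ᶜ := by
    ext x
    constructor
    · rintro ⟨hx, hxC⟩
      rw [← h2] at hx
      refine ⟨φ.symm x, ?_, φ.right_inv hx⟩
      simpa [φ.right_inv hx] using hxC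
    · rintro ⟨y, hy, rfl⟩
      refine ⟨?_, hy⟩
      rw [← h2]
      exact φ.map_source (by rw [h1]; trivial)
  rw [h3]
  have h4 : (φ ⁻¹' C).Countable := hC.preimage hinj
  exact (h4.isConnected_compl_of_one_lt_rank (by simp)).isPreconnected.image _ hcont.continuousOn

end Pool.Agent.H70.Surf
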