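import Mathlib
import Pool.Agent.H70.Surf

open Complex Metric Set TopologicalSpace Topology Manifold Filter
open Pool.Agent.H70.MapDefs Pool.Agent.H70.Dev Pool.Agent.H70.Torus Pool.Agent.H70.Surf

namespace Pool.Agent.H70.Ext

instance : CompactSpace T := by
  constructor
  have h : (univ : Set T) = P '' (closedBall 0 2) := by
    apply Subset.antisymm _ (subset_univ _)
    intro x _
    obtain ⟨z, rfl⟩ := P_surj x
    refine ⟨z - (⌊z.re⌋ + ⌊z.im⌋ * I), ?_, ?_⟩
    · rw [mem_closedBall, dist_zero_right]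
      have e : z - (⌊z.re⌋ + ⌊z.im⌋ * I) = (Int.fract z.re : ℝ) + (Int.fract z.im : ℝ) * I := by
        apply Complex.ext
        · simp only [sub_re, add_re, intCast_re, mul_re, I_re, mul_zero, intCast_im, I_im,
            mul_one, sub_self, add_zero, ofReal_re, ofReal_im]
          rfl
        · simp only [sub_im, add_im, intCast_im, mul_im, I_re, mul_zero, intCast_re, I_im,
            mul_one, zero_add, add_zero, ofReal_re, ofReal_im]
          rfl
      rw [e]
      refine (norm_add_le _ _).trans ?_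
      rw [norm_mul, norm_I, mul_one, norm_real, norm_real, Real.norm_of_nonneg (Int.fract_nonneg _),
        Real.norm_of_nonneg (Int.fract_nonneg _)]
      have h1 := Int.fract_lt_one z.re
      have h2 := Int.fract_lt_one z.im
      linarith
    · rw [P_eq_iff]
      have : z - (⌊z.re⌋ + ⌊z.im⌋ * I) - z = -((⌊z.re⌋ : ℂ) + ⌊z.im⌋ * I) := by ring
      rw [this]
      exact Lam.neg_mem ⟨_, _, rfl⟩
  rw [h]
  exact (isCompact_closedBall _ _).image P_cont

/-- Extension of a self-map of `S` to `T` by the identity (not continuous in general). -/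
noncomputable def h0 (h : S → S) (y : T) : T := by
  classical
  exact if hy : y ∈ S then (h ⟨y, hy⟩ : T) else y

lemma h0_coe (h : S → S) (x : S) : h0 h x = h x := by
  unfold h0
  rw [dif_pos x.2]

lemma h0_mem {h : S → S} {y : T} (hy : y ∈ S) : h0 h y ∈ S := by
  unfold h0
  rw [dif_pos hy]
  exact (h ⟨y, hy⟩).2

lemma nhdsWithin_neBot (e : T) : (𝓝[(S : Set T)] e).NeBot :=
  mem_closure_iff_nhdsWithin_neBot.1 (dense_S e)

/-- A homeomorphism of `S` has a limit in `E` at each point of `E`. -/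
lemma ext_limit (h : S ≃ₜ S) (e : T) (he : e ∈ E) :
    ∃ e' ∈ E, Tendsto (h0 h) (𝓝[(S : Set T)] e) (𝓝 e') := by
  have := nhdsWithin_neBot e
  obtain ⟨e', he'⟩ := exists_clusterPt_of_compactSpace (map (h0 h) (𝓝[(S : Set T)] e))
  have hmem : e' ∈ E := by
    by_contra hS
    have hS' : e' ∈ S := hS
    set x₀ : S := h.symm ⟨e', hS'⟩ with hx₀
    have hne : (x₀ : T) ≠ e := by
      intro h1
      exact x₀.2 (h1 ▸ he)
    obtain ⟨u, v, hu, hv, hxu, hev, huv⟩ := t2_separation hne
    -- image of `u ∩ S` is a neighbourhood of `e'`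
    have h1 : (Subtype.val '' (h '' (Subtype.val ⁻¹' u))) ∈ 𝓝 e' := by
      have h2 : IsOpen (Subtype.val '' (h '' (Subtype.val ⁻¹' u : Set S)) : Set T) := by
        apply S.isOpenEmbedding'.isOpenMap
        apply h.isOpenMap
        exact hu.preimage continuous_subtype_val
      refine h2.mem_nhds ⟨⟨e', hS'⟩, ⟨x₀, hxu, ?_⟩, rfl⟩
      rw [hx₀, h.apply_symm_apply]
    have h3 : (h0 h) '' (v ∩ S) ∈ map (h0 h) (𝓝[(S : Set T)] e) :=
      image_mem_map (inter_mem (mem_nhdsWithin_of_mem_nhds (hv.mem_nhds hev)) self_mem_nhdsWithin)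
    obtain ⟨y, hy1, hy2⟩ := (clusterPt_iff_nonempty.1 he') h1 h3
    obtain ⟨_, ⟨x, hx, rfl⟩, rfl⟩ := hy1
    obtain ⟨w, ⟨hwv, hwS⟩, hw⟩ := hy2
    have h4 : h ⟨w, hwS⟩ = h x := by
      apply Subtype.ext
      rw [← hw]
      exact (h0_coe h ⟨w, hwS⟩).symm
    have h5 : (⟨w, hwS⟩ : S) = x := h.injective h4
    have h6 : w = (x : T) := congrArg Subtype.val h5
    exact (disjoint_left.1 huv) hx (h6 ▸ hwv)
  refine ⟨e', hmem, ?_⟩
  obtain ⟨z', rfl⟩ := P_surj e'
  obtain ⟨z, rfl⟩ := P_surj e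
  have hcl := clusterPt_iff_nonempty.1 he'
  intro O hO
  rw [mem_map]
  -- choose a radius `r` with `P (closedBall z' r) ⊆ O` and `sphere z' r ∩ Et = ∅`
  have hO' : P ⁻¹' O ∈ 𝓝 z' := P_cont.continuousAt hO
  obtain ⟨ε, hε, hεO⟩ := Metric.nhds_basis_closedBall.mem_iff.1 hO'
  have hcount : ((fun w => dist w z') '' Et).Countable := countable_Et.image _
  obtain ⟨r, hr, hr'⟩ : ∃ r ∈ Ioo 0 ε, r ∉ ((fun w => dist w z') '' Et) := by
    by_contra hcon
    push Not at hcon
    have h1 : Ioo 0 ε ⊆ ((fun w => dist w z') '' Et) := hcon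
    exact (Cardinal.Real.Ioo_countable_iff.1 (hcount.mono h1)).not_gt hε
  have hD : IsCompact (P '' sphere z' r) := (isCompact_sphere _ _).image P_cont
  have hDS : P '' sphere z' r ⊆ S := by
    rintro _ ⟨w, hw, rfl⟩ hwE
    exact hr' ⟨w, hwE, hw⟩
  -- the preimage of `D` is compact in `S`
  have hK : IsCompact (Subtype.val '' (h ⁻¹' (Subtype.val ⁻¹' (P '' sphere z' r))) : Set T) := by
    apply IsCompact.image _ continuous_subtype_val
    rw [← h.image_symm]
    apply IsCompact.image _ h.symm.continuous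
    apply S.isOpenEmbedding'.isInducing.isCompact_preimage' hD
    rw [Subtype.range_coe]
    exact hDS
  have hPz : P z ∈ (Subtype.val '' (h ⁻¹' (Subtype.val ⁻¹' (P '' sphere z' r))) : Set T)ᶜ := by
    rintro ⟨x, -, hx⟩
    exact x.2 (hx ▸ he)
  have hnb : P ⁻¹' (Subtype.val '' (h ⁻¹' (Subtype.val ⁻¹' (P '' sphere z' r))) : Set T)ᶜ ∈ 𝓝 z :=
    P_cont.continuousAt (hK.isClosed.isOpen_compl.mem_nhds hPz)
  obtain ⟨δ, hδ, hδ'⟩ := Metric.nhds_basis_ball.mem_iff.1 hnb
  -- the connected punctured neighbourhood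
  set B : Set T := P '' (ball z δ \ Et) with hB
  have hBconn : IsPreconnected B :=
    (isPreconnected_ball_diff z hδ countable_Et).image _ P_cont.continuousOn
  have hBS : B ⊆ S := by
    rintro _ ⟨w, hw, rfl⟩
    exact hw.2
  have hBmem : B ∈ 𝓝[(S : Set T)] (P z) := by
    have h1 : P '' ball z δ ∈ 𝓝 (P z) := (P_open _ isOpen_ball).mem_nhds ⟨z, mem_ball_self hδ, rfl⟩
    filter_upwards [mem_nhdsWithin_of_mem_nhds h1, self_mem_nhdsWithin] with y hy hyS
    obtain ⟨w, hw, rfl⟩ := hy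
    exact ⟨w, ⟨hw, hyS⟩, rfl⟩
  have hBc : ContinuousOn (h0 h) B := by
    rw [continuousOn_iff_continuous_domRestrict]
    have : (fun x : B => h0 h x) = fun x : B => ((h ⟨x, hBS x.2⟩ : S) : T) := by
      funext x
      exact h0_coe h ⟨x, hBS x.2⟩
    show Continuous (fun x : B => h0 h x)
    rw [this]
    fun_prop
  have hBconn' : IsPreconnected (h0 h '' B) := hBconn.image _ hBc
  have hdisj : ∀ y ∈ h0 h '' B, y ∉ P '' sphere z' r := by
    rintro _ ⟨y, hy, rfl⟩ hy'
    obtain ⟨w, hw, rfl⟩ := hy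
    have h1 := hδ' hw.1
    apply h1
    refine ⟨⟨P w, hw.2⟩, ?_, rfl⟩
    rw [mem_preimage, mem_preimage]
    have := h0_coe h ⟨P w, hw.2⟩
    rwa [← this]
  have hsub : h0 h '' B ⊆ P '' ball z' r := by
    refine hBconn'.subset_left_of_subset_union (v := (P '' closedBall z' r)ᶜ)
      (P_open _ isOpen_ball) ((isCompact_closedBall _ _).image P_cont).isClosed.isOpen_compl
      ?_ ?_ ?_
    · rw [disjoint_compl_right_iff_subset]
      exact image_mono ball_subset_closedBall
    · intro y hy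
      by_cases hy' : y ∈ P '' closedBall z' r
      · left
        obtain ⟨w, hw, rfl⟩ := hy'
        refine ⟨w, ?_, rfl⟩
        rw [mem_ball]
        refine lt_of_le_of_ne hw ?_
        intro h1
        exact hdisj _ hy ⟨w, h1, rfl⟩
      · right
        exact hy'
    · have h1 : P '' ball z' r ∈ 𝓝 (P z') :=
        (P_open _ isOpen_ball).mem_nhds ⟨z', mem_ball_self hr.1, rfl⟩
      have h2 : h0 h '' B ∈ map (h0 h) (𝓝[(S : Set T)] (P z)) := image_mem_map hBmem
      have := hcl h1 h2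
      rwa [inter_comm] at this
  filter_upwards [hBmem] with y hy
  have h1 : h0 h y ∈ P '' ball z' r := hsub ⟨y, hy, rfl⟩
  obtain ⟨w, hw, hw'⟩ := h1
  rw [mem_preimage, ← hw']
  apply hεO
  rw [mem_closedBall]
  exact (mem_ball.1 hw).le.trans hr.2.le

/-- Every homeomorphism of `S` extends to a continuous self-map of the torus preserving `E`. -/
lemma exists_ext (h : S ≃ₜ S) : ∃ k : T → T, Continuous k ∧ (∀ x : S, k x = h x) ∧
    ∀ e ∈ E, k e ∈ E := by
  have hc : ContinuousOn (h0 h) S := by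
    rw [continuousOn_iff_continuous_domRestrict]
    have : (fun x : S => h0 h x) = fun x : S => ((h x : S) : T) := by
      funext x
      exact h0_coe h x
    show Continuous (fun x : S => h0 h x)
    rw [this]
    fun_prop
  have hlim : ∀ x, ∃ y, Tendsto (h0 h) (𝓝[(S : Set T)] x) (𝓝 y) := by
    intro x
    by_cases hx : x ∈ E
    · obtain ⟨e', -, h'⟩ := ext_limit h x hx
      exact ⟨e', h'⟩
    · exact ⟨h0 h x, hc x hx⟩
  refine ⟨extendFrom (S : Set T) (h0 h), continuous_extendFrom dense_S hlim, ?_, ?_⟩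
  · intro x
    rw [extendFrom_extends hc x x.2]
    exact h0_coe h x
  · intro e he
    obtain ⟨e', he', h'⟩ := ext_limit h e he
    rw [extendFrom_eq (dense_S e) h']
    exact he'

end Pool.Agent.H70.Ext
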