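import Mathlib

open Complex Metric Set TopologicalSpace Topology

namespace Pool.Agent.H70.Winding

/-- Existence of a continuous logarithm on the plane. -/
lemma exists_log {A : Type*} [TopologicalSpace A] [SimplyConnectedSpace A]
    [LocallyPathConnectedSpace A] (F : A → ℂ) (hF : Continuous F) (h0 : ∀ p, F p ≠ 0) :
    ∃ L : A → ℂ, Continuous L ∧ ∀ p, exp (L p) = F p := by
  obtain ⟨a₀⟩ : Nonempty A := inferInstance
  obtain ⟨L, hL, -⟩ := isCoveringMap_exp.existsUnique_continuousMap_lifts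
    (⟨fun p => ⟨F p, h0 p⟩, hF.subtype_mk _⟩ : C(A, {z : ℂ // z ≠ 0})) a₀ (log (F a₀))
    (by ext; simp [exp_log (h0 a₀)])
  refine ⟨L, L.continuous, fun p => ?_⟩
  have := congrFun hL.2 p
  exact congrArg Subtype.val this

/-- A continuous function on a preconnected space with constant exponential is constant. -/
lemma const_of_exp {A : Type*} [TopologicalSpace A] [PreconnectedSpace A] (g : A → ℂ)
    (hg : Continuous g) (h : ∀ a a', exp (g a) = exp (g a')) (a a' : A) : g a = g a' :=
  isCoveringMap_exp.const_of_comp hg (fun a a' => Subtype.ext (h a a')) a a'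

lemma no_homotopy (F : ℝ × ℝ → ℂ) (hF : Continuous F) (h0 : ∀ p, F p ≠ 0)
    (hper : ∀ t, F (t, 2 * Real.pi) = F (t, 0)) (δ : ℂ)
    (hstart : ∀ θ : ℝ, F (0, θ) = δ * exp (θ * I)) (q : ℂ)
    (hend : ∀ θ, F (1, θ) ∈ ball q ‖q‖) : False := by
  obtain ⟨L, hL, hLF⟩ := exists_log F hF h0
  have hδ : δ ≠ 0 := by
    intro h
    apply h0 (0, 0)
    rw [hstart, h, zero_mul]
  have hq : q ≠ 0 := by
    intro h
    have := hend 0
    rw [h] at this
    simp at this
  have hD : L (0, 2 * Real.pi) - L (0, 0) = L (1, 2 * Real.pi) - L (1, 0) := by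
    refine const_of_exp (fun t : ℝ => L (t, 2 * Real.pi) - L (t, 0)) (by fun_prop) ?_ 0 1
    intro a a'
    simp only [exp_sub, hLF, hper]
    rw [div_self (h0 _), div_self (h0 _)]
  have hD0 : L (0, 2 * Real.pi) - L (0, 0) = 2 * Real.pi * I := by
    have := const_of_exp (fun θ : ℝ => L (0, θ) - θ * I) (by fun_prop) ?_ (2 * Real.pi) 0
    · simp only [ofReal_mul, ofReal_ofNat, ofReal_zero, zero_mul, sub_zero] at this
      linear_combination this
    · intro a a'
      simp only [exp_sub, hLF, hstart]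
      have h1 := exp_ne_zero (a * I)
      have h2 := exp_ne_zero (a' * I)
      field_simp
  have hslit : ∀ θ, F (1, θ) / q ∈ slitPlane := by
    intro θ
    have h1 := hend θ
    rw [mem_ball, dist_eq_norm] at h1
    have h2 : ‖F (1, θ) / q - 1‖ < 1 := by
      have : F (1, θ) / q - 1 = (F (1, θ) - q) / q := by field_simp
      rw [this, norm_div, div_lt_one (norm_pos_iff.2 hq)]
      exact h1
    rw [mem_slitPlane_iff]
    left
    have h3 := abs_re_le_norm (F (1, θ) / q - 1)
    rw [sub_re, one_re] at h3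
    have h4 := neg_abs_le ((F (1, θ) / q).re - 1)
    linarith
  have hD1 : L (1, 2 * Real.pi) - L (1, 0) = 0 := by
    have := const_of_exp (fun θ : ℝ => L (1, θ) - log (F (1, θ) / q)) ?_ ?_ (2 * Real.pi) 0
    · simp only [hper] at this
      linear_combination this
    · refine (by fun_prop : Continuous fun θ : ℝ => L (1, θ)).sub ?_
      exact Continuous.clog (by fun_prop) hslit
    · intro a a'
      simp only [exp_sub, hLF]
      rw [exp_log (slitPlane_ne_zero (hslit a)), exp_log (slitPlane_ne_zero (hslit a'))]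
      have h1 := h0 (1, a)
      have h2 := h0 (1, a')
      field_simp
  rw [hD0, hD1] at hD
  simp [Real.pi_ne_zero] at hD

/-- If `H` is a homotopy inside `W ⊆ ℂ ∖ {e}` starting at the identity and ending in a map which
near `e` agrees with a map `g` continuous at `e`, then `g e = e`. -/
lemma fixes_puncture {W : Set ℂ} (e : ℂ) (hW : W ∈ 𝓝[≠] e)
    (H : unitInterval × W → ℂ) (hH : Continuous H) (hne : ∀ p, H p ≠ e)
    (hzero : ∀ z, H (0, z) = z) (g : ℂ → ℂ) (hg : ContinuousAt g e)
    (hone : ∀ᶠ z in 𝓝[≠] e, ∀ hz : z ∈ W, H (1, ⟨z, hz⟩) = g z) : g e = e := by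
  by_contra hq
  have hq' : g e - e ≠ 0 := sub_ne_zero.2 hq
  have h1 : ∀ᶠ z in 𝓝[≠] e, g z ∈ ball (g e) ‖g e - e‖ :=
    mem_nhdsWithin_of_mem_nhds (hg (ball_mem_nhds _ (norm_pos_iff.2 hq')))
  have h2 := (h1.and hone).and hW
  obtain ⟨r, hr, hr'⟩ := Metric.mem_nhdsWithin_iff.1 h2
  have hcirc : ∀ θ : ℝ, e + (r / 2 : ℝ) * exp (θ * I) ∈ ball e r ∩ {e}ᶜ := by
    intro θ
    constructor
    · rw [mem_ball, dist_eq_norm, add_sub_cancel_left, norm_mul, norm_exp_ofReal_mul_I, mul_one,
        norm_real, Real.norm_of_nonneg (by positivity)]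
      linarith
    · simp only [mem_compl_iff, mem_singleton_iff]
      intro h
      have : (r / 2 : ℝ) * exp (θ * I) = (0 : ℂ) := by linear_combination h
      rcases mul_eq_zero.1 this with h' | h'
      · rw [ofReal_eq_zero] at h'
        linarith
      · exact exp_ne_zero _ h'
  have hmem : ∀ θ : ℝ, e + (r / 2 : ℝ) * exp (θ * I) ∈ W := fun θ => (hr' (hcirc θ)).2
  let F : ℝ × ℝ → ℂ := fun p =>
    H (projIcc 0 1 zero_le_one p.1, ⟨e + (r / 2 : ℝ) * exp (p.2 * I), hmem p.2⟩) - e
  refine no_homotopy F ?_ ?_ ?_ (r / 2 : ℝ) ?_ (g e - e) ?_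
  · refine (hH.comp (Continuous.prodMk ?_ (Continuous.subtype_mk ?_ _))).sub continuous_const
    · exact continuous_projIcc.comp continuous_fst
    · fun_prop
  · intro p
    exact sub_ne_zero.2 (hne _)
  · intro t
    simp only [F]
    congr 4
    rw [ofReal_mul, ofReal_ofNat, exp_two_pi_mul_I]
    simp
  · intro θ
    simp only [F]
    rw [show projIcc (0 : ℝ) 1 zero_le_one 0 = 0 from projIcc_left _, hzero]
    simp
  · intro θ
    simp only [F]
    rw [show projIcc (0 : ℝ) 1 zero_le_one 1 = 1 from projIcc_right _,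
      (hr' (hcirc θ)).1.2 (hmem θ)]
    have := (hr' (hcirc θ)).1.1
    rw [mem_ball, dist_eq_norm] at this ⊢
    convert this using 2
    ring

end Pool.Agent.H70.Winding
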