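import Mathlib
import Pool.Agent.H70.Ext
import Pool.Agent.H70.Winding

open Complex Metric Set TopologicalSpace Topology Manifold Filter
open Pool.Agent.H70.MapDefs Pool.Agent.H70.Dev Pool.Agent.H70.Torus Pool.Agent.H70.Surf
open Pool.Agent.H70.Ext

namespace Pool.Agent.H70.Lifts

/-- `G` is a lift of the homeomorphism `h` of `S` to the plane, fixing `0`. -/
structure IsLift (h : S ≃ₜ S) (G : ℂ → ℂ) : Prop where
  cont : Continuous G
  zero : G 0 = 0
  lift : ∀ z : S', P (G z) = h (q z)

lemma exists_lift (h : S ≃ₜ S) : ∃ G, IsLift h G := by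
  obtain ⟨k, hk, hkS, hkE⟩ := exists_ext h
  obtain ⟨k', hk', hkS', hkE'⟩ := exists_ext h.symm
  have hinv : ∀ x, k' (k x) = x := by
    have : (fun x => k' (k x)) = fun x => x := by
      apply Continuous.ext_on dense_S (hk'.comp hk) continuous_id
      intro x hx
      show k' (k x) = x
      have h1 := hkS ⟨x, hx⟩
      rw [show k x = h ⟨x, hx⟩ from h1, hkS', h.symm_apply_apply]
    intro x
    exact congrFun this x
  have hinj : Function.Injective k := Function.LeftInverse.injective hinv
  have hpre : k ⁻¹' E = E := by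
    ext x
    constructor
    · intro hx
      by_contra hxS
      have h1 := hkS ⟨x, hxS⟩
      have h2 : k x ∈ S := by
        rw [show k x = h ⟨x, hxS⟩ from h1]
        exact (h ⟨x, hxS⟩).2
      exact h2 hx
    · exact hkE x
  have hfix : k (P 0) = P 0 := by
    by_contra hne
    have h1 : k (P 0) ∈ E := hkE _ ⟨0, mem_insert _ _, rfl⟩
    obtain ⟨w, hw, hw'⟩ := h1
    rcases hw with rfl | ⟨n, rfl⟩
    · exact hne hw'.symm
    · apply not_isClosed_E0
      have h2 : IsClosed (k ⁻¹' (E \ {P (a n)})) := by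
        rw [E_diff]
        exact (isClosed_En n).preimage hk
      have h3 : k ⁻¹' (E \ {P (a n)}) = E \ {P 0} := by
        rw [preimage_sdiff, hpre, hw']
        congr 1
        ext x
        simp only [mem_preimage, mem_singleton_iff]
        exact hinj.eq_iff
      rwa [h3] at h2
  obtain ⟨G, ⟨hG0, hG⟩, -⟩ := cov.existsUnique_continuousMap_lifts
    (⟨fun z => k (P z), hk.comp P_cont⟩ : C(ℂ, T)) 0 0 (by simp [hfix])
  refine ⟨G, G.continuous, hG0, fun z => ?_⟩
  have := congrFun hG z
  simp only [Function.comp_apply, ContinuousMap.coe_mk] at this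
  rw [this]
  exact hkS (q z)

lemma IsLift.unique {h : S ≃ₜ S} {G G' : ℂ → ℂ} (hG : IsLift h G) (hG' : IsLift h G') :
    G = G' := by
  apply cov.eq_of_comp_eq hG.cont hG'.cont _ 0 (by rw [hG.zero, hG'.zero])
  apply Continuous.ext_on dense_Etc (P_cont.comp hG.cont) (P_cont.comp hG'.cont)
  intro z hz
  show P (G z) = P (G' z)
  have h1 := hG.lift ⟨z, hz⟩
  have h2 := hG'.lift ⟨z, hz⟩
  rw [h1, h2]

lemma IsLift.mapsTo {h : S ≃ₜ S} {G : ℂ → ℂ} (hG : IsLift h G) (z : S') : G z ∈ S' := by
  rw [mem_S', hG.lift z]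
  exact (h (q z)).2

lemma IsLift.one : IsLift 1 (fun z => z) where
  cont := continuous_id
  zero := rfl
  lift := fun _ => rfl

lemma IsLift.mul {h k : S ≃ₜ S} {G K : ℂ → ℂ} (hG : IsLift h G) (hK : IsLift k K) :
    IsLift (h * k) (fun z => G (K z)) where
  cont := hG.cont.comp hK.cont
  zero := by rw [hK.zero, hG.zero]
  lift := by
    intro z
    have h1 := hG.lift ⟨K z, hK.mapsTo z⟩
    have h2 : q ⟨K z, hK.mapsTo z⟩ = k (q z) := Subtype.ext (hK.lift z)
    rw [h2] at h1
    exact h1

/-- The canonical lift. -/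
noncomputable def lft (h : S ≃ₜ S) : ℂ → ℂ := (exists_lift h).choose

lemma lft_spec (h : S ≃ₜ S) : IsLift h (lft h) := (exists_lift h).choose_spec

lemma lft_one : lft 1 = fun z => z := (lft_spec 1).unique IsLift.one

lemma lft_mul (h k : S ≃ₜ S) (z : ℂ) : lft (h * k) z = lft h (lft k z) :=
  congrFun ((lft_spec (h * k)).unique ((lft_spec h).mul (lft_spec k))) z

/-- The homeomorphism of `S'` lifting `h`. -/
noncomputable def lftHomeo (h : S ≃ₜ S) : S' ≃ₜ S' where
  toFun z := ⟨lft h z, (lft_spec h).mapsTo z⟩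
  invFun z := ⟨lft h⁻¹ z, (lft_spec h⁻¹).mapsTo z⟩
  left_inv := by
    intro z
    apply Subtype.ext
    show lft h⁻¹ (lft h z) = z
    rw [← lft_mul, inv_mul_cancel, lft_one]
  right_inv := by
    intro z
    apply Subtype.ext
    show lft h (lft h⁻¹ z) = z
    rw [← lft_mul, mul_inv_cancel, lft_one]
  continuous_toFun := ((lft_spec h).cont.comp continuous_subtype_val).subtype_mk _
  continuous_invFun := ((lft_spec h⁻¹).cont.comp continuous_subtype_val).subtype_mk _

lemma lftHomeo_apply (h : S ≃ₜ S) (z : S') : (lftHomeo h z : ℂ) = lft h z := rfl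

/-- Lifting is a group homomorphism. -/
noncomputable def lftHom : (S ≃ₜ S) →* (S' ≃ₜ S') where
  toFun := lftHomeo
  map_one' := by
    ext z
    show lft 1 z = z
    rw [lft_one]
  map_mul' := by
    intro h k
    ext z
    exact lft_mul h k z

lemma lftHom_apply (h : S ≃ₜ S) (z : S') : (lftHom h z : ℂ) = lft h z := rfl

/-- Lifting preserves orientation-preserving homeomorphisms. -/
lemma lftHom_mem (h : S ≃ₜ S) (hh : h ∈ HomeoPos S) : lftHom h ∈ HomeoPos S' := by
  rw [(dev_opens_C S').mem_homeoPos (lftHom h) (lft h)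
    (fun z x _ => (lft_spec h).cont.continuousAt) (by rintro z x rfl; rfl)]
  rintro z x rfl
  have := (dev_opens S).mem_homeoPos h (lft h)
    (fun z x _ => (lft_spec h).cont.continuousAt) (by
      rintro z ⟨y, hy⟩ hzy
      subst hzy
      exact (lft_spec h).lift ⟨z, hy⟩)
  exact (this.1 hh) x (q x) rfl

/-- The lifting homomorphism on orientation-preserving homeomorphisms. -/
noncomputable def lftPos : HomeoPos S →* HomeoPos S' where
  toFun h := ⟨lftHom h, lftHom_mem h h.2⟩
  map_one' := by
    apply Subtype.ext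
    exact map_one lftHom
  map_mul' := by
    intro h k
    apply Subtype.ext
    exact map_mul lftHom (h : S ≃ₜ S) k

end Pool.Agent.H70.Lifts
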