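import Mathlib
import Pool.Agent.H70.Lifts

open Complex Metric Set TopologicalSpace Topology Manifold Filter
open Pool.Agent.H70.MapDefs Pool.Agent.H70.Dev Pool.Agent.H70.Torus Pool.Agent.H70.Surf
open Pool.Agent.H70.Ext Pool.Agent.H70.Lifts Pool.Agent.H70.Winding

namespace Pool.Agent.H70.Isotopy

lemma lftHom_isotopic {h : S ≃ₜ S} (hh : IsotopicToId h) : IsotopicToId (lftHom h) := by
  obtain ⟨H, hH, hk, H0, H1⟩ := hh
  -- the lifted homotopy
  let H' : C(unitInterval × S', T) :=
    ⟨fun p => (H (p.1, q p.2) : T), by
      have := q_cont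
      fun_prop⟩
  let f : C(S', ℂ) := ⟨fun z => z, continuous_subtype_val⟩
  have H'0 : ∀ z, H' (0, z) = P (f z) := by
    intro z
    show ((H (0, q z) : S) : T) = P z
    rw [H0]
    rfl
  set Ht := cov.liftHomotopy H' f H'0 with hHt
  have hlift : ∀ p, P (Ht p) = (H (p.1, q p.2) : T) := by
    intro p
    exact congrFun (cov.liftHomotopy_lifts H' f H'0) p
  have hzero : ∀ z : S', Ht (0, z) = z := fun z => cov.liftHomotopy_zero H' f H'0 z
  have hmem : ∀ p, Ht p ∈ S' := by
    intro p
    rw [mem_S', hlift p]
    exact (H (p.1, q p.2)).2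
  have hkey : ∀ (t : unitInterval) (k : S ≃ₜ S), (∀ x, H (t, x) = k x) →
      ∀ z : S', Ht (t, z) = lft k z := by
    intro t k hkt z₁
    -- the difference is a constant lattice vector
    have hconst : ∀ z z' : S', lft k z - Ht (t, z) = lft k z' - Ht (t, z') := by
      intro z z'
      refine cov.const_of_comp (g := fun z : S' => lft k z - Ht (t, z)) ?_ ?_ z z'
      · exact ((lft_spec k).cont.comp continuous_subtype_val).sub
          (Ht.continuous.comp (Continuous.prodMk_right t))
      · have h0 : ∀ z : S', P (lft k z - Ht (t, z)) = P 0 := by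
          intro z
          rw [P_eq_iff, sub_zero, ← P_eq_iff, hlift, (lft_spec k).lift z, hkt]
        intro z z'
        rw [h0, h0]
    set c := lft k z₁ - Ht (t, z₁) with hc
    have hfix : ∀ n, lft k (a n) - c = a n := by
      intro n
      have hiso := isolated n 0 Lam.zero_mem
      rw [add_zero] at hiso
      refine fixes_puncture (W := (S' : Set ℂ)) (a n) hiso
        (fun p => Ht (p.1 * t, p.2)) ?_ ?_ ?_ (fun z => lft k z - c) ?_ ?_
      · refine Ht.continuous.comp (Continuous.prodMk ?_ continuous_snd)
        fun_prop
      · intro p hp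
        apply hmem (p.1 * t, p.2)
        rw [hp]
        exact ⟨a n, a_mem n, rfl⟩
      · intro z
        simp only [zero_mul]
        exact hzero z
      · exact ((lft_spec k).cont.sub continuous_const).continuousAt
      · refine Eventually.of_forall fun z hz => ?_
        simp only [one_mul]
        have := hconst ⟨z, hz⟩ z₁
        rw [hc, ← this]
        ring
    have hc0 : c = 0 := by
      have h1 : Tendsto (fun n => lft k (a n) - c) atTop (𝓝 (lft k 0 - c)) :=
        (((lft_spec k).cont.tendsto 0).comp a_tendsto).sub tendsto_const_nhds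
      have h2 : Tendsto (fun n => lft k (a n) - c) atTop (𝓝 0) := by
        simp only [hfix]
        exact a_tendsto
      have h3 := tendsto_nhds_unique h1 h2
      rw [(lft_spec k).zero, zero_sub, neg_eq_zero] at h3
      exact h3
    rw [hc] at hc0
    exact (sub_eq_zero.1 hc0).symm
  refine ⟨fun p => ⟨Ht p, hmem p⟩, Ht.continuous.subtype_mk _, ?_, ?_, ?_⟩
  · intro t
    obtain ⟨k, hkt⟩ := hk t
    exact ⟨lftHom k, fun z => Subtype.ext (hkey t k hkt z)⟩
  · intro z
    exact Subtype.ext (hzero z)
  · intro z
    exact Subtype.ext (hkey 1 h H1 z)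

noncomputable instance : HasGroupoid S orientGroupoid := (dev_opens S).hasGroupoid

/-- `S` as an oriented surface. -/
noncomputable def SS : OrientedSurface where
  carrier := S

/-- `S'` as an oriented surface. -/
noncomputable def SS' : OrientedSurface where
  carrier := S'

/-- The homomorphism between mapping class groups induced by lifting. -/
noncomputable def F : Map SS →* Map SS' :=
  QuotientGroup.map (Homeo0 S) (Homeo0 S') lftPos (fun _ hh => lftHom_isotopic hh)

end Pool.Agent.H70.Isotopy
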