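import Mathlib
import Pool.Agent.H70.Isotopy

open Complex Metric Set TopologicalSpace Topology Manifold Filter
open Pool.Agent.H70.MapDefs Pool.Agent.H70.Dev Pool.Agent.H70.Torus Pool.Agent.H70.Surf
open Pool.Agent.H70.Ext Pool.Agent.H70.Lifts Pool.Agent.H70.Winding Pool.Agent.H70.Isotopy

namespace Pool.Agent.H70.Dehn

/-- The ramp function. -/
noncomputable def ramp (s : ℝ) : ℝ := max 0 (min 1 (2 * s - 1 / 2))

lemma ramp_cont : Continuous ramp := by unfold ramp; fun_prop

lemma ramp_zero {s : ℝ} (h : s ≤ 1 / 4) : ramp s = 0 := by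
  unfold ramp
  rw [min_eq_right (by linarith), max_eq_left (by linarith)]

lemma ramp_one {s : ℝ} (h : 3 / 4 ≤ s) : ramp s = 1 := by
  unfold ramp
  rw [min_eq_left (by linarith), max_eq_right (by norm_num)]

/-- The twist function: `τ (y + n) = τ y + n`, and `τ = n` near each integer `n`. -/
noncomputable def tau (y : ℝ) : ℝ := y + (ramp (Int.fract y) - Int.fract y)

lemma tau_eq (y : ℝ) : tau y = ⌊y⌋ + ramp (Int.fract y) := by
  unfold tau
  have := Int.floor_add_fract y
  linarith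

lemma tau_cont : Continuous tau := by
  unfold tau
  refine continuous_id.add ?_
  have : ContinuousOn (fun s : ℝ => ramp s - s) (Icc 0 1) :=
    (ramp_cont.sub continuous_id).continuousOn
  refine this.comp_fract'' ?_
  rw [ramp_zero (by norm_num), ramp_one (by norm_num)]
  norm_num

lemma tau_add_int (y : ℝ) (n : ℤ) : tau (y + n) = tau y + n := by
  rw [tau_eq, tau_eq, Int.floor_add_intCast, Int.fract_add_intCast]
  push_cast
  ring

lemma tau_zero : tau 0 = 0 := by
  rw [tau_eq]
  simp [ramp_zero]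

lemma tau_int (n : ℤ) : tau n = n := by
  have := tau_add_int 0 n
  simpa [tau_zero] using this

/-- The lifted Dehn twist. -/
noncomputable def Dt (z : ℂ) : ℂ := z + (tau z.im : ℝ)

/-- Its inverse. -/
noncomputable def Dt' (z : ℂ) : ℂ := z - (tau z.im : ℝ)

lemma Dt_cont : Continuous Dt := by
  unfold Dt
  have := tau_cont
  fun_prop

lemma Dt'_cont : Continuous Dt' := by
  unfold Dt'
  have := tau_cont
  fun_prop

lemma Dt_Dt' (z : ℂ) : Dt (Dt' z) = z := by simp [Dt, Dt']

lemma Dt'_Dt (z : ℂ) : Dt' (Dt z) = z := by simp [Dt, Dt']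

lemma Dt_congr {z w : ℂ} (h : z - w ∈ Lam) : Dt z - Dt w ∈ Lam := by
  obtain ⟨m, n, h⟩ := h
  have hz : z = w + (m + n * I) := by linear_combination h
  have him : z.im = w.im + n := by
    rw [hz]
    simp
  refine ⟨m + n, n, ?_⟩
  unfold Dt
  rw [him, tau_add_int, hz]
  push_cast
  ring

lemma Dt'_congr {z w : ℂ} (h : z - w ∈ Lam) : Dt' z - Dt' w ∈ Lam := by
  obtain ⟨m, n, h⟩ := h
  have hz : z = w + (m + n * I) := by linear_combination h
  have him : z.im = w.im + n := by
    rw [hz]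
    simp
  refine ⟨m - n, n, ?_⟩
  unfold Dt'
  rw [him, tau_add_int, hz]
  push_cast
  ring

/-- A function on the plane which is compatible with the lattice descends to the torus. -/
noncomputable def desc (D : ℂ → ℂ) (x : T) : T := P (D (Function.surjInv P_surj x))

lemma desc_P {D : ℂ → ℂ} (hD : ∀ z w, z - w ∈ Lam → D z - D w ∈ Lam) (z : ℂ) :
    desc D (P z) = P (D z) := by
  unfold desc
  rw [P_eq_iff]
  apply hD
  rw [← P_eq_iff]
  exact Function.surjInv_eq P_surj (P z)

lemma desc_cont {D : ℂ → ℂ} (hD : ∀ z w, z - w ∈ Lam → D z - D w ∈ Lam) (hc : Continuous D) :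
    Continuous (desc D) := by
  rw [(cov.isQuotientMap P_surj).continuous_iff]
  have : desc D ∘ P = P ∘ D := by
    funext z
    exact desc_P hD z
  rw [this]
  exact P_cont.comp hc

lemma Dt_Et {z : ℂ} (hz : z ∈ Et) : P (Dt z) = P z := by
  obtain ⟨w, hw, m, n, h⟩ := mem_Et.1 hz
  obtain ⟨x, -, -, rfl⟩ := mem_A_real hw
  rw [P_eq_iff]
  have hz : z = x + (m + n * I) := by linear_combination h
  have him : z.im = n := by
    rw [hz]
    simp
  refine ⟨n, 0, ?_⟩
  unfold Dt
  rw [him, tau_int]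
  push_cast
  ring

lemma Dt_mem (z : ℂ) : P (Dt z) ∈ S ↔ P z ∈ S := by
  constructor
  · intro h h'
    apply h
    rw [Dt_Et h']
    exact h'
  · intro h h'
    apply h
    have h1 : Dt z ∈ Et := h'
    -- `Dt' (Dt z) = z`
    obtain ⟨w, hw, m, n, h2⟩ := mem_Et.1 h1
    obtain ⟨x, -, -, rfl⟩ := mem_A_real hw
    have h3 : Dt z = x + (m + n * I) := by linear_combination h2
    have him : z.im = n := by
      have := congrArg Complex.im h3
      simpa [Dt] using this
    have h4 : z = x + ((m - n : ℤ) + n * I) := by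
      unfold Dt at h3
      rw [him, tau_int] at h3
      push_cast at h3 ⊢
      linear_combination h3
    exact mem_Et.2 ⟨x, hw, m - n, n, by rw [h4]; ring⟩

/-- The Dehn twist on the torus. -/
noncomputable def dT : T ≃ₜ T where
  toFun := desc Dt
  invFun := desc Dt'
  left_inv := by
    intro x
    obtain ⟨z, rfl⟩ := P_surj x
    rw [desc_P (fun _ _ => Dt_congr), desc_P (fun _ _ => Dt'_congr), Dt'_Dt]
  right_inv := by
    intro x
    obtain ⟨z, rfl⟩ := P_surj x
    rw [desc_P (fun _ _ => Dt'_congr), desc_P (fun _ _ => Dt_congr), Dt_Dt']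
  continuous_toFun := desc_cont (fun _ _ => Dt_congr) Dt_cont
  continuous_invFun := desc_cont (fun _ _ => Dt'_congr) Dt'_cont

lemma dT_P (z : ℂ) : dT (P z) = P (Dt z) := desc_P (fun _ _ => Dt_congr) z

lemma dT_mem (x : T) : x ∈ S ↔ dT x ∈ S := by
  obtain ⟨z, rfl⟩ := P_surj x
  rw [dT_P, Dt_mem]

/-- The Dehn twist on `S`. -/
noncomputable def d : S ≃ₜ S := dT.subtype dT_mem

lemma d_coe (x : S) : (d x : T) = dT x := rfl

lemma isLift_d : IsLift d Dt where
  cont := Dt_cont
  zero := by simp [Dt, tau_zero]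
  lift := by
    intro z
    rw [d_coe]
    exact (dT_P z).symm

lemma lft_d : lft d = Dt := (lft_spec d).unique isLift_d

lemma posAt_Dt (z : ℂ) : PosAt Dt z := by
  have hslit : ∀ w, w ≠ z → (Dt w - Dt z) / (w - z) ∈ slitPlane := by
    intro w hw
    have hwz : w - z ≠ 0 := sub_ne_zero.2 hw
    have e : (Dt w - Dt z) / (w - z) = 1 + ((tau w.im - tau z.im : ℝ) : ℂ) / (w - z) := by
      unfold Dt
      field_simp
      push_cast
      ring
    rw [e, mem_slitPlane_iff]
    by_cases him : (1 + ((tau w.im - tau z.im : ℝ) : ℂ) / (w - z)).im = 0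
    · left
      have h1 : (tau w.im - tau z.im) * (w - z).im = 0 := by
        have h2 : (((tau w.im - tau z.im : ℝ) : ℂ) / (w - z)).im = 0 := by
          simpa using him
        rw [div_im, ofReal_im, ofReal_re, zero_mul, zero_div, zero_sub, neg_eq_zero,
          div_eq_zero_iff] at h2
        rcases h2 with h2 | h2
        · exact h2
        · exact absurd (normSq_eq_zero.1 h2) hwz
      have h3 : tau w.im - tau z.im = 0 := by
        rcases mul_eq_zero.1 h1 with h1 | h1
        · exact h1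
        · rw [sub_im, sub_eq_zero] at h1
          rw [h1, sub_self]
      rw [h3]
      simp
    · right
      exact him
  refine ⟨1, one_pos, fun w => log ((Dt w - Dt z) / (w - z)), ?_, ?_⟩
  · intro w hw
    have hw' : w ≠ z := hw.2
    have hwz : w - z ≠ 0 := sub_ne_zero.2 hw'
    apply ContinuousAt.continuousWithinAt
    refine ContinuousAt.clog ?_ (hslit w hw')
    have := Dt_cont.continuousAt (x := w)
    fun_prop (disch := assumption)
  · intro w hw
    have hw' : w ≠ z := hw.2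
    have hwz : w - z ≠ 0 := sub_ne_zero.2 hw'
    rw [exp_log (slitPlane_ne_zero (hslit w hw'))]
    field_simp

lemma d_mem : d ∈ HomeoPos S := by
  rw [(dev_opens S).mem_homeoPos d Dt (fun z x _ => Dt_cont.continuousAt) (by
      rintro z ⟨y, hy⟩ hzy
      subst hzy
      exact isLift_d.lift ⟨z, hy⟩)]
  intro z _ _
  exact posAt_Dt z

/-- The support of the twist. -/
def R : Set ℂ := {z | z.re ∈ Icc 0 1 ∧ z.im ∈ Icc (1 / 4 : ℝ) (3 / 4)}

lemma isCompact_R : IsCompact R := by
  have : R = Icc 0 1 ×ℂ Icc (1 / 4 : ℝ) (3 / 4) := by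
    ext z
    simp [R, mem_reProdIm]
  rw [this]
  exact isCompact_Icc.reProdIm isCompact_Icc

lemma R_S : P '' R ⊆ S := by
  rintro _ ⟨z, hz, rfl⟩ hE
  obtain ⟨w, hw, m, n, h⟩ := mem_Et.1 hE
  obtain ⟨x, -, -, rfl⟩ := mem_A_real hw
  have him : z.im = n := by
    have := congrArg Complex.im h
    simpa using this
  have h1 := hz.2
  rw [him] at h1
  have h2 : (0 : ℝ) < n := by linarith [h1.1]
  have h3 : (n : ℝ) < 1 := by linarith [h1.2]
  have h2' : (0 : ℤ) < n := by exact_mod_cast h2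
  have h3' : n < 1 := by exact_mod_cast h3
  omega

lemma isCompact_supp : IsCompact (Subtype.val ⁻¹' (P '' R) : Set S) := by
  apply S.isOpenEmbedding'.isInducing.isCompact_preimage' (isCompact_R.image P_cont)
  rw [Subtype.range_coe]
  exact R_S

lemma d_eq_of_notMem (x : S) (hx : x ∉ (Subtype.val ⁻¹' (P '' R) : Set S)) : d x = x := by
  obtain ⟨x, hxS⟩ := x
  obtain ⟨z₀, rfl⟩ := P_surj x
  -- choose a representative in the fundamental square
  set z : ℂ := z₀ - (⌊z₀.re⌋ + ⌊z₀.im⌋ * I) with hz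
  have hP : P z = P z₀ := by
    rw [P_eq_iff]
    have : z - z₀ = -((⌊z₀.re⌋ : ℂ) + ⌊z₀.im⌋ * I) := by rw [hz]; ring
    rw [this]
    exact Lam.neg_mem ⟨_, _, rfl⟩
  have hre : z.re = Int.fract z₀.re := by
    rw [hz]
    simp only [sub_re, add_re, intCast_re, mul_re, I_re, mul_zero, intCast_im, I_im,
            mul_one, sub_self, add_zero]
    rfl
  have him : z.im = Int.fract z₀.im := by
    rw [hz]
    simp only [sub_im, add_im, intCast_im, mul_im, I_re, mul_zero, intCast_re, I_im,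
            mul_one, zero_add, add_zero]
    rfl
  apply Subtype.ext
  rw [d_coe]
  show dT (P z₀) = P z₀
  rw [← hP, dT_P, P_eq_iff]
  have hnot : z ∉ R := by
    intro h
    apply hx
    exact ⟨z, h, hP⟩
  have h0 : 0 ≤ z.im := by rw [him]; exact Int.fract_nonneg _
  have h1 : z.im < 1 := by rw [him]; exact Int.fract_lt_one _
  have hfr : Int.fract z.im = z.im := Int.fract_eq_self.2 ⟨h0, h1⟩
  have hfl : ⌊z.im⌋ = 0 := Int.floor_eq_zero_iff.2 ⟨h0, h1⟩
  have hor : z.im < 1 / 4 ∨ 3 / 4 < z.im := by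
    by_contra hcon
    push Not at hcon
    apply hnot
    refine ⟨?_, hcon⟩
    rw [hre]
    exact ⟨Int.fract_nonneg _, (Int.fract_lt_one _).le⟩
  unfold Dt
  rw [tau_eq, hfr, hfl, add_sub_cancel_left]
  rcases hor with h | h
  · rw [ramp_zero h.le]
    exact ⟨0, 0, by simp⟩
  · rw [ramp_one h.le]
    exact ⟨1, 0, by simp⟩

/-- The mapping class of the Dehn twist. -/
noncomputable def g : Map SS := Map.mk (S := SS) ⟨d, d_mem⟩

lemma g_supp : IsCompactlySupported g :=
  ⟨⟨d, d_mem⟩, rfl, _, isCompact_supp, d_eq_of_notMem⟩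

/-- The lift of the `n`-th power of the twist. -/
noncomputable def Dn (n : ℤ) (z : ℂ) : ℂ := z + (n * tau z.im : ℝ)

lemma Dn_cont (n : ℤ) : Continuous (Dn n) := by
  unfold Dn
  have := tau_cont
  fun_prop

lemma isLift_d_inv : IsLift d⁻¹ (Dn (-1)) where
  cont := Dn_cont _
  zero := by simp [Dn, tau_zero]
  lift := by
    intro z
    have h1 : Dt (Dn (-1) z) = z := by simp [Dt, Dn]
    have h2 : dT (P (Dn (-1) z)) = P z := by rw [dT_P, h1]
    show P (Dn (-1) z) = dT.symm (P z)
    rw [Homeomorph.eq_symm_apply, h2]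

lemma isLift_dn (n : ℤ) : IsLift (d ^ n) (Dn n) := by
  induction n with
  | zero =>
    have h : Dn 0 = fun z => z := by
      funext z
      simp [Dn]
    rw [zpow_zero, h]
    exact IsLift.one
  | succ n ih =>
    have h : Dn (n + 1) = fun z => Dn n (Dt z) := by
      funext z
      simp [Dn, Dt]
      ring
    rw [zpow_add_one, h]
    exact ih.mul isLift_d
  | pred n ih =>
    have h : Dn (-n - 1) = fun z => Dn (-n) (Dn (-1) z) := by
      funext z
      simp [Dn]
      ring
    rw [zpow_sub_one, h]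
    exact ih.mul isLift_d_inv

lemma lft_dn (n : ℤ) : lft (d ^ n) = Dn n := (lft_spec _).unique (isLift_dn n)

lemma F_g (n : ℤ) : F (g ^ n) = Map.mk (S := SS') (lftPos (⟨d, d_mem⟩ ^ n)) := rfl

lemma lftPos_apply (n : ℤ) (z : S') :
    (((lftPos (⟨d, d_mem⟩ ^ n) : HomeoPos S') : S' ≃ₜ S') z : ℂ) = Dn n z := by
  show ((lftHom ((⟨d, d_mem⟩ ^ n : HomeoPos S) : S ≃ₜ S) z : S') : ℂ) = Dn n z
  rw [lftHom_apply, Subgroup.coe_zpow, lft_dn]

lemma not_supp_aux (n : ℤ) (hn : n ≠ 0) (h' : HomeoPos S') (K : Set S') (hK : IsCompact K)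
    (hKid : ∀ x, x ∉ K → (h' : S' ≃ₜ S') x = x)
    (hh' : IsotopicToId ((h'⁻¹ * lftPos (⟨d, d_mem⟩ ^ n) : HomeoPos S') : S' ≃ₜ S')) : False := by
  obtain ⟨H, hH, -, H0, H1⟩ := hh'
  set e : ℂ := a 0 + I with he
  have hI : (I : ℂ) ∈ Lam := ⟨0, 1, by simp⟩
  have hiso := isolated 0 I hI
  rw [← he] at hiso
  have heE : e ∈ Et := mem_Et.2 ⟨a 0, a_mem 0, by rw [he]; simpa using hI⟩
  have hDe : Dn n e = e + n := by
    unfold Dn
    have : e.im = 1 := by simp [he, a]
    rw [this]
    have := tau_int 1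
    push_cast at this
    rw [this]
    simp
  have hE1 : e + n ∈ Et := by
    have h1 : P (e + n) = P e := by
      rw [P_eq_iff]
      exact ⟨n, 0, by simp⟩
    show P (e + n) ∈ E
    rw [h1]
    exact heE
  -- `K` is closed in the plane and misses `e + n`
  have hK' : IsCompact (Subtype.val '' K : Set ℂ) := hK.image continuous_subtype_val
  have hnot : e + n ∉ (Subtype.val '' K : Set ℂ) := by
    rintro ⟨x, -, hx⟩
    exact x.2 (hx ▸ hE1)
  have hnb : ∀ᶠ z in 𝓝 e, Dn n z ∉ (Subtype.val '' K : Set ℂ) := by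
    have h1 : (Subtype.val '' K : Set ℂ)ᶜ ∈ 𝓝 (Dn n e) := by
      rw [hDe]
      exact hK'.isClosed.isOpen_compl.mem_nhds hnot
    exact (Dn_cont n).continuousAt.eventually_mem h1
  have hinv : ∀ x : S', x ∉ K → (h' : S' ≃ₜ S').symm x = x := by
    intro x hx
    rw [Homeomorph.symm_apply_eq]
    exact (hKid x hx).symm
  have hfix : Dn n e = e := by
    refine fixes_puncture (W := (S' : Set ℂ)) e hiso (fun p => (H p : ℂ)) ?_ ?_ ?_ (Dn n)
      (Dn_cont n).continuousAt ?_
    · exact continuous_subtype_val.comp hH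
    · intro p hp
      exact (H p).2 (hp ▸ heE)
    · intro z
      show ((H (0, z) : S') : ℂ) = z
      rw [H0]
    · filter_upwards [mem_nhdsWithin_of_mem_nhds hnb] with z hz hzS
      show ((H (1, ⟨z, hzS⟩) : S') : ℂ) = Dn n z
      rw [H1]
      show (((h' : S' ≃ₜ S').symm ((lftPos (⟨d, d_mem⟩ ^ n) : S' ≃ₜ S') ⟨z, hzS⟩) : S') : ℂ)
        = Dn n z
      have h2 : (((lftPos (⟨d, d_mem⟩ ^ n) : S' ≃ₜ S') ⟨z, hzS⟩ : S') : ℂ) = Dn n z :=
        lftPos_apply n ⟨z, hzS⟩
      rw [hinv _ ?_, h2]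
      intro h3
      apply hz
      exact ⟨_, h3, h2⟩
  rw [hDe] at hfix
  simp [hn] at hfix

/-- No nontrivial power of the image of the Dehn twist is compactly supported. -/
lemma not_supp (n : ℤ) (hn : n ≠ 0) : ¬ IsCompactlySupported (F (g ^ n)) := by
  rintro ⟨h', hh', K, hK, hKid⟩
  rw [F_g] at hh'
  exact not_supp_aux n hn h' K hK hKid (Map.mk_eq_mk hh')

end Pool.Agent.H70.Dehn
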