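import Mathlib
import Pool.Agent.H70.Surf

open Complex Metric Set TopologicalSpace Topology Manifold Filter
open Pool.Agent.H70.MapDefs Pool.Agent.H70.Dev Pool.Agent.H70.Torus Pool.Agent.H70.Surf

namespace Pool.Agent.H70.NotFG

/-- A criterion for the fundamental group not to be finitely generated. -/
lemma not_fg (X : Type) [TopologicalSpace X] [PathConnectedSpace X]
    (hyp : ∀ K : Set X, IsCompact K → ∃ W : C(X, {z : ℂ // z ≠ 0}), (∀ x ∈ K, (W x : ℂ) = 1) ∧
      ∃ (y : X) (c : Path y y) (L : C(unitInterval, ℂ)), (∀ t, exp (L t) = W (c t)) ∧ L 0 ≠ L 1)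
    (x : X) : ¬ Group.FG (FundamentalGroup X x) := by
  intro hfg
  obtain ⟨Sg, hSg, hfin⟩ := Group.fg_iff.1 hfg
  have hrep : ∀ γ : FundamentalGroup X x, ∃ p : Path x x, Path.Homotopic.Quotient.mk p = γ :=
    fun γ => Path.Homotopic.Quotient.mk_surjective γ
  choose rep hrep using hrep
  obtain ⟨W, hWK, y, c, L, hL, hL01⟩ := hyp (⋃ γ ∈ Sg, range (rep γ))
    (hfin.isCompact_biUnion fun γ _ => isCompact_range (rep γ).continuous)
  -- the monodromy homomorphism
  let Φ : FundamentalGroup X x →* Equiv.Perm _ :=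
    (isCoveringMap_exp.monodromyPerm (W x)).comp (FundamentalGroup.map W x)
  have h1 : ∀ γ ∈ Sg, Φ γ = 1 := by
    intro γ hγ
    have h2 : FundamentalGroup.map W x γ = 1 := by
      have h3 : (rep γ).map W.continuous = Path.refl (W x) := by
        ext t
        have ht : rep γ t ∈ ⋃ γ ∈ Sg, range (rep γ) :=
          mem_iUnion₂.2 ⟨γ, hγ, ⟨t, rfl⟩⟩
        have h0 : rep γ 0 ∈ ⋃ γ ∈ Sg, range (rep γ) :=
          mem_iUnion₂.2 ⟨γ, hγ, ⟨0, rfl⟩⟩
        have e1 := hWK _ ht
        have e2 := hWK _ h0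
        rw [(rep γ).source] at e2
        show ((W (rep γ t) : {z : ℂ // z ≠ 0}) : ℂ) = (W x : ℂ)
        rw [e1, e2]
      conv_lhs => rw [← hrep γ]
      show Path.Homotopic.Quotient.map (Path.Homotopic.Quotient.mk (rep γ)) W = _
      rw [← Path.Homotopic.Quotient.mk_map, h3]
      rfl
    show isCoveringMap_exp.monodromyPerm (W x) (FundamentalGroup.map W x γ) = 1
    rw [h2, map_one]
  have h2 : ∀ γ, Φ γ = 1 := by
    intro γ
    have h3 : Subgroup.closure Sg ≤ Φ.ker := by
      rw [Subgroup.closure_le]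
      intro γ hγ
      exact h1 γ hγ
    rw [hSg] at h3
    exact h3 (Subgroup.mem_top γ)
  obtain ⟨δ⟩ : Nonempty (Path x y) := PathConnectedSpace.joined x y
  -- monodromy of `c` moves `L 0` to `L 1`
  have hmc : ∀ (e₀ : (fun z : ℂ => (⟨exp z, exp_ne_zero z⟩ : {z : ℂ // z ≠ 0})) ⁻¹' {W y}),
      (e₀ : ℂ) = L 0 →
      ((isCoveringMap_exp.monodromy
        (Path.Homotopic.Quotient.mk (c.map W.continuous)) e₀ : _) : ℂ) = L 1 := by
    intro e₀ he₀
    have hsrc : (c.map W.continuous : C(unitInterval, _)) 0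
        = (fun z : ℂ => (⟨exp z, exp_ne_zero z⟩ : {z : ℂ // z ≠ 0})) (e₀ : ℂ) := by
      have := e₀.2
      simp only [mem_preimage, mem_singleton_iff] at this
      simpa using this.symm
    have key : L = isCoveringMap_exp.liftPath (c.map W.continuous : C(unitInterval, _)) e₀ hsrc := by
      rw [isCoveringMap_exp.eq_liftPath_iff']
      refine ⟨?_, he₀.symm⟩
      funext t
      exact Subtype.ext (hL t)
    show isCoveringMap_exp.liftPath (c.map W.continuous : C(unitInterval, _)) e₀ _ 1 = L 1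
    rw [← key]
  -- loops at `x` act trivially
  have hloop : ∀ (ℓ : Path x x) (e : (fun z : ℂ => (⟨exp z, exp_ne_zero z⟩ : {z : ℂ // z ≠ 0})) ⁻¹'
      {W x}), isCoveringMap_exp.monodromy
        (Path.Homotopic.Quotient.mk (ℓ.map W.continuous)) e = e := by
    intro ℓ e
    have h3 := h2 (FundamentalGroup.fromPath (Path.Homotopic.Quotient.mk ℓ))
    have h4 := congrArg (fun σ : Equiv.Perm _ => σ e) h3
    exact h4
  -- a lift of `L 0` to the fibre over `W x`
  have hL0 : L 0 ∈ (fun z : ℂ => (⟨exp z, exp_ne_zero z⟩ : {z : ℂ // z ≠ 0})) ⁻¹' {W y} := by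
    have := hL 0
    rw [c.source] at this
    exact Subtype.ext this
  obtain ⟨e, he⟩ := (isCoveringMap_exp.monodromy_bijective
    (Path.Homotopic.Quotient.mk (δ.map W.continuous))).2 ⟨L 0, hL0⟩
  have e1 := hloop (δ.trans (c.trans δ.symm)) e
  rw [Path.map_trans, Path.map_trans, Path.Homotopic.Quotient.mk_trans,
    Path.Homotopic.Quotient.mk_trans, isCoveringMap_exp.monodromy_trans_apply,
    isCoveringMap_exp.monodromy_trans_apply, he] at e1
  have e2 := hloop (δ.trans δ.symm) e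
  rw [Path.map_trans, Path.Homotopic.Quotient.mk_trans,
    isCoveringMap_exp.monodromy_trans_apply, he] at e2
  have e3 := (isCoveringMap_exp.monodromy_bijective
    (Path.Homotopic.Quotient.mk (δ.symm.map W.continuous))).1 (e1.trans e2.symm)
  have e4 := hmc ⟨L 0, hL0⟩ rfl
  rw [e3] at e4
  exact hL01 e4

/-- The local inverse of `P` near `P 0` (with value `1` away from `P 0`). -/
noncomputable def sec (x : T) : ℂ := by
  classical
  exact if h : ∃ z ∈ ball (0 : ℂ) (1 / 2), P z = x then h.choose else 1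

lemma sec_P {z : ℂ} (hz : z ∈ ball (0 : ℂ) (1 / 2)) : sec (P z) = z := by
  have h : ∃ w ∈ ball (0 : ℂ) (1 / 2), P w = P z := ⟨z, hz, rfl⟩
  unfold sec
  rw [dif_pos h]
  obtain ⟨h1, h2⟩ := h.choose_spec
  rw [P_eq_iff] at h2
  have h3 : ‖h.choose - z‖ < 1 := by
    rw [mem_ball, dist_zero_right] at h1 hz
    refine (norm_sub_le _ _).trans_lt ?_
    linarith
  exact sub_eq_zero.1 (eq_zero_of_norm_lt h2 h3)

lemma sec_of_notMem {x : T} (hx : x ∉ P '' ball (0 : ℂ) (1 / 2)) : sec x = 1 := by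
  unfold sec
  rw [dif_neg]
  rintro ⟨z, hz, h⟩
  exact hx ⟨z, hz, h⟩

lemma sec_cont {z : ℂ} (hz : z ∈ ball (0 : ℂ) (1 / 2)) : ContinuousAt sec (P z) := by
  intro V hV
  rw [sec_P hz] at hV
  rw [mem_map]
  have h1 : P '' (interior V ∩ ball (0 : ℂ) (1 / 2)) ∈ 𝓝 (P z) := by
    refine (P_open _ (isOpen_interior.inter isOpen_ball)).mem_nhds ⟨z, ⟨?_, hz⟩, rfl⟩
    exact mem_interior_iff_mem_nhds.2 hV
  filter_upwards [h1] with x hx
  obtain ⟨w, ⟨hw1, hw2⟩, rfl⟩ := hx
  rw [mem_preimage, sec_P hw2]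
  exact interior_subset hw1

/-- Cut-off function. -/
noncomputable def chi (ρ s : ℝ) : ℝ := max 0 (min 1 (2 - 2 * s / ρ))

lemma chi_cont (ρ : ℝ) : Continuous (chi ρ) := by unfold chi; fun_prop

lemma chi_le_one (ρ s : ℝ) : chi ρ s ≤ 1 := by
  unfold chi
  exact max_le zero_le_one (min_le_left _ _)

lemma chi_nonneg (ρ s : ℝ) : 0 ≤ chi ρ s := le_max_left _ _

lemma chi_one {ρ s : ℝ} (hρ : 0 < ρ) (h : s ≤ ρ / 2) : chi ρ s = 1 := by
  unfold chi
  have : 2 * s / ρ ≤ 1 := by
    rw [div_le_one hρ]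
    linarith
  rw [min_eq_left (by linarith), max_eq_right (by norm_num)]

lemma chi_zero {ρ s : ℝ} (hρ : 0 < ρ) (h : ρ ≤ s) : chi ρ s = 0 := by
  unfold chi
  have : 2 ≤ 2 * s / ρ := by
    rw [le_div_iff₀ hρ]
    linarith
  rw [min_eq_right (by linarith), max_eq_left (by linarith)]

/-- The function `z ↦ 1 - α χ(|z|) / z`. -/
noncomputable def W0 (ρ α : ℝ) (z : ℂ) : ℂ := 1 - (α * chi ρ ‖z‖ : ℝ) / z

lemma W0_one {ρ α : ℝ} (hρ : 0 < ρ) {z : ℂ} (hz : ρ ≤ ‖z‖) : W0 ρ α z = 1 := by
  unfold W0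
  rw [chi_zero hρ hz]
  simp

lemma W0_cont (ρ α : ℝ) {z : ℂ} (hz : z ≠ 0) : ContinuousAt (W0 ρ α) z := by
  unfold W0
  have := chi_cont ρ
  fun_prop (disch := assumption)

lemma W0_ne_zero {ρ α : ℝ} (hρ : 0 < ρ) (hα : 0 < α) (hαρ : α < ρ / 2) {z : ℂ} (hz : z ≠ α) :
    W0 ρ α z ≠ 0 := by
  intro h
  apply hz
  by_cases hz0 : z = 0
  · unfold W0 at h
    rw [hz0] at h
    simp at h
  · unfold W0 at h
    have h1 : z = (α * chi ρ ‖z‖ : ℝ) := by
      have : (α * chi ρ ‖z‖ : ℝ) / z = 1 := by linear_combination -h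
      rw [div_eq_one_iff_eq hz0] at this
      exact this.symm
    have h2 : ‖z‖ ≤ ρ / 2 := by
      have h3 : ‖z‖ = α * chi ρ ‖z‖ := by
        conv_lhs => rw [h1]
        rw [norm_real, Real.norm_of_nonneg (mul_nonneg hα.le (chi_nonneg _ _))]
      rw [h3]
      have := chi_le_one ρ ‖z‖
      nlinarith [chi_nonneg ρ ‖z‖]
    rw [chi_one hρ h2, mul_one] at h1
    exact h1

lemma exists_W (K : Set S) (hK : IsCompact K) : ∃ W : C(S, {z : ℂ // z ≠ 0}),
    (∀ x ∈ K, (W x : ℂ) = 1) ∧ ∃ (y : S') (c : Path y y) (L : C(unitInterval, ℂ)),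
      (∀ t, exp (L t) = W (q (c t))) ∧ L 0 ≠ L 1 := by
  have hK' : IsCompact (Subtype.val '' K : Set T) := hK.image continuous_subtype_val
  have h0 : P 0 ∉ (Subtype.val '' K : Set T) := by
    rintro ⟨x, -, hx⟩
    exact x.2 ⟨0, mem_insert _ _, hx.symm⟩
  have hnb : P ⁻¹' (Subtype.val '' K : Set T)ᶜ ∈ 𝓝 (0 : ℂ) :=
    P_cont.continuousAt (hK'.isClosed.isOpen_compl.mem_nhds h0)
  obtain ⟨ρ', hρ', hρK⟩ := Metric.nhds_basis_ball.mem_iff.1 hnb
  set ρ := min ρ' (1 / 4) with hρdef
  have hρ : 0 < ρ := lt_min hρ' (by norm_num)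
  have hρ4 : ρ ≤ 1 / 4 := min_le_right _ _
  have hρK' : ∀ z ∈ ball (0 : ℂ) ρ, P z ∉ (Subtype.val '' K : Set T) := fun z hz =>
    hρK (ball_subset_ball (min_le_left _ _) hz)
  -- choose a puncture
  obtain ⟨n, hn⟩ : ∃ n, ar n < ρ / 2 := by
    have h1 : ∀ᶠ n in atTop, a n ∈ ball (0 : ℂ) (ρ / 2) :=
      a_tendsto (ball_mem_nhds _ (by positivity))
    obtain ⟨n, hn⟩ := h1.exists
    refine ⟨n, ?_⟩
    rw [mem_ball, dist_zero_right, a, norm_real, Real.norm_of_nonneg (ar_pos n).le] at hn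
    exact hn
  have hα := ar_pos n
  have hsec0 : ∀ x : S, sec x ≠ 0 := by
    intro x hx
    by_cases hxO : (x : T) ∈ P '' ball (0 : ℂ) (1 / 2)
    · obtain ⟨z, hz, hzx⟩ := hxO
      rw [← hzx, sec_P hz] at hx
      exact x.2 ⟨0, mem_insert _ _, by rw [← hzx, hx]⟩
    · rw [sec_of_notMem hxO] at hx
      exact one_ne_zero hx
  have hsecα : ∀ x : S, sec x ≠ ar n := by
    intro x hx
    by_cases hxO : (x : T) ∈ P '' ball (0 : ℂ) (1 / 2)
    · obtain ⟨z, hz, hzx⟩ := hxO
      rw [← hzx, sec_P hz] at hx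
      exact x.2 ⟨a n, a_mem n, by rw [← hzx, hx]; rfl⟩
    · rw [sec_of_notMem hxO] at hx
      have h1 : (1 : ℝ) = ar n := by exact_mod_cast hx
      have := ar_le n
      linarith
  have hcont : Continuous (fun x : S => W0 ρ (ar n) (sec x)) := by
    rw [continuous_iff_continuousAt]
    intro x
    by_cases hxO : (x : T) ∈ P '' ball (0 : ℂ) (1 / 2)
    · obtain ⟨z, hz, hzx⟩ := hxO
      have h1 : ContinuousAt sec (x : T) := by
        rw [← hzx]
        exact sec_cont hz
      have h2 : ContinuousAt (fun x : S => sec x) x :=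
        ContinuousAt.comp (f := Subtype.val) h1 continuous_subtype_val.continuousAt
      exact ContinuousAt.comp (f := fun x : S => sec x) (W0_cont _ _ (hsec0 x)) h2
    · have h1 : ∀ᶠ y : S in 𝓝 x, W0 ρ (ar n) (sec y) = 1 := by
        have h2 : (P '' closedBall (0 : ℂ) ρ)ᶜ ∈ 𝓝 (x : T) := by
          apply ((isCompact_closedBall _ _).image P_cont).isClosed.isOpen_compl.mem_nhds
          intro h3
          apply hxO
          refine image_mono (closedBall_subset_ball ?_) h3
          linarith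
        filter_upwards [continuous_subtype_val.continuousAt.preimage_mem_nhds h2] with y hy
        apply W0_one hρ
        by_cases hyO : (y : T) ∈ P '' ball (0 : ℂ) (1 / 2)
        · obtain ⟨z, hz, hzx⟩ := hyO
          rw [← hzx, sec_P hz]
          by_contra hlt
          push Not at hlt
          apply hy
          exact ⟨z, by rw [mem_closedBall, dist_zero_right]; exact hlt.le, hzx⟩
        · rw [sec_of_notMem hyO]
          simp only [norm_one]
          linarith
      have h4 : W0 ρ (ar n) (sec x) = 1 := h1.self_of_nhds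
      have h5 : (fun _ : S => (1 : ℂ)) =ᶠ[𝓝 x] (fun x : S => W0 ρ (ar n) (sec x)) := by
        filter_upwards [h1] with y hy using hy.symm
      exact continuousAt_const.congr h5
  refine ⟨⟨fun x => ⟨W0 ρ (ar n) (sec x), W0_ne_zero hρ hα hn (hsecα x)⟩, hcont.subtype_mk _⟩,
    ?_, ?_⟩
  · intro x hx
    show W0 ρ (ar n) (sec x) = 1
    apply W0_one hρ
    by_cases hxO : (x : T) ∈ P '' ball (0 : ℂ) (1 / 2)
    · obtain ⟨z, hz, hzx⟩ := hxO
      rw [← hzx, sec_P hz]
      by_contra hlt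
      push Not at hlt
      apply hρK' z (by rwa [mem_ball, dist_zero_right])
      exact ⟨x, hx, hzx.symm⟩
    · rw [sec_of_notMem hxO]
      simp only [norm_one]
      linarith
  · -- the small loop around the puncture
    have hiso := isolated n 0 Lam.zero_mem
    rw [add_zero] at hiso
    obtain ⟨r, hr, hr'⟩ := Metric.mem_nhdsWithin_iff.1 hiso
    set ε := min (r / 2) (min (ar n / 2) (ρ / 2 - ar n)) with hε
    have hε0 : 0 < ε := lt_min (by positivity) (lt_min (by positivity) (by linarith))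
    have hε1 : ε ≤ r / 2 := min_le_left _ _
    have hε2 : ε ≤ ar n / 2 := (min_le_right _ _).trans (min_le_left _ _)
    have hε3 : ε ≤ ρ / 2 - ar n := (min_le_right _ _).trans (min_le_right _ _)
    let γ : ℝ → ℂ := fun t => a n + ε * exp (2 * Real.pi * t * I)
    have hnorm : ∀ t : ℝ, ‖(ε : ℂ) * exp (2 * Real.pi * t * I)‖ = ε := by
      intro t
      have : (2 * Real.pi * t * I : ℂ) = ((2 * Real.pi * t : ℝ) : ℂ) * I := by push_cast; ring
      rw [this, norm_mul, norm_exp_ofReal_mul_I, mul_one, norm_real, Real.norm_of_nonneg hε0.le]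
    have hγ : ∀ t, γ t ∈ S' := by
      intro t
      apply hr'
      constructor
      · rw [mem_ball, dist_eq_norm]
        simp only [γ, add_sub_cancel_left]
        rw [hnorm]
        linarith
      · simp only [γ, mem_compl_iff, mem_singleton_iff, add_eq_left]
        intro h
        have := hnorm t
        rw [h, norm_zero] at this
        linarith
    have hγc : Continuous γ := by
      simp only [γ]
      fun_prop
    have hγnorm : ∀ t, ‖γ t‖ ≤ ρ / 2 := by
      intro t
      simp only [γ]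
      refine (norm_add_le _ _).trans ?_
      rw [hnorm, a, norm_real, Real.norm_of_nonneg hα.le]
      linarith
    have hγslit : ∀ t, γ t ∈ slitPlane := by
      intro t
      rw [mem_slitPlane_iff]
      left
      simp only [γ]
      have h1 := abs_re_le_norm ((ε : ℂ) * exp (2 * Real.pi * t * I))
      rw [hnorm] at h1
      have h2 := neg_abs_le ((ε : ℂ) * exp (2 * Real.pi * t * I)).re
      rw [add_re, a, ofReal_re]
      linarith
    have hγ01 : γ 1 = γ 0 := by
      simp only [γ]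
      simp [exp_two_pi_mul_I]
    let y : S' := ⟨γ 0, hγ 0⟩
    let c : Path y y :=
      { toFun := fun t => ⟨γ t, hγ t⟩
        continuous_toFun := (hγc.comp continuous_subtype_val).subtype_mk _
        source' := by simp [y]
        target' := by simp [y, hγ01] }
    have hWγ : ∀ t, W0 ρ (ar n) (sec (P (γ t))) = ε * exp (2 * Real.pi * t * I) / γ t := by
      intro t
      have hb : γ t ∈ ball (0 : ℂ) (1 / 2) := by
        rw [mem_ball, dist_zero_right]
        have := hγnorm t
        linarith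
      rw [sec_P hb]
      unfold W0
      rw [chi_one hρ (hγnorm t), mul_one]
      have hne := slitPlane_ne_zero (hγslit t)
      field_simp
      simp only [γ, a]
      ring
    let L : C(unitInterval, ℂ) :=
      ⟨fun t => Real.log ε + 2 * Real.pi * t * I - log (γ t), by
        have h1 : Continuous fun t : unitInterval => log (γ t) :=
          Continuous.clog (hγc.comp continuous_subtype_val) (fun t => hγslit t)
        fun_prop⟩
    refine ⟨y, c, L, ?_, ?_⟩
    · intro t
      show exp (Real.log ε + 2 * Real.pi * t * I - log (γ t)) = W0 ρ (ar n) (sec (P (γ t)))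
      rw [hWγ, exp_sub, exp_add, exp_log (slitPlane_ne_zero (hγslit t)), ← ofReal_exp,
        Real.exp_log hε0]
    · show (Real.log ε + 2 * Real.pi * ((0 : unitInterval) : ℝ) * I - log (γ (0 : unitInterval)) : ℂ)
        ≠ Real.log ε + 2 * Real.pi * ((1 : unitInterval) : ℝ) * I - log (γ (1 : unitInterval))
      simp only [Icc.coe_zero, Icc.coe_one, hγ01]
      intro h
      have : (2 * Real.pi * I : ℂ) = 0 := by
        push_cast at h
        linear_combination -h
      simp [Real.pi_ne_zero] at this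

lemma not_fg_S (x : S) : ¬ Group.FG (FundamentalGroup S x) := by
  refine not_fg S ?_ x
  intro K hK
  obtain ⟨W, hW, y, c, L, hL, hL'⟩ := exists_W K hK
  exact ⟨W, hW, q y, c.map q_cont, L, hL, hL'⟩

lemma not_fg_S' (x : S') : ¬ Group.FG (FundamentalGroup S' x) := by
  refine not_fg S' ?_ x
  intro K hK
  obtain ⟨W, hW, y, c, L, hL, hL'⟩ := exists_W (q '' K) (hK.image q_cont)
  exact ⟨W.comp ⟨q, q_cont⟩, fun x hx => hW _ ⟨x, hx, rfl⟩, y, c, L, hL, hL'⟩

end Pool.Agent.H70.NotFG
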